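import Mathlib

/-!
# Project KO, block KEY: logarithmic valuations

A discrete valuation `v` (with the convention `v 0 = 0`) of a field `E` over `k`, with three
derivations that do not lower `v`; the last one multiplies by `v` up to higher order.
-/

set_option autoImplicit false

namespace Pool.Agent.KO

variable {k E : Type} [Field k] [Field E] [Algebra k E]

/-- A discrete valuation with three logarithmic derivations. -/
structure LogVal (k E : Type) [Field k] [Field E] [Algebra k E] where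
  v : E → ℤ
  zero : v 0 = 0
  mul : ∀ x y : E, x ≠ 0 → y ≠ 0 → v (x * y) = v x + v y
  add : ∀ x y : E, x ≠ 0 → y ≠ 0 → x + y ≠ 0 → min (v x) (v y) ≤ v (x + y)
  const : ∀ c : k, c ≠ 0 → v (algebraMap k E c) = 0
  δ : Fin 3 → Derivation k E E
  log : ∀ i x, x ≠ 0 → δ i x ≠ 0 → v x ≤ v (δ i x)
  log1 : ∀ x, x ≠ 0 → δ 2 x - (v x : E) * x = 0 ∨ v x + 1 ≤ v (δ 2 x - (v x : E) * x)

namespace LogVal

variable (D : LogVal k E)

theorem one : D.v 1 = 0 := by
  have h := D.const 1 one_ne_zero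
  rwa [map_one] at h

theorem inv {x : E} (hx : x ≠ 0) : D.v x⁻¹ = - D.v x := by
  have h := D.mul x x⁻¹ hx (inv_ne_zero hx)
  rw [mul_inv_cancel₀ hx, D.one] at h
  omega

theorem negOne : D.v (-1) = 0 := by
  have h := D.const (-1) (by norm_num)
  rwa [map_neg, map_one] at h

theorem ne_zero_of_v {x : E} (h : D.v x ≠ 0) : x ≠ 0 := by
  rintro rfl
  exact h D.zero

theorem div' {x y : E} (hx : x ≠ 0) (hy : y ≠ 0) : D.v (x / y) = D.v x - D.v y := by
  rw [div_eq_mul_inv, D.mul _ _ hx (inv_ne_zero hy), D.inv hy]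
  ring

theorem pow {x : E} (hx : x ≠ 0) (n : ℕ) : D.v (x ^ n) = n * D.v x := by
  induction n with
  | zero => simp [D.one]
  | succ n ih =>
    rw [pow_succ, D.mul _ _ (pow_ne_zero n hx) hx, ih]
    push_cast
    ring

theorem neg (x : E) : D.v (-x) = D.v x := by
  by_cases hx : x = 0
  · simp [hx]
  rw [← neg_one_mul x, D.mul _ _ (by norm_num) hx, D.negOne, zero_add]

theorem const_mul {c : k} (hc : c ≠ 0) (x : E) : D.v (algebraMap k E c * x) = D.v x := by
  by_cases hx : x = 0
  · simp [hx]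
  have h1 : algebraMap k E c ≠ 0 := by
    rwa [Ne, map_eq_zero]
  rw [D.mul _ _ h1 hx, D.const c hc, zero_add]

theorem natCast [CharZero k] {m : ℕ} (hm : m ≠ 0) : D.v (m : E) = 0 := by
  have h := D.const (m : k) (by exact_mod_cast hm)
  rwa [map_natCast] at h

theorem intCast [CharZero k] {m : ℤ} (hm : m ≠ 0) : D.v (m : E) = 0 := by
  have h := D.const (m : k) (by exact_mod_cast hm)
  rwa [map_intCast] at h

theorem prod {ι : Type*} (s : Finset ι) (f : ι → E) (hf : ∀ i ∈ s, f i ≠ 0) :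
    D.v (∏ i ∈ s, f i) = ∑ i ∈ s, D.v (f i) := by
  classical
  induction s using Finset.induction_on with
  | empty => simp [D.one]
  | insert i s hi ih =>
    rw [Finset.prod_insert hi, Finset.sum_insert hi, D.mul _ _ (hf i (Finset.mem_insert_self i s))
      (Finset.prod_ne_zero_iff.2 fun j hj => hf j (Finset.mem_insert_of_mem hj)),
      ih fun j hj => hf j (Finset.mem_insert_of_mem hj)]

theorem sub {x y : E} (hx : x ≠ 0) (hy : y ≠ 0) (h : x - y ≠ 0) :
    min (D.v x) (D.v y) ≤ D.v (x - y) := by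
  rw [sub_eq_add_neg] at h ⊢
  rw [← D.neg y]
  exact D.add x (-y) hx (neg_ne_zero.2 hy) h

/-- Lower bounds are kept by addition (with the convention that `0` satisfies every bound). -/
theorem add_ge {x y : E} {c : ℤ} (hx : x = 0 ∨ c ≤ D.v x) (hy : y = 0 ∨ c ≤ D.v y) :
    x + y = 0 ∨ c ≤ D.v (x + y) := by
  by_cases h1 : x = 0
  · subst h1; simpa using hy
  by_cases h2 : y = 0
  · subst h2; simpa using hx
  by_cases h3 : x + y = 0
  · exact Or.inl h3
  · exact Or.inr (le_trans (le_min (hx.resolve_left h1) (hy.resolve_left h2)) (D.add x y h1 h2 h3))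

theorem mul_ge {x y : E} {c c' : ℤ} (hx : x = 0 ∨ c ≤ D.v x) (hy : y = 0 ∨ c' ≤ D.v y) :
    x * y = 0 ∨ c + c' ≤ D.v (x * y) := by
  by_cases h1 : x = 0
  · left; simp [h1]
  by_cases h2 : y = 0
  · left; simp [h2]
  right
  rw [D.mul x y h1 h2]
  exact add_le_add (hx.resolve_left h1) (hy.resolve_left h2)

theorem neg_ge {x : E} {c : ℤ} (hx : x = 0 ∨ c ≤ D.v x) : -x = 0 ∨ c ≤ D.v (-x) := by
  rw [D.neg x, neg_eq_zero]
  exact hx

theorem sub_ge {x y : E} {c : ℤ} (hx : x = 0 ∨ c ≤ D.v x) (hy : y = 0 ∨ c ≤ D.v y) :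
    x - y = 0 ∨ c ≤ D.v (x - y) := by
  rw [sub_eq_add_neg]
  exact D.add_ge hx (D.neg_ge hy)

theorem sum_ge {ι : Type*} (s : Finset ι) (f : ι → E) (c : ℤ)
    (hf : ∀ i ∈ s, f i = 0 ∨ c ≤ D.v (f i)) : ∑ i ∈ s, f i = 0 ∨ c ≤ D.v (∑ i ∈ s, f i) := by
  classical
  induction s using Finset.induction_on with
  | empty => left; simp
  | insert i s hi ih =>
    rw [Finset.sum_insert hi]
    exact D.add_ge (hf i (Finset.mem_insert_self i s)) (ih fun j hj => hf j (Finset.mem_insert_of_mem hj))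

theorem const_ge (c : k) : algebraMap k E c = 0 ∨ 0 ≤ D.v (algebraMap k E c) := by
  by_cases hc : c = 0
  · left; simp [hc]
  · right; rw [D.const c hc]

/-- The valuation of a sum of two elements of different valuation. -/
theorem add_of_lt {x y : E} (hx : x ≠ 0) (h : y = 0 ∨ D.v x < D.v y) :
    x + y ≠ 0 ∧ D.v (x + y) = D.v x := by
  by_cases hy : y = 0
  · subst hy; simp [hx]
  have hlt := h.resolve_left hy
  have hne : x + y ≠ 0 := by
    intro h0
    have h1 : x = -y := eq_neg_of_add_eq_zero_left h0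
    rw [h1, D.neg] at hlt
    exact lt_irrefl _ hlt
  refine ⟨hne, le_antisymm ?_ ?_⟩
  · by_contra hcon
    push Not at hcon
    have h2 := D.add (x + y) (-y) hne (neg_ne_zero.2 hy) (by simpa using hx)
    rw [add_neg_cancel_right, D.neg] at h2
    exact absurd h2 (not_le.2 (lt_min hcon hlt))
  · have := D.add x y hx hy hne
    rwa [min_eq_left hlt.le] at this

/-- A vanishing sum of nonzero elements attains its minimal valuation at least twice. -/
theorem exists_two {ι : Type*} (s : Finset ι) (f : ι → E) (hs : s.Nonempty)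
    (hf : ∀ i ∈ s, f i ≠ 0) (h0 : ∑ i ∈ s, f i = 0) : ∃ i ∈ s, ∃ j ∈ s, i ≠ j ∧
    D.v (f i) = D.v (f j) ∧ ∀ l ∈ s, D.v (f i) ≤ D.v (f l) := by
  classical
  obtain ⟨i, hi, hmin⟩ := s.exists_min_image (fun i => D.v (f i)) hs
  by_contra hcon
  push Not at hcon
  have h1 : ∀ j ∈ s.erase i, f j = 0 ∨ D.v (f i) + 1 ≤ D.v (f j) := by
    intro j hj
    right
    have hj' := Finset.mem_erase.1 hj
    have h2 := hmin j hj'.2
    rcases h2.lt_or_eq with h3 | h3
    · exact h3
    · obtain ⟨l, hl, hl'⟩ := hcon i hi j hj'.2 (Ne.symm hj'.1) h3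
      exact absurd (hmin l hl) (not_le.2 hl')
  have h2 := D.sum_ge (s.erase i) f _ h1
  have h3 := D.add_of_lt (hf i hi) (y := ∑ j ∈ s.erase i, f j) (h2.imp id fun h => by omega)
  rw [Finset.add_sum_erase s f hi] at h3
  exact h3.1 h0

/-- A lower bound for determinants: each row has a lower bound. -/
theorem det_ge [CharZero k] {n : ℕ} (M : Matrix (Fin n) (Fin n) E) (c : Fin n → ℤ)
    (h : ∀ i j, M i j = 0 ∨ c i ≤ D.v (M i j)) : M.det = 0 ∨ ∑ i, c i ≤ D.v M.det := by
  rw [← Matrix.det_transpose, Matrix.det_apply']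
  refine D.sum_ge _ _ _ fun σ _ => ?_
  by_cases h0 : ((Equiv.Perm.sign σ : ℤ) : E) * ∏ i, M.transpose (σ i) i = 0
  · exact Or.inl h0
  right
  have h1 : ((Equiv.Perm.sign σ : ℤ) : E) ≠ 0 := left_ne_zero_of_mul h0
  have h2 : ∏ i, M.transpose (σ i) i ≠ 0 := right_ne_zero_of_mul h0
  have h3 : (Equiv.Perm.sign σ : ℤ) ≠ 0 := by
    intro h4
    rw [h4, Int.cast_zero] at h1
    exact h1 rfl
  rw [D.mul _ _ h1 h2, D.intCast h3, zero_add, D.prod _ _ (Finset.prod_ne_zero_iff.1 h2)]
  exact Finset.sum_le_sum fun i _ => (h i (σ i)).resolve_left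
    (Finset.prod_ne_zero_iff.1 h2 i (Finset.mem_univ i))

/-- The chain rule for a derivation. -/
theorem der_aeval {σ : Type} [Fintype σ] [DecidableEq σ] (δ : Derivation k E E) (u : σ → E)
    (P : MvPolynomial σ k) : δ (MvPolynomial.aeval u P) =
    ∑ j, MvPolynomial.aeval u (MvPolynomial.pderiv j P) * δ (u j) := by
  induction P using MvPolynomial.induction_on with
  | C c =>
    rw [MvPolynomial.aeval_C, δ.map_algebraMap]
    simp
  | add p q hp hq =>
    simp only [map_add, hp, hq, add_mul, Finset.sum_add_distrib]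
  | mul_X p i hp =>
    rw [map_mul, MvPolynomial.aeval_X, δ.leibniz, smul_eq_mul, smul_eq_mul, hp]
    have h1 : ∀ j, MvPolynomial.aeval u (MvPolynomial.pderiv j (p * MvPolynomial.X i)) * δ (u j) =
        u i * (MvPolynomial.aeval u (MvPolynomial.pderiv j p) * δ (u j)) +
          (if j = i then MvPolynomial.aeval u p * δ (u j) else 0) := by
      intro j
      rw [(MvPolynomial.pderiv j).leibniz, smul_eq_mul, smul_eq_mul, MvPolynomial.pderiv_X,
        map_add, map_mul, map_mul, MvPolynomial.aeval_X]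
      split_ifs with h
      · subst h
        rw [Pi.single_eq_same, map_one]
        ring
      · rw [Pi.single_eq_of_ne (Ne.symm h), map_zero]
        ring
    rw [Finset.sum_congr rfl fun j _ => h1 j, Finset.sum_add_distrib, ← Finset.mul_sum,
      Finset.sum_ite_eq' Finset.univ i]
    simp only [Finset.mem_univ, if_true]
    ring

end LogVal

end Pool.Agent.KO
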