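import Pool.Agent.KO.Base
import Pool.Agent.KO.Key.Val

/-!
# Project KO, block KEY: definitions

Homogeneous coordinates `z, u, w, x, y = X 0, .., X 4` of weights 1, 5, 6, 22, 33.
-/

set_option autoImplicit false

namespace Pool.Agent.KO

open MvPolynomial

/-- The weights of `z, u, w, x, y`. -/
def w5 : Fin 5 → ℕ := ![1, 5, 6, 22, 33]

/-- The homogeneous equation. -/
noncomputable def gH {k : Type} [CommRing k] (t : k) : MvPolynomial (Fin 5) k :=
  X 4 ^ 2 + X 3 ^ 3 + C t * X 2 ^ 11 + X 1 * X 0 * X 2 ^ 10 + X 1 ^ 12 * X 2 - X 0 ^ 66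
    - X 0 ^ 12 * X 2 ^ 9

/-- A point of the hypersurface with values in a field with a logarithmic valuation: `pt 0 = 1`,
the jacobian of `u, w, x` is not zero, and `μ` is the minimum of the `v (pt i) / w5 i`. -/
structure KPt (k E : Type) [Field k] [Field E] [Algebra k E] extends LogVal k E where
  t : k
  pt : Fin 5 → E
  pt0 : pt 0 = 1
  on : aeval pt (gH t) = 0
  jac : (Matrix.of fun i j : Fin 3 => δ j (pt i.castSucc.succ)).det ≠ 0
  μ : ℚ
  hμ : ∀ i, w5 i * μ ≤ v (pt i)
  hμ1 : ∃ i, w5 i * μ = v (pt i)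

namespace KPt

variable {k E : Type} [Field k] [Field E] [Algebra k E] (D : KPt k E)

/-- The value of a polynomial at the point. -/
noncomputable def ev (P : MvPolynomial (Fin 5) k) : E := aeval D.pt P

/-- The values of the partial derivatives of the equation. -/
noncomputable def γ (j : Fin 5) : E := D.ev (pderiv j (gH D.t))

/-- The normalised values of the coordinates. -/
noncomputable def w (i : Fin 5) : ℚ := D.v (D.pt i) - w5 i * D.μ

/-- The normalised value of a polynomial of degree `d`. -/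
noncomputable def vh (d : ℕ) (P : MvPolynomial (Fin 5) k) : ℚ := D.v (D.ev P) - d * D.μ

/-- The normalised values of the partial derivatives of the equation. -/
noncomputable def vγ (j : Fin 5) : ℚ := D.v (D.γ j) - (66 - w5 j) * D.μ

/-- The valuation of `λ = J / y`. -/
def Lam : ℤ := D.v (Matrix.of fun i j : Fin 3 => D.δ j (D.pt i.castSucc.succ)).det - D.v (D.pt 4)

/-- The log discrepancy. -/
def A : ℚ := D.Lam - D.μ

/-- The difference of the two sides of the log inequality. -/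
noncomputable def e (j : Fin 5) : ℚ := D.A + D.vγ j - ∑ i ∈ Finset.univ.erase j, D.w i

@[simp] theorem ev_X (j : Fin 5) : D.ev (X j) = D.pt j := aeval_X _ _

@[simp] theorem ev_C (c : k) : D.ev (C c) = algebraMap k E c := aeval_C _ _

@[simp] theorem ev_add (P Q : MvPolynomial (Fin 5) k) : D.ev (P + Q) = D.ev P + D.ev Q :=
  map_add _ _ _

@[simp] theorem ev_sub (P Q : MvPolynomial (Fin 5) k) : D.ev (P - Q) = D.ev P - D.ev Q :=
  map_sub _ _ _

@[simp] theorem ev_neg (P : MvPolynomial (Fin 5) k) : D.ev (-P) = -D.ev P := map_neg _ _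

@[simp] theorem ev_mul (P Q : MvPolynomial (Fin 5) k) : D.ev (P * Q) = D.ev P * D.ev Q :=
  map_mul _ _ _

@[simp] theorem ev_pow (P : MvPolynomial (Fin 5) k) (n : ℕ) : D.ev (P ^ n) = D.ev P ^ n :=
  map_pow _ _ _

@[simp] theorem ev_zero : D.ev 0 = 0 := map_zero _

@[simp] theorem ev_one : D.ev 1 = 1 := map_one _

@[simp] theorem ev_gH : D.ev (gH D.t) = 0 := D.on

theorem ev_sum {ι : Type*} (s : Finset ι) (f : ι → MvPolynomial (Fin 5) k) :
    D.ev (∑ i ∈ s, f i) = ∑ i ∈ s, D.ev (f i) := map_sum _ _ _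

theorem ev_congr {P Q : MvPolynomial (Fin 5) k} (h : gH D.t ∣ P - Q) : D.ev P = D.ev Q := by
  obtain ⟨R, hR⟩ := h
  have h1 : D.ev (P - Q) = 0 := by rw [hR, D.ev_mul, D.ev_gH, zero_mul]
  rw [D.ev_sub] at h1
  exact sub_eq_zero.1 h1

theorem w_nonneg (i : Fin 5) : 0 ≤ D.w i := sub_nonneg.2 (D.hμ i)

theorem exists_w : ∃ i, D.w i = 0 := by
  obtain ⟨i, hi⟩ := D.hμ1
  exact ⟨i, by rw [w, hi, sub_self]⟩

theorem w_zero : D.w 0 = -D.μ := by
  have h : w5 0 = 1 := rfl
  rw [w, D.pt0, D.one, h]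
  simp

end KPt

theorem isWH_gH {k : Type} [CommRing k] (t : k) : IsWeightedHomogeneous w5 (gH t) 66 := by
  have hX : ∀ i : Fin 5, IsWeightedHomogeneous w5 (X i : MvPolynomial (Fin 5) k) (w5 i) := fun i =>
    isWeightedHomogeneous_X k w5 i
  unfold gH
  refine IsWeightedHomogeneous.sub (IsWeightedHomogeneous.sub (IsWeightedHomogeneous.add
    (IsWeightedHomogeneous.add (IsWeightedHomogeneous.add (IsWeightedHomogeneous.add ?_ ?_) ?_)
    ?_) ?_) ?_) ?_
  · exact (hX 4).pow 2
  · exact (hX 3).pow 3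
  · have := (isWeightedHomogeneous_C w5 t).mul ((hX 2).pow 11)
    simpa [w5] using this
  · exact ((hX 1).mul (hX 0)).mul ((hX 2).pow 10)
  · exact ((hX 1).pow 12).mul (hX 2)
  · exact (hX 0).pow 66
  · exact ((hX 0).pow 12).mul ((hX 2).pow 9)

end Pool.Agent.KO
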