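import Pool.Agent.KO.Key.Star2

/-! # Project KO, block KEY: the centre is in `y = 0` -/

set_option autoImplicit false

namespace Pool.Agent.KO.KPt

open MvPolynomial

/-- The part of the equation that is free of `x` and `y`. -/
private noncomputable def b0 {k : Type} [Field k] (t : k) : MvPolynomial (Fin 5) k :=
  C t * X 2 ^ 11 + X 1 * X 0 * X 2 ^ 10 + X 1 ^ 12 * X 2 - X 0 ^ 66 - X 0 ^ 12 * X 2 ^ 9

private theorem gH_eq {k : Type} [Field k] (t : k) : gH t = X 4 ^ 2 + (X 3 ^ 3 + b0 t) := by
  unfold gH b0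
  ring

private theorem b0_wh {k : Type} [Field k] (t : k) : IsWeightedHomogeneous w5 (b0 t) 66 := by
  have hX : ∀ i : Fin 5, IsWeightedHomogeneous w5 (X i : MvPolynomial (Fin 5) k) (w5 i) := fun i =>
    isWeightedHomogeneous_X k w5 i
  unfold b0
  refine IsWeightedHomogeneous.sub (IsWeightedHomogeneous.sub (IsWeightedHomogeneous.add
    (IsWeightedHomogeneous.add ?_ ?_) ?_) ?_) ?_
  · have := (isWeightedHomogeneous_C w5 t).mul ((hX 2).pow 11)
    simpa [w5] using this
  · exact ((hX 1).mul (hX 0)).mul ((hX 2).pow 10)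
  · exact ((hX 1).pow 12).mul (hX 2)
  · exact (hX 0).pow 66
  · exact ((hX 0).pow 12).mul ((hX 2).pow 9)

private theorem b0_free {k : Type} [Field k] (t : k) (j : Fin 5) (hj : j = 3 ∨ j = 4) :
    pderiv j (b0 t) = 0 := by
  rcases hj with rfl | rfl <;>
  simp [b0, Derivation.leibniz, Derivation.leibniz_pow, pderiv_X]

private theorem b0_deg {k : Type} [Field k] (t : k) (ht : t ≠ 0) :
    degreeOf 2 (-(b0 t)) = 11 := by
  classical
  apply le_antisymm
  · rw [degreeOf_le_iff]
    intro m hm
    rw [mem_support_iff, coeff_neg, neg_ne_zero] at hm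
    by_contra hcon
    push Not at hcon
    apply hm
    have key : ∀ (Q : MvPolynomial (Fin 5) k), degreeOf 2 Q < m 2 → coeff m Q = 0 := by
      intro Q hQ
      by_contra h
      have h1 : m ∈ Q.support := mem_support_iff.2 h
      have h2 := degreeOf_le_iff.1 (le_refl (degreeOf 2 Q)) m h1
      omega
    apply key
    refine lt_of_le_of_lt ?_ hcon
    unfold b0
    have hx : ∀ (i : Fin 5) (n : ℕ), degreeOf 2 ((X i : MvPolynomial (Fin 5) k) ^ n) ≤
        if i = 2 then n else 0 := by
      intro i n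
      refine (degreeOf_pow_le _ _ _).trans ?_
      rw [degreeOf_X]
      by_cases h : (2 : Fin 5) = i
      · rw [if_pos h, if_pos h.symm, mul_one]
      · rw [if_neg h, if_neg (Ne.symm h), mul_zero]
    have hx1 : ∀ (i : Fin 5), degreeOf 2 (X i : MvPolynomial (Fin 5) k) ≤
        if i = 2 then 1 else 0 := by
      intro i
      have := hx i 1
      rwa [pow_one] at this
    have d1 : degreeOf 2 (C t * X 2 ^ 11 : MvPolynomial (Fin 5) k) ≤ 11 := by
      refine (degreeOf_C_mul_le _ _ _).trans ?_
      exact (hx 2 11).trans (by simp)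
    have d2 : degreeOf 2 (X 1 * X 0 * X 2 ^ 10 : MvPolynomial (Fin 5) k) ≤ 11 := by
      refine (degreeOf_mul_le _ _ _).trans ?_
      have e1 := (degreeOf_mul_le 2 (X 1 : MvPolynomial (Fin 5) k) (X 0))
      have e2 := hx1 1
      have e3 := hx1 0
      have e4 := hx 2 10
      simp only [if_true, show ((1 : Fin 5) = 2) = False by decide,
        show ((0 : Fin 5) = 2) = False by decide, if_false] at e2 e3 e4
      omega
    have d3 : degreeOf 2 (X 1 ^ 12 * X 2 : MvPolynomial (Fin 5) k) ≤ 11 := by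
      refine (degreeOf_mul_le _ _ _).trans ?_
      have e2 := hx 1 12
      have e3 := hx1 2
      simp only [if_true, show ((1 : Fin 5) = 2) = False by decide, if_false] at e2 e3
      omega
    have d4 : degreeOf 2 (X 0 ^ 66 : MvPolynomial (Fin 5) k) ≤ 11 := by
      have e2 := hx 0 66
      simp only [show ((0 : Fin 5) = 2) = False by decide, if_false] at e2
      omega
    have d5 : degreeOf 2 (X 0 ^ 12 * X 2 ^ 9 : MvPolynomial (Fin 5) k) ≤ 11 := by
      refine (degreeOf_mul_le _ _ _).trans ?_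
      have e2 := hx 0 12
      have e3 := hx 2 9
      simp only [if_true, show ((0 : Fin 5) = 2) = False by decide, if_false] at e2 e3
      omega
    refine (degreeOf_sub_le _ _ _).trans (max_le ?_ d5)
    refine (degreeOf_sub_le _ _ _).trans (max_le ?_ d4)
    refine (degreeOf_add_le _ _ _).trans (max_le ?_ d3)
    exact (degreeOf_add_le _ _ _).trans (max_le d1 d2)
  · have hm : Finsupp.single (2 : Fin 5) 11 ∈ (-(b0 t)).support := by
      rw [mem_support_iff, coeff_neg, neg_ne_zero]
      have h1 : coeff (Finsupp.single (2 : Fin 5) 11) (b0 t) = t := by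
        have hn : ∀ (n : Fin 5 →₀ ℕ) (c : k), (n 0 ≠ 0 ∨ n 1 ≠ 0) →
            coeff (Finsupp.single (2 : Fin 5) 11) (monomial n c) = 0 := by
          intro n c hn
          rw [coeff_monomial, if_neg]
          rintro rfl
          rcases hn with h | h <;> simp at h
        have e1 : (C t * X 2 ^ 11 : MvPolynomial (Fin 5) k) =
            monomial (Finsupp.single 2 11) t := by
          rw [X_pow_eq_monomial, C_mul_monomial, mul_one]
        have e2 : (X 1 * X 0 * X 2 ^ 10 : MvPolynomial (Fin 5) k) =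
            monomial (Finsupp.single 1 1 + Finsupp.single 0 1 + Finsupp.single 2 10) 1 := by
          rw [X_pow_eq_monomial, X, X, monomial_mul, monomial_mul, mul_one, mul_one]
        have e3 : (X 1 ^ 12 * X 2 : MvPolynomial (Fin 5) k) =
            monomial (Finsupp.single 1 12 + Finsupp.single 2 1) 1 := by
          rw [X_pow_eq_monomial, X, monomial_mul, mul_one]
        have e4 : (X 0 ^ 66 : MvPolynomial (Fin 5) k) = monomial (Finsupp.single 0 66) 1 := by
          rw [X_pow_eq_monomial]
        have e5 : (X 0 ^ 12 * X 2 ^ 9 : MvPolynomial (Fin 5) k) =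
            monomial (Finsupp.single 0 12 + Finsupp.single 2 9) 1 := by
          rw [X_pow_eq_monomial, X_pow_eq_monomial, monomial_mul, mul_one]
        have c2 := hn (Finsupp.single 1 1 + Finsupp.single 0 1 + Finsupp.single 2 10) 1
          (Or.inl (by simp))
        have c3 := hn (Finsupp.single 1 12 + Finsupp.single 2 1) 1 (Or.inr (by simp))
        have c4 := hn (Finsupp.single 0 66) 1 (Or.inl (by simp))
        have c5 := hn (Finsupp.single 0 12 + Finsupp.single 2 9) 1 (Or.inl (by simp))
        unfold b0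
        rw [e1, e2, e3, e4, e5, coeff_sub, coeff_sub, coeff_add, coeff_add, c2, c3, c4, c5,
          coeff_monomial, if_pos rfl]
        ring
      rw [h1]
      exact ht
    have := degreeOf_le_iff.1 (le_refl (degreeOf 2 (-(b0 t)))) _ hm
    simpa using this

/-- Killing the variable `X 4`. -/
private noncomputable def kil (k : Type) [Field k] :
    MvPolynomial (Fin 5) k →ₐ[k] MvPolynomial (Fin 5) k :=
  aeval (fun i => if i = 4 then 0 else X i)

private theorem kil_X {k : Type} [Field k] {i : Fin 5} (h : i ≠ 4) : kil k (X i) = X i := by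
  rw [kil, aeval_X, if_neg h]

private theorem kil_X4 {k : Type} [Field k] : kil k (X 4) = 0 := by
  rw [kil, aeval_X, if_pos rfl]

private theorem kil_fix {k : Type} [Field k] [CharZero k] (P : MvPolynomial (Fin 5) k)
    (h : pderiv 4 P = 0) : kil k P = P := by
  have h1 : kil k P = aeval X P := by
    rw [kil, aeval_def, aeval_def, eval₂_eq, eval₂_eq]
    refine Finset.sum_congr rfl fun n hn => ?_
    congr 1
    refine Finset.prod_congr rfl fun i _ => ?_
    by_cases hi : i = 4
    · subst hi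
      rw [(pderiv_eq_zero_iff P 4).1 h n hn, pow_zero, pow_zero]
    · rw [if_neg hi]
  rw [h1, aeval_X_left_apply]

private theorem kil_free {k : Type} [Field k] (P : MvPolynomial (Fin 5) k) :
    pderiv 4 (kil k P) = 0 := by
  induction P using MvPolynomial.induction_on with
  | C c => simp [kil]
  | add p q hp hq => rw [map_add, map_add, hp, hq, add_zero]
  | mul_X p i hp =>
    rw [map_mul, Derivation.leibniz, hp, smul_zero, add_zero]
    by_cases hi : i = 4
    · subst hi
      rw [kil_X4, map_zero, smul_zero]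
    · rw [kil_X hi, pderiv_X_of_ne hi, smul_zero]

private theorem kil_pd {k : Type} [Field k] (P : MvPolynomial (Fin 5) k) :
    pderiv 3 (kil k P) = kil k (pderiv 3 P) := by
  induction P using MvPolynomial.induction_on with
  | C c => simp [kil]
  | add p q hp hq => rw [map_add, map_add, map_add, map_add, hp, hq]
  | mul_X p i hp =>
    rw [map_mul, Derivation.leibniz, Derivation.leibniz, hp, map_add, smul_eq_mul, smul_eq_mul,
      smul_eq_mul, smul_eq_mul, map_mul, map_mul]
    congr 1
    congr 1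
    by_cases hi : i = 4
    · subst hi
      rw [kil_X4, map_zero, pderiv_X_of_ne (by decide), map_zero]
    · rw [kil_X hi]
      by_cases h3 : i = 3
      · subst h3
        rw [pderiv_X_self, map_one]
      · rw [pderiv_X_of_ne h3, map_zero]

private theorem kil_wh {k : Type} [Field k] {P : MvPolynomial (Fin 5) k} {d : ℕ}
    (h : IsWeightedHomogeneous w5 P d) : IsWeightedHomogeneous w5 (kil k P) d := by
  rw [kil, aeval_def, eval₂_eq']
  refine IsWeightedHomogeneous.sum _ _ _ fun n hn => ?_
  have hd : Finsupp.weight w5 n = d := h (mem_support_iff.1 hn)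
  have h1 : IsWeightedHomogeneous w5
      (∏ i, (if i = 4 then (0 : MvPolynomial (Fin 5) k) else X i) ^ n i) (∑ i, n i • w5 i) := by
    refine IsWeightedHomogeneous.prod _ _ _ fun i _ => ?_
    refine IsWeightedHomogeneous.pow ?_ _
    by_cases hi : i = 4
    · rw [if_pos hi]
      exact isWeightedHomogeneous_zero k w5 _
    · rw [if_neg hi]
      exact isWeightedHomogeneous_X k w5 i
  have h2 := (isWeightedHomogeneous_C w5 (coeff n P)).mul h1
  rw [zero_add] at h2
  rw [← hd, Finsupp.weight_apply, Finsupp.sum_fintype _ _ (by simp)]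
  exact h2

variable {k E : Type} [Field k] [CharZero k] [Field E] [Algebra k E] (D : KPt k E)

omit [CharZero k] in
private theorem nn (h : ∀ i, 0 ≤ D.v (D.pt i)) (P : MvPolynomial (Fin 5) k) :
    D.ev P = 0 ∨ 0 ≤ D.v (D.ev P) := by
  induction P using MvPolynomial.induction_on with
  | C c =>
    rw [D.ev_C]
    exact D.const_ge c
  | add p q hp hq =>
    rw [D.ev_add]
    exact D.add_ge hp hq
  | mul_X p i hp =>
    rw [D.ev_mul, D.ev_X]
    have := D.mul_ge hp (Or.inr (h i))
    simpa using this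

/-- `w 4 ≥ 1`, all others are zero. -/
theorem cen1 (ht : D.t ≠ 0) (m : ℤ) (hm : D.μ = m) (h0 : D.w 0 = 0) (h1 : D.w 1 = 0)
    (h2 : D.w 2 = 0) (h3 : D.w 3 = 0) (h4 : 0 < D.w 4) :
    2 ≤ D.A ∨ ∀ (d : ℕ) (P : MvPolynomial (Fin 5) k), IsWeightedHomogeneous w5 P d →
      0 < D.vh d P → ∃ P', gH D.t ∣ P - X 4 * P' := by
  have hμ : D.μ = 0 := by
    have := D.w_zero
    rw [h0] at this
    linarith
  have hvh : ∀ (d : ℕ) (P : MvPolynomial (Fin 5) k), D.vh d P = D.v (D.ev P) := by
    intro d P
    rw [vh, hμ, mul_zero, sub_zero]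
  have hw : ∀ i, D.w i = D.v (D.pt i) := by
    intro i
    rw [w, hμ, mul_zero, sub_zero]
  have hv4 : 1 ≤ D.v (D.pt 4) := by
    rw [hw] at h4
    exact_mod_cast h4
  by_cases hQ : ∃ (d : ℕ) (Q : MvPolynomial (Fin 5) k), Q ≠ 0 ∧ IsWeightedHomogeneous w5 Q d ∧
      (∀ j ∈ ({3, 4} : Set (Fin 5)), pderiv j Q = 0) ∧ 0 < D.vh d Q
  · left
    obtain ⟨d, Q, hQ0, hQd, hQT, hQpos, hmin, l, hl, hl0⟩ :=
      D.exists_min ({3, 4} : Set (Fin 5)) ⟨3, by simp⟩ hQ
    have hl0' := hl0 h0
    have hl3 : l ≠ 3 := by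
      rintro rfl
      exact hl (hQT 3 (by simp))
    have hl4 : l ≠ 4 := by
      rintro rfl
      exact hl (hQT 4 (by simp))
    obtain ⟨e, he, hve⟩ := hmin l hl
    have hs := D.star_free 3 l hl3.symm D.vγ_three.1 hQd (hQT 3 (by simp)) hl he
    rw [hve] at hs
    have hwl : D.w l = 0 := by
      fin_cases l
      · exact absurd rfl hl0'
      · exact h1
      · exact h2
      · exact absurd rfl hl3
      · exact absurd rfl hl4
    have he3 : D.e 3 = D.A - D.w 4 := by
      rw [KPt.e, D.vγ_three.2, h3]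
      have : (Finset.univ.erase (3 : Fin 5)) = {0, 1, 2, 4} := by decide
      rw [this]
      simp [h0, h1, h2]
    rw [hwl, he3] at hs
    rw [hvh] at hQpos hs
    have hq1 : 1 ≤ D.v (D.ev Q) := by exact_mod_cast hQpos
    have hq2 : (1 : ℚ) ≤ D.v (D.ev Q) := by exact_mod_cast hq1
    have hq3 : (1 : ℚ) ≤ D.w 4 := by
      rw [hw]
      exact_mod_cast hv4
    linarith
  right
  intro d P hP hpos
  have hnn : ∀ Q : MvPolynomial (Fin 5) k, D.ev Q = 0 ∨ 0 ≤ D.v (D.ev Q) := by
    refine D.nn fun i => ?_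
    have := D.w_nonneg i
    rw [hw] at this
    exact_mod_cast this
  have hgH : gH D.t = X 4 ^ 2 + (X 3 ^ 3 + b0 D.t) := gH_eq D.t
  -- division by the equation
  obtain ⟨α, hα, hαh, R1, hR1⟩ := exists_nf w5 (4 : Fin 5) 2 (by norm_num)
    (X 3 ^ 3 + b0 D.t) (by
      rw [map_add, b0_free D.t 4 (Or.inr rfl), Derivation.leibniz_pow,
        pderiv_X_of_ne (by decide)]
      simp)
    (by
      have e1 := (isWeightedHomogeneous_X k w5 (3 : Fin 5)).pow 3
      exact e1.add (b0_wh D.t)) d P hP
  rw [Fin.sum_univ_two] at hR1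
  simp only [Fin.val_zero, pow_zero, mul_one, Fin.val_one, pow_one] at hR1
  rw [← hgH] at hR1
  set a := α 0 with ha
  set b := α 1 with hb
  have hevP : D.ev P = D.ev a + D.ev b * D.pt 4 := by
    have := D.ev_congr (P := P) (Q := a + b * X 4) ⟨R1, hR1⟩
    rw [this, D.ev_add, D.ev_mul, D.ev_X]
  have hPv : D.ev P = 0 ∨ 1 ≤ D.v (D.ev P) := by
    right
    rw [hvh] at hpos
    exact_mod_cast hpos
  have hby : D.ev b * D.pt 4 = 0 ∨ 1 ≤ D.v (D.ev b * D.pt 4) := by
    have := D.mul_ge (hnn b) (Or.inr hv4)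
    simpa using this
  have hav : D.ev a = 0 ∨ 1 ≤ D.v (D.ev a) := by
    have e1 : D.ev a = D.ev P - D.ev b * D.pt 4 := by
      rw [hevP]
      ring
    rw [e1]
    exact D.sub_ge hPv hby
  have ha4 : pderiv 4 a = 0 := hα 0
  -- division of `a`
  have hax : ∃ R : MvPolynomial (Fin 5) k, a = (X 3 ^ 3 + b0 D.t) * R := by
    rcases hαh 0 with h | ⟨e, he, hae⟩
    · exact ⟨0, by rw [mul_zero]; exact h⟩
    simp only [Fin.val_zero, zero_mul, add_zero] at he
    subst he
    obtain ⟨β, hβ, hβh, R2, hR2⟩ := exists_nf w5 (3 : Fin 5) 3 (by norm_num) (b0 D.t)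
      (b0_free D.t 3 (Or.inl rfl)) (b0_wh D.t) e a hae
    rw [Fin.sum_univ_three] at hR2
    simp only [Fin.val_zero, pow_zero, mul_one, Fin.val_one, pow_one, Fin.val_two] at hR2
    have hkb : kil k (b0 D.t) = b0 D.t := kil_fix _ (b0_free D.t 4 (Or.inr rfl))
    have hR3 := congrArg (kil k) hR2
    rw [map_sub, map_add, map_add, map_mul, map_mul, map_mul, map_pow, map_add, map_pow, hkb,
      kil_X (by decide), kil_fix a ha4] at hR3
    set a0 := kil k (β 0) with ha0
    set a1 := kil k (β 1) with ha1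
    set a2 := kil k (β 2) with ha2
    set R := kil k R2 with hR
    set c := -(b0 D.t) with hc
    have hbc : b0 D.t = -c := by rw [hc, neg_neg]
    rw [hbc] at hR3
    set N := a0 ^ 3 + a1 ^ 3 * c + a2 ^ 3 * c ^ 2 - 3 * a0 * a1 * a2 * c with hN
    have hNid : N = (a - (X 3 ^ 3 + -c) * R) * ((a0 ^ 2 - a1 * a2 * c) + (a2 ^ 2 * c - a0 * a1) *
        X 3 + (a1 ^ 2 - a0 * a2) * X 3 ^ 2) - (X 3 ^ 3 + -c) * ((a1 * (a1 ^ 2 - a0 * a2) + a2 *
        (a2 ^ 2 * c - a0 * a1)) + a2 * (a1 ^ 2 - a0 * a2) * X 3) := by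
      have e1 : a - (X 3 ^ 3 + -c) * R = a0 + a1 * X 3 + a2 * X 3 ^ 2 := by
        linear_combination hR3
      rw [e1, hN]
      ring
    have hxb : D.ev (X 3 ^ 3 + -c) = -(D.pt 4) ^ 2 := by
      have e1 := D.ev_gH
      rw [hgH, hbc, D.ev_add, D.ev_pow, D.ev_X] at e1
      linear_combination e1
    have hy2 : ∀ Q : MvPolynomial (Fin 5) k, D.ev ((X 3 ^ 3 + -c) * Q) = 0 ∨
        1 ≤ D.v (D.ev ((X 3 ^ 3 + -c) * Q)) := by
      intro Q
      rw [D.ev_mul, hxb]
      have e1 : -(D.pt 4) ^ 2 * D.ev Q = D.pt 4 * (D.ev (-(X 4)) * D.ev Q) := by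
        rw [D.ev_neg, D.ev_X]
        ring
      rw [e1, ← D.ev_mul]
      have := D.mul_ge (Or.inr hv4 : D.pt 4 = 0 ∨ (1 : ℤ) ≤ D.v (D.pt 4)) (hnn (-(X 4) * Q))
      simpa using this
    have hevN : D.ev N = 0 ∨ 1 ≤ D.v (D.ev N) := by
      rw [hNid, D.ev_sub]
      refine D.sub_ge ?_ (hy2 _)
      rw [D.ev_mul, D.ev_sub]
      have := D.mul_ge (D.sub_ge hav (hy2 R)) (hnn ((a0 ^ 2 - a1 * a2 * c) +
        (a2 ^ 2 * c - a0 * a1) * X 3 + (a1 ^ 2 - a0 * a2) * X 3 ^ 2))
      simpa using this
    have hf3 : ∀ r, pderiv 3 (kil k (β r)) = 0 := fun r => by rw [kil_pd, hβ r, map_zero]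
    have hf4 : ∀ r, pderiv 4 (kil k (β r)) = 0 := fun r => kil_free _
    have hN34 : ∀ j ∈ ({3, 4} : Set (Fin 5)), pderiv j N = 0 := by
      intro j hj
      have hj' : j = 3 ∨ j = 4 := by simpa using hj
      have q0 : pderiv j a0 = 0 := by
        rcases hj' with rfl | rfl
        · exact hf3 0
        · exact hf4 0
      have q1 : pderiv j a1 = 0 := by
        rcases hj' with rfl | rfl
        · exact hf3 1
        · exact hf4 1
      have q2 : pderiv j a2 = 0 := by
        rcases hj' with rfl | rfl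
        · exact hf3 2
        · exact hf4 2
      have qc : pderiv j c = 0 := by rw [hc, map_neg, b0_free D.t j hj', neg_zero]
      have q3 : pderiv j (3 : MvPolynomial (Fin 5) k) = 0 := by
        rw [← map_ofNat (C : k →+* MvPolynomial (Fin 5) k) 3, pderiv_C]
      rw [hN]
      simp only [map_add, map_sub, Derivation.leibniz, Derivation.leibniz_pow, q0, q1, q2, qc, q3,
        smul_zero, add_zero, sub_zero]
    have hcw : IsWeightedHomogeneous w5 c 66 := (b0_wh D.t).neg
    -- the degrees
    have hdeg : ∀ r : Fin 3, kil k (β r) = 0 ∨ ∃ f, f + r * 22 = e ∧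
        IsWeightedHomogeneous w5 (kil k (β r)) f := by
      intro r
      rcases hβh r with h | ⟨f, hf, hfh⟩
      · left
        rw [h, map_zero]
      · exact Or.inr ⟨f, hf, kil_wh hfh⟩
    have hz : ∀ n, IsWeightedHomogeneous w5 (0 : MvPolynomial (Fin 5) k) n := fun n =>
      isWeightedHomogeneous_zero k w5 n
    have hNh : IsWeightedHomogeneous w5 N (3 * e) := by
      rw [hN]
      refine ((IsWeightedHomogeneous.add (IsWeightedHomogeneous.add ?_ ?_) ?_)).sub ?_
      · rcases hdeg 0 with h | ⟨f, hf, hfh⟩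
        · rw [ha0, h]
          simpa using hz (3 * e)
        · simp only [Fin.val_zero, zero_mul, add_zero] at hf
          subst hf
          exact hfh.pow 3
      · rcases hdeg 1 with h | ⟨f, hf, hfh⟩
        · rw [ha1, h]
          simpa using hz (3 * e)
        · simp only [Fin.val_one, one_mul] at hf
          have := (hfh.pow 3).mul hcw
          have e1 : 3 • f + 66 = 3 * e := by rw [smul_eq_mul]; omega
          rwa [e1] at this
      · rcases hdeg 2 with h | ⟨f, hf, hfh⟩
        · rw [ha2, h]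
          simpa using hz (3 * e)
        · simp only [Fin.val_two] at hf
          have := (hfh.pow 3).mul (hcw.pow 2)
          have e1 : 3 • f + 2 • 66 = 3 * e := by rw [smul_eq_mul, smul_eq_mul]; omega
          rwa [e1] at this
      · rcases hdeg 0 with h | ⟨f, hf, hfh⟩
        · rw [ha0, h]
          simpa using hz (3 * e)
        rcases hdeg 1 with h' | ⟨f', hf', hfh'⟩
        · rw [ha1, h']
          simpa using hz (3 * e)
        rcases hdeg 2 with h'' | ⟨f'', hf'', hfh''⟩
        · rw [ha2, h'']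
          simpa using hz (3 * e)
        simp only [Fin.val_zero, zero_mul, add_zero] at hf
        simp only [Fin.val_one, one_mul] at hf'
        simp only [Fin.val_two] at hf''
        have h3w : IsWeightedHomogeneous w5 (3 : MvPolynomial (Fin 5) k) 0 := by
          rw [← map_ofNat (C : k →+* MvPolynomial (Fin 5) k) 3]
          exact isWeightedHomogeneous_C w5 _
        have := (((h3w.mul hfh).mul hfh').mul hfh'').mul hcw
        have e1 : 0 + f + f' + f'' + 66 = 3 * e := by omega
        rwa [e1] at this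
    have hN0 : N = 0 := by
      by_contra hN0
      have hev := D.ev_ne_free hNh hN0 3 (hN34 3 (by simp))
      apply hQ
      refine ⟨3 * e, N, hN0, hNh, hN34, ?_⟩
      rw [hvh]
      have := hevN.resolve_left hev
      have h5 : (1 : ℚ) ≤ D.v (D.ev N) := by exact_mod_cast this
      linarith
    have hall : a0 = 0 ∧ a1 = 0 ∧ a2 = 0 := by
      by_contra hcon
      refine cub_ne a0 a1 a2 c 2 ?_ ?_ ?_
      · rw [hc, b0_deg D.t ht]
        norm_num
      · by_contra h
        push Not at h
        exact hcon h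
      · rw [← hN]
        exact hN0
    refine ⟨R, ?_⟩
    rw [hbc]
    rw [hall.1, hall.2.1, hall.2.2] at hR3
    linear_combination hR3
  obtain ⟨R, hR⟩ := hax
  refine ⟨b - X 4 * R, R1 + R, ?_⟩
  rw [mul_add, ← hR1]
  rw [hR, hgH]
  ring

end Pool.Agent.KO.KPt
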