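import Pool.Agent.KO.Key.Star2

/-! # Project KO, block KEY: the centre is in `z = 0` -/

set_option autoImplicit false

namespace Pool.Agent.KO.KPt

open MvPolynomial

variable {k E : Type} [Field k] [CharZero k] [Field E] [Algebra k E] (D : KPt k E)

private theorem w5v : w5 0 = 1 ∧ w5 1 = 5 ∧ w5 2 = 6 ∧ w5 3 = 22 ∧ w5 4 = 33 :=
  ⟨rfl, rfl, rfl, rfl, rfl⟩

omit [CharZero k] in
private theorem one_le_vh (m : ℤ) (hm : D.μ = m) {d : ℕ} {Q : MvPolynomial (Fin 5) k}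
    (h : 0 < D.vh d Q) : 1 ≤ D.vh d Q := by
  have h1 : D.vh d Q = ((D.v (D.ev Q) - d * m : ℤ) : ℚ) := by
    rw [vh, hm]; push_cast; ring
  rw [h1] at h ⊢
  have h2 : (0 : ℤ) < D.v (D.ev Q) - d * m := by exact_mod_cast h
  exact_mod_cast h2

/-- The first case: a polynomial in `u, w, x` with positive value. -/
private theorem cen2_a (m : ℤ) (hm : D.μ = m) (h4 : D.w 4 = 0)
    (h : ∃ (d : ℕ) (Q : MvPolynomial (Fin 5) k), Q ≠ 0 ∧ IsWeightedHomogeneous w5 Q d ∧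
      (∀ j ∈ ({0, 4} : Set (Fin 5)), pderiv j Q = 0) ∧ 0 < D.vh d Q) : D.w 0 + 1 ≤ D.A := by
  obtain ⟨d, Q, hQ0, hQ, hj, hv, hl, l, hl1, -⟩ := D.exists_min {0, 4} ⟨0, by simp⟩ h
  obtain ⟨e, he, hve⟩ := hl l hl1
  have hl0 : l ≠ 0 := by rintro rfl; exact hl1 (hj 0 (by simp))
  have hl4 : l ≠ 4 := by rintro rfl; exact hl1 (hj 4 (by simp))
  have h1 := D.star_free 4 l (Ne.symm hl4) D.vγ_four.1 hQ (hj 4 (by simp)) hl1 he
  have h2 := D.one_le_vh m hm hv
  have he4 : D.e 4 = D.A + D.w 4 - (D.w 0 + D.w 1 + D.w 2 + D.w 3) := by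
    have hs : (Finset.univ.erase 4 : Finset (Fin 5)) = {0, 1, 2, 3} := by decide
    rw [KPt.e, D.vγ_four.2, hs]
    rw [Finset.sum_insert (by decide), Finset.sum_insert (by decide),
      Finset.sum_insert (by decide), Finset.sum_singleton]
    ring
  have hw : D.w l ≤ D.w 1 + D.w 2 + D.w 3 := by
    have w1 := D.w_nonneg 1
    have w2 := D.w_nonneg 2
    have w3 := D.w_nonneg 3
    fin_cases l
    · exact absurd rfl hl0
    · show D.w 1 ≤ _; linarith
    · show D.w 2 ≤ _; linarith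
    · show D.w 3 ≤ _; linarith
    · exact absurd rfl hl4
  rw [he4, hve, h4] at h1
  linarith

/-- The value of a multiple of `z`. -/
private theorem vh_X0 (h0 : 0 < D.w 0) {d : ℕ} {R : MvPolynomial (Fin 5) k}
    (hR : IsWeightedHomogeneous w5 (X 0 * R) d) :
    D.ev (X 0 * R) = 0 ∨ 0 < D.vh d (X 0 * R) := by
  by_cases hR0 : D.ev R = 0
  · left; rw [D.ev_mul, hR0, mul_zero]
  right
  have hRne : R ≠ 0 := by
    rintro rfl; exact hR0 D.ev_zero
  have hw : ∀ n, coeff n R ≠ 0 → 1 + Finsupp.weight w5 n = d := by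
    intro n hn
    have h1 : coeff (Finsupp.single 0 1 + n) (X 0 * R) ≠ 0 := by rwa [coeff_X_mul]
    have h2 := hR h1
    rw [map_add, Finsupp.weight_single] at h2
    simpa [w5] using h2
  obtain ⟨n, hn⟩ := exists_coeff_ne_zero hRne
  have hd := hw n hn
  have hRh : IsWeightedHomogeneous w5 R (Finsupp.weight w5 n) := by
    intro n' hn'
    have := hw n' hn'
    omega
  have hX : D.ev (X 0 : MvPolynomial (Fin 5) k) ≠ 0 := by rw [D.ev_X, D.pt0]; exact one_ne_zero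
  have h1 := D.vh_mul (d := w5 0) (e := Finsupp.weight w5 n) hX hR0
  rw [D.vh_X, w5v.1, hd] at h1
  have h2 := D.vh_nonneg hRh hR0
  rw [h1]
  linarith

/-- Setting `z = 0`. -/
private theorem split0 {d : ℕ} {Q : MvPolynomial (Fin 5) k} (hQ : IsWeightedHomogeneous w5 Q d)
    (h4 : pderiv 4 Q = 0) : ∃ Q0 Q' : MvPolynomial (Fin 5) k, Q = Q0 + X 0 * Q' ∧
      IsWeightedHomogeneous w5 Q0 d ∧ pderiv 0 Q0 = 0 ∧ pderiv 4 Q0 = 0 := by
  obtain ⟨α, h1, h2, R, hR⟩ := exists_nf w5 0 1 one_pos (0 : MvPolynomial (Fin 5) k)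
    (map_zero _) (isWeightedHomogeneous_zero _ _ _) d Q hQ
  simp only [Finset.univ_unique, Fin.default_eq_zero, Finset.sum_singleton, Fin.val_zero, pow_zero,
    mul_one, pow_one, add_zero] at hR
  refine ⟨α 0, R, ?_, ?_, h1 0, ?_⟩
  · rw [← hR]; ring
  · rcases h2 0 with h | ⟨e, he, h⟩
    · rw [h]; exact isWeightedHomogeneous_zero _ _ _
    · have : e = d := by simpa using he
      rwa [this] at h
  · by_contra hne
    refine not_dvd_of_free (X 0) _ hne 0 ?_ ?_ ?_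
    · rw [pderiv_comm, h1 0, map_zero]
    · rw [pderiv_X_self]; exact one_ne_zero
    · refine ⟨-pderiv 4 R, ?_⟩
      have h3 := congrArg (pderiv 4) hR
      rw [map_sub, h4, Derivation.leibniz, pderiv_X_of_ne (by decide)] at h3
      simp only [zero_sub, smul_eq_mul, mul_zero, add_zero] at h3
      rw [mul_neg, ← h3, neg_neg]

/-- The remaining part of the equation. -/
private noncomputable def c0 (t : k) : MvPolynomial (Fin 5) k :=
  X 3 ^ 3 + (C t * X 2 ^ 11 + X 1 ^ 12 * X 2)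

/-- The part of the equation divisible by `z`, divided by `z`. -/
private noncomputable def c1 : MvPolynomial (Fin 5) k :=
  X 1 * X 2 ^ 10 - X 0 ^ 65 - X 0 ^ 11 * X 2 ^ 9

omit [CharZero k] in
private theorem gH_eq (t : k) : gH t = X 4 ^ 2 + (c0 t + X 0 * c1) := by
  rw [gH, c0, c1]; ring

private theorem deg_c0 (t : k) : degreeOf 3 (c0 t) % 2 = 1 := by
  have h1 : degreeOf 3 (C t * X 2 ^ 11 + X 1 ^ 12 * X 2 : MvPolynomial (Fin 5) k) = 0 := by
    refine Nat.le_zero.1 ((degreeOf_add_le _ _ _).trans (max_le ?_ ?_))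
    · refine (degreeOf_mul_le _ _ _).trans ?_
      rw [degreeOf_C, degreeOf_X_pow_of_ne _ (by decide)]
    · refine (degreeOf_mul_le _ _ _).trans ?_
      rw [degreeOf_X_pow_of_ne _ (by decide), degreeOf_X_of_ne (by decide)]
  have h2 : degreeOf 3 (X 3 ^ 3 : MvPolynomial (Fin 5) k) = 3 := by
    rw [X_pow_eq_monomial, degreeOf_monomial_eq _ _ one_ne_zero]
    simp
  rw [c0, degreeOf_add_eq_of_degreeOf_lt (by rw [h1, h2]; norm_num), h2]

/-- The second case, for polynomials `a + b y`. -/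
private theorem cen2_b (h0 : 0 < D.w 0)
    (hQ : ¬ ∃ (d : ℕ) (Q : MvPolynomial (Fin 5) k), Q ≠ 0 ∧ IsWeightedHomogeneous w5 Q d ∧
      (∀ j ∈ ({0, 4} : Set (Fin 5)), pderiv j Q = 0) ∧ 0 < D.vh d Q)
    {d : ℕ} {a0 b0 : MvPolynomial (Fin 5) k} (ha : IsWeightedHomogeneous w5 a0 d)
    (hb : b0 = 0 ∨ ∃ e, e + 33 = d ∧ IsWeightedHomogeneous w5 b0 e)
    (ha0 : pderiv 0 a0 = 0) (ha4 : pderiv 4 a0 = 0) (hb0 : pderiv 0 b0 = 0)
    (hb4 : pderiv 4 b0 = 0) (hv : D.ev (a0 + b0 * X 4) = 0 ∨ 0 < D.vh d (a0 + b0 * X 4)) :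
    a0 = 0 ∧ b0 = 0 := by
  have hX : ∀ i : Fin 5, IsWeightedHomogeneous w5 (X i : MvPolynomial (Fin 5) k) (w5 i) := fun i =>
    isWeightedHomogeneous_X k w5 i
  have hby : IsWeightedHomogeneous w5 (b0 * X 4) d := by
    rcases hb with rfl | ⟨e, he, hb⟩
    · rw [zero_mul]; exact isWeightedHomogeneous_zero _ _ _
    · have := hb.mul (hX 4)
      rwa [w5v.2.2.2.2, he] at this
  have hc0 : IsWeightedHomogeneous w5 (c0 D.t) 66 := by
    refine IsWeightedHomogeneous.add ?_ (IsWeightedHomogeneous.add ?_ ?_)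
    · exact (hX 3).pow 3
    · simpa [w5] using (isWeightedHomogeneous_C w5 D.t).mul ((hX 2).pow 11)
    · exact ((hX 1).pow 12).mul (hX 2)
  have hc1 : IsWeightedHomogeneous w5 (c1 : MvPolynomial (Fin 5) k) 65 := by
    refine IsWeightedHomogeneous.sub (IsWeightedHomogeneous.sub ?_ ?_) ?_
    · exact (hX 1).mul ((hX 2).pow 10)
    · exact (hX 0).pow 65
    · exact ((hX 0).pow 11).mul ((hX 2).pow 9)
  have hb2 : ∀ (c : MvPolynomial (Fin 5) k) (f : ℕ), IsWeightedHomogeneous w5 c f →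
      ∀ g, f + g = 66 → IsWeightedHomogeneous w5 (X 0 ^ g * (b0 ^ 2 * c)) (2 * d) := by
    intro c f hc g hg
    rcases hb with rfl | ⟨e, he, hb⟩
    · rw [zero_pow two_ne_zero, zero_mul, mul_zero]; exact isWeightedHomogeneous_zero _ _ _
    · have := ((hX 0).pow g).mul ((hb.pow 2).mul hc)
      rw [w5v.1] at this
      convert this using 1
      simp only [smul_eq_mul]
      omega
  -- the norm
  set N : MvPolynomial (Fin 5) k := a0 ^ 2 + b0 ^ 2 * c0 D.t with hN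
  have hNh : IsWeightedHomogeneous w5 N (2 * d) := by
    refine IsWeightedHomogeneous.add (ha.pow 2) ?_
    have := hb2 _ _ hc0 0 rfl
    rwa [pow_zero, one_mul] at this
  have hNfree : ∀ j ∈ ({0, 4} : Set (Fin 5)), pderiv j N = 0 := by
    have hc : ∀ j ∈ ({0, 4} : Set (Fin 5)), pderiv j (c0 D.t) = 0 := by
      intro j hj
      have hj' : j = 0 ∨ j = 4 := hj
      have h3 : pderiv j (X 3 : MvPolynomial (Fin 5) k) = 0 :=
        pderiv_X_of_ne (by rcases hj' with rfl | rfl <;> decide)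
      have h2 : pderiv j (X 2 : MvPolynomial (Fin 5) k) = 0 :=
        pderiv_X_of_ne (by rcases hj' with rfl | rfl <;> decide)
      have h1 : pderiv j (X 1 : MvPolynomial (Fin 5) k) = 0 :=
        pderiv_X_of_ne (by rcases hj' with rfl | rfl <;> decide)
      simp only [c0, map_add, Derivation.leibniz, Derivation.leibniz_pow, h1, h2, h3, pderiv_C,
        smul_zero, add_zero]
    intro j hj
    have hj' : j = 0 ∨ j = 4 := hj
    have h1 : pderiv j a0 = 0 := by rcases hj' with rfl | rfl <;> assumption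
    have h2 : pderiv j b0 = 0 := by rcases hj' with rfl | rfl <;> assumption
    simp only [hN, map_add, Derivation.leibniz, Derivation.leibniz_pow, h1, h2, hc j hj,
      smul_zero, add_zero]
  -- the value of the norm
  have e1 : D.ev N = D.ev ((a0 + b0 * X 4) * (a0 - b0 * X 4) + X 0 * (b0 ^ 2 * -c1)) := by
    refine D.ev_congr ⟨b0 ^ 2, ?_⟩
    rw [gH_eq, hN]
    ring
  have e2 : D.ev ((a0 + b0 * X 4) * (a0 - b0 * X 4)) = 0 ∨
      0 < D.vh (2 * d) ((a0 + b0 * X 4) * (a0 - b0 * X 4)) := by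
    by_cases z1 : D.ev (a0 + b0 * X 4) = 0
    · left; rw [D.ev_mul, z1, zero_mul]
    by_cases z2 : D.ev (a0 - b0 * X 4) = 0
    · left; rw [D.ev_mul, z2, mul_zero]
    right
    rw [two_mul, D.vh_mul z1 z2]
    have h1 := hv.resolve_left z1
    have h2 := D.vh_nonneg (ha.sub hby) z2
    linarith
  have e3 : D.ev (X 0 * (b0 ^ 2 * -c1)) = 0 ∨ 0 < D.vh (2 * d) (X 0 * (b0 ^ 2 * -c1)) := by
    refine D.vh_X0 h0 ?_
    have := hb2 _ _ hc1.neg 1 rfl
    rwa [pow_one] at this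
  have e4 := D.vh_pos_add e2 e3
  have hN0 : N = 0 := by
    by_contra hne
    have h1 := D.ev_ne_free hNh hne 0 (hNfree 0 (by simp))
    rw [e1] at h1
    refine hQ ⟨2 * d, N, hne, hNh, hNfree, ?_⟩
    rw [vh, e1]
    exact e4.resolve_left h1
  by_contra hcon
  refine quad_ne a0 b0 (c0 D.t) 3 (deg_c0 D.t) ?_ hN0
  by_contra h1
  push Not at h1
  exact hcon h1

theorem cen2 (m : ℤ) (hm : D.μ = m) (h4 : D.w 4 = 0) (h0 : 0 < D.w 0) :
    D.w 0 + 1 ≤ D.A ∨ ∀ (d : ℕ) (P : MvPolynomial (Fin 5) k), IsWeightedHomogeneous w5 P d →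
      0 < D.vh d P → ∃ P', gH D.t ∣ P - X 0 * P' := by
  by_cases hQ : ∃ (d : ℕ) (Q : MvPolynomial (Fin 5) k), Q ≠ 0 ∧ IsWeightedHomogeneous w5 Q d ∧
      (∀ j ∈ ({0, 4} : Set (Fin 5)), pderiv j Q = 0) ∧ 0 < D.vh d Q
  · exact Or.inl (D.cen2_a m hm h4 hQ)
  right
  intro d P hP hv
  -- the normal form
  have hc : pderiv 4 (c0 D.t + X 0 * c1) = 0 := by
    have h : ∀ i : Fin 5, i ≠ 4 → pderiv 4 (X i : MvPolynomial (Fin 5) k) = 0 := fun i hi =>
      pderiv_X_of_ne hi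
    simp only [c0, c1, map_add, map_sub, Derivation.leibniz, Derivation.leibniz_pow,
      h 0 (by decide), h 1 (by decide), h 2 (by decide), h 3 (by decide), pderiv_C,
      smul_zero, add_zero, sub_zero]
  have hcw : IsWeightedHomogeneous w5 (c0 D.t + X 0 * c1) (2 * w5 4) := by
    have h1 : c0 D.t + X 0 * c1 = gH D.t - X 4 ^ 2 := by rw [gH_eq]; ring
    rw [h1]
    exact (isWH_gH D.t).sub ((isWeightedHomogeneous_X k w5 4).pow 2)
  obtain ⟨α, a1, a2, a3⟩ := exists_nf w5 4 2 two_pos _ hc hcw d P hP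
  rw [← gH_eq, Fin.sum_univ_two] at a3
  simp only [Fin.val_zero, Fin.val_one, pow_zero, mul_one, pow_one] at a3
  have ha : IsWeightedHomogeneous w5 (α 0) d := by
    rcases a2 0 with h | ⟨e, he, h⟩
    · rw [h]; exact isWeightedHomogeneous_zero _ _ _
    · have : e = d := by simpa using he
      rwa [this] at h
  have hb : ∃ b0 b' : MvPolynomial (Fin 5) k, α 1 = b0 + X 0 * b' ∧
      (b0 = 0 ∨ ∃ e, e + 33 = d ∧ IsWeightedHomogeneous w5 b0 e) ∧
      pderiv 0 b0 = 0 ∧ pderiv 4 b0 = 0 ∧ IsWeightedHomogeneous w5 (X 0 * b' * X 4) d := by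
    rcases a2 1 with h | ⟨e, he, h⟩
    · exact ⟨0, 0, by rw [h]; ring, Or.inl rfl, map_zero _, map_zero _, by
        rw [mul_zero, zero_mul]; exact isWeightedHomogeneous_zero _ _ _⟩
    · obtain ⟨b0, b', hb1, hb2, hb3, hb4⟩ := split0 h (a1 1)
      have he' : e + 33 = d := by simpa [w5] using he
      refine ⟨b0, b', hb1, Or.inr ⟨e, he', hb2⟩, hb3, hb4, ?_⟩
      have h5 : IsWeightedHomogeneous w5 (X 0 * b') e := by
        have : X 0 * b' = α 1 - b0 := by rw [hb1]; ring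
        rw [this]; exact h.sub hb2
      have h6 := h5.mul (isWeightedHomogeneous_X k w5 4)
      rwa [w5v.2.2.2.2, he'] at h6
  obtain ⟨a0, a', ha1, ha2, ha3, ha4⟩ := split0 ha (a1 0)
  obtain ⟨b0, b', hb1, hb2, hb3, hb4, hb5⟩ := hb
  have hah : IsWeightedHomogeneous w5 (X 0 * a') d := by
    have : X 0 * a' = α 0 - a0 := by rw [ha1]; ring
    rw [this]; exact ha.sub ha2
  have hR : IsWeightedHomogeneous w5 (X 0 * (a' + b' * X 4)) d := by
    have : X 0 * (a' + b' * X 4) = X 0 * a' + X 0 * b' * X 4 := by ring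
    rw [this]; exact hah.add hb5
  have hv1 : D.ev (a0 + b0 * X 4) = D.ev (P + X 0 * -(a' + b' * X 4)) := by
    have h1 := D.ev_congr a3
    have h2 : P + X 0 * -(a' + b' * X 4) = P - X 0 * (a' + b' * X 4) := by ring
    rw [h2, D.ev_sub, h1, ← D.ev_sub]
    congr 1
    rw [ha1, hb1]
    ring
  have hv2 : D.ev (P + X 0 * -(a' + b' * X 4)) = 0 ∨
      0 < D.vh d (P + X 0 * -(a' + b' * X 4)) := by
    refine D.vh_pos_add (Or.inr hv) (D.vh_X0 h0 ?_)
    rw [mul_neg]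
    exact hR.neg
  have hv3 : D.ev (a0 + b0 * X 4) = 0 ∨ 0 < D.vh d (a0 + b0 * X 4) := by
    rw [vh, hv1]; exact hv2
  obtain ⟨rfl, rfl⟩ := D.cen2_b h0 hQ ha2 hb2 ha3 ha4 hb3 hb4 hv3
  refine ⟨a' + b' * X 4, ?_⟩
  have h1 : X 0 * (a' + b' * X 4) = α 0 + α 1 * X 4 := by rw [ha1, hb1]; ring
  rwa [h1]

end Pool.Agent.KO.KPt
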