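import Pool.Agent.KO.Key.Star2
import Pool.Agent.KO.U.Defs

/-! # Project KO, block KEY: the centre is not in `z = 0` -/

set_option autoImplicit false
set_option linter.unusedSectionVars false

namespace Pool.Agent.KO

open MvPolynomial

section elim

variable {k : Type} [Field k]

private theorem elim_cons {A : Type} [CommRing A] [Algebra k A] {n : ℕ} (t : A) (v : Fin n → A)
    (P : MvPolynomial (Fin (n + 1)) k) :
    aeval (Fin.cons t v : Fin (n + 1) → A) P =
      Polynomial.eval₂ (aeval v : MvPolynomial (Fin n) k →ₐ[k] A).toRingHom t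
        (finSuccEquiv k n P) := by
  induction P using MvPolynomial.induction_on with
  | C c =>
    rw [← algebraMap_eq, AlgHom.commutes, AlgEquiv.commutes, Polynomial.algebraMap_apply,
      Polynomial.eval₂_C]
    exact ((aeval v : MvPolynomial (Fin n) k →ₐ[k] A).commutes c).symm
  | add p q hp hq => rw [map_add, map_add, Polynomial.eval₂_add, hp, hq]
  | mul_X p i hp =>
    rw [map_mul, map_mul, Polynomial.eval₂_mul, hp, aeval_X]
    congr 1
    refine Fin.cases ?_ (fun j => ?_) i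
    · rw [finSuccEquiv_X_zero, Polynomial.eval₂_X, Fin.cons_zero]
    · rw [finSuccEquiv_X_succ, Polynomial.eval₂_C, Fin.cons_succ]
      simp

private theorem elim_step {A B : Type} [CommRing A] [CommRing B] [IsDomain B]
    (g : B →+* A) (t : A) (f : Polynomial B) (hf : f ≠ 0) :
    ∃ (b : ℕ) (S : B) (y : A), S ≠ 0 ∧ Polynomial.eval₂ g t f = t ^ b * (g S + t * y) := by
  obtain ⟨q, hq, hdvd⟩ := Polynomial.exists_eq_pow_rootMultiplicity_mul_and_not_dvd f hf 0
  rw [map_zero, sub_zero] at hq hdvd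
  refine ⟨f.rootMultiplicity 0, q.coeff 0, Polynomial.eval₂ g t q.divX, ?_, ?_⟩
  · intro h0
    exact hdvd (Polynomial.X_dvd_iff.2 h0)
  · have h1 : Polynomial.eval₂ g t f = t ^ f.rootMultiplicity 0 * Polynomial.eval₂ g t q := by
      conv_lhs => rw [hq]
      rw [Polynomial.eval₂_mul, Polynomial.eval₂_pow, Polynomial.eval₂_X]
    rw [h1]
    congr 1
    conv_lhs => rw [← Polynomial.divX_mul_X_add q]
    rw [Polynomial.eval₂_add, Polynomial.eval₂_mul, Polynomial.eval₂_X, Polynomial.eval₂_C]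
    ring

private theorem elim {A : Type} [CommRing A] [IsDomain A] [Algebra k A] (π h : A) (hπ : Prime π)
    (hh : ¬ π ∣ h) {m : ℕ} (w : Fin m → A) (P : MvPolynomial (Fin (m + 2)) k) (hP : P ≠ 0)
    (h0 : aeval (Fin.cons π (Fin.cons h w : Fin (m + 1) → A) : Fin (m + 2) → A) P = 0) :
    ∃ R : MvPolynomial (Fin m) k, R ≠ 0 ∧ ∃ x y : A, aeval w R = x * π + y * h := by
  rw [elim_cons] at h0
  have hP' : finSuccEquiv k (m + 1) P ≠ 0 := by
    rwa [Ne, EmbeddingLike.map_eq_zero_iff]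
  obtain ⟨b, S, y, hS, h1⟩ := elim_step
    (aeval (Fin.cons h w : Fin (m + 1) → A) : MvPolynomial (Fin (m + 1)) k →ₐ[k] A).toRingHom
    π _ hP'
  rw [h1] at h0
  have h2 := (mul_eq_zero.1 h0).resolve_left (pow_ne_zero _ hπ.ne_zero)
  have h3 : aeval (Fin.cons h w : Fin (m + 1) → A) S = -(π * y) := eq_neg_of_add_eq_zero_left h2
  rw [elim_cons] at h3
  have hS' : finSuccEquiv k m S ≠ 0 := by
    rwa [Ne, EmbeddingLike.map_eq_zero_iff]
  obtain ⟨c, R, z, hR, h4⟩ := elim_step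
    (aeval w : MvPolynomial (Fin m) k →ₐ[k] A).toRingHom h _ hS'
  rw [h4] at h3
  have h5 : π ∣ h ^ c * (aeval w R + h * z) := by
    refine ⟨-y, ?_⟩
    rw [mul_neg]
    exact h3
  obtain ⟨x, hx⟩ := (hπ.dvd_or_dvd h5).resolve_left fun hd => hh (hπ.dvd_of_dvd_pow hd)
  exact ⟨R, hR, x, -z, by linear_combination hx⟩

end elim

section dep

variable {k : Type} [Field k] (t : k)

private theorem aeval_mkX (p : MvPolynomial (Fin 4) k) :
    aeval (fun i : Fin 4 => (Ideal.Quotient.mk (Ideal.span {gAff t}) (X i) : Raff t)) p =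
      Ideal.Quotient.mk (Ideal.span {gAff t}) p := by
  have h : (aeval (fun i : Fin 4 => (Ideal.Quotient.mk (Ideal.span {gAff t}) (X i) : Raff t)) :
      MvPolynomial (Fin 4) k →ₐ[k] Raff t) = Ideal.Quotient.mkₐ k (Ideal.span {gAff t}) := by
    apply MvPolynomial.algHom_ext
    intro i
    rw [aeval_X]
    rfl
  rw [h]
  rfl

private theorem map_gAff {A : Type} [CommRing A] (f : MvPolynomial (Fin 4) k →+* A) :
    f (gAff t) = f (X 3) ^ 2 + f (X 2) ^ 3 + f (C t) * f (X 1) ^ 11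
      + f (X 0) * f (X 1) ^ 10 + f (X 0) ^ 12 * f (X 1) - 1 - f (X 1) ^ 9 := by
  unfold gAff
  simp only [map_add, map_sub, map_mul, map_pow, map_one]

private theorem int_y : IsIntegral
    (Algebra.adjoin k (Set.range fun i : Fin 3 =>
      (Ideal.Quotient.mk (Ideal.span {gAff t}) (X i.castSucc) : Raff t)))
    (Ideal.Quotient.mk (Ideal.span {gAff t}) (X 3) : Raff t) := by
  have hX : ∀ i : Fin 3, (Ideal.Quotient.mk (Ideal.span {gAff t}) (X i.castSucc) : Raff t) ∈
      Algebra.adjoin k (Set.range fun i : Fin 3 =>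
        (Ideal.Quotient.mk (Ideal.span {gAff t}) (X i.castSucc) : Raff t)) := fun i =>
    Algebra.subset_adjoin ⟨i, rfl⟩
  have h0 : (Ideal.Quotient.mk (Ideal.span {gAff t}) (gAff t) : Raff t) = 0 :=
    Ideal.Quotient.eq_zero_iff_mem.2 (Ideal.mem_span_singleton_self _)
  have hX0 := hX 0
  have hX1 := hX 1
  have hX2 := hX 2
  have e0 : (Fin.castSucc (0 : Fin 3)) = (0 : Fin 4) := rfl
  have e1 : (Fin.castSucc (1 : Fin 3)) = (1 : Fin 4) := rfl
  have e2 : (Fin.castSucc (2 : Fin 3)) = (2 : Fin 4) := rfl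
  rw [e0] at hX0
  rw [e1] at hX1
  rw [e2] at hX2
  have hC : (Ideal.Quotient.mk (Ideal.span {gAff t}) (C t) : Raff t) ∈
      Algebra.adjoin k (Set.range fun i : Fin 3 =>
        (Ideal.Quotient.mk (Ideal.span {gAff t}) (X i.castSucc) : Raff t)) :=
    Subalgebra.algebraMap_mem _ t
  rw [map_gAff] at h0
  set S := Algebra.adjoin k (Set.range fun i : Fin 3 =>
        (Ideal.Quotient.mk (Ideal.span {gAff t}) (X i.castSucc) : Raff t)) with hS
  set a := (Ideal.Quotient.mk (Ideal.span {gAff t}) (X 0) : Raff t) with ha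
  set b := (Ideal.Quotient.mk (Ideal.span {gAff t}) (X 1) : Raff t) with hb
  set c := (Ideal.Quotient.mk (Ideal.span {gAff t}) (X 2) : Raff t) with hc
  set y := (Ideal.Quotient.mk (Ideal.span {gAff t}) (X 3) : Raff t) with hy
  set τ := (Ideal.Quotient.mk (Ideal.span {gAff t}) (C t) : Raff t) with hτ
  have hm : -(c ^ 3 + τ * b ^ 11 + a * b ^ 10 + a ^ 12 * b - 1 - b ^ 9) ∈ S :=
    neg_mem (sub_mem (sub_mem (add_mem (add_mem (add_mem (pow_mem hX2 _)
      (mul_mem hC (pow_mem hX1 _))) (mul_mem hX0 (pow_mem hX1 _))) (mul_mem (pow_mem hX0 _) hX1))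
      (one_mem _)) (pow_mem hX1 _))
  have h1 : y ^ 2 = -(c ^ 3 + τ * b ^ 11 + a * b ^ 10 + a ^ 12 * b - 1 - b ^ 9) := by
    linear_combination h0
  refine IsIntegral.of_pow (n := 2) (by norm_num) ?_
  rw [h1]
  exact isIntegral_algebraMap (x := (⟨_, hm⟩ : S))

private theorem alg_R [IsDomain (Raff t)] : Algebra.IsAlgebraic
    (Algebra.adjoin k (Set.range fun i : Fin 3 =>
      (Ideal.Quotient.mk (Ideal.span {gAff t}) (X i.castSucc) : Raff t))) (Raff t) := by
  have hX : ∀ j : Fin 4, IsIntegral (Algebra.adjoin k (Set.range fun i : Fin 3 =>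
      (Ideal.Quotient.mk (Ideal.span {gAff t}) (X i.castSucc) : Raff t)))
      (Ideal.Quotient.mk (Ideal.span {gAff t}) (X j) : Raff t) := by
    intro j
    refine Fin.lastCases (int_y t) (fun i => ?_) j
    exact isIntegral_algebraMap
      (x := (⟨_, Algebra.subset_adjoin ⟨i, rfl⟩⟩ : Algebra.adjoin k (Set.range fun i : Fin 3 =>
      (Ideal.Quotient.mk (Ideal.span {gAff t}) (X i.castSucc) : Raff t))))
  constructor
  intro x
  obtain ⟨P, rfl⟩ := Ideal.Quotient.mk_surjective x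
  refine IsIntegral.isAlgebraic ?_
  induction P using MvPolynomial.induction_on with
  | C c =>
    exact isIntegral_algebraMap
      (x := algebraMap k (Algebra.adjoin k (Set.range fun i : Fin 3 =>
      (Ideal.Quotient.mk (Ideal.span {gAff t}) (X i.castSucc) : Raff t))) c)
  | add p q hp hq => rw [map_add]; exact hp.add hq
  | mul_X p i hp => rw [map_mul]; exact hp.mul (hX i)

private theorem alg_dep [IsDomain (Raff t)] (w : Fin 4 → Raff t) :
    ∃ P : MvPolynomial (Fin 4) k, P ≠ 0 ∧ aeval w P = 0 := by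
  by_contra hcon
  push Not at hcon
  have hw' : AlgebraicIndependent k w := by
    rw [algebraicIndependent_iff]
    intro p hp
    by_contra hp0
    exact hcon p hp0 hp
  have h1 := hw'.cardinalMk_le_trdeg
  have := alg_R t
  have h2 : Algebra.trdeg k (Raff t) ≤ Cardinal.mk (Set.range fun i : Fin 3 =>
      (Ideal.Quotient.mk (Ideal.span {gAff t}) (X i.castSucc) : Raff t)) := by
    exact Algebra.IsAlgebraic.trdeg_le_cardinalMk k _
  have h3 : Cardinal.mk (Set.range fun i : Fin 3 =>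
      (Ideal.Quotient.mk (Ideal.span {gAff t}) (X i.castSucc) : Raff t)) ≤
      Cardinal.mk (Fin 3) := Cardinal.mk_range_le
  have h4 := h1.trans (h2.trans h3)
  rw [Cardinal.mk_fin, Cardinal.mk_fin, Nat.cast_le] at h4
  omega

/-- Dehomogenisation. -/
private noncomputable def deh (P : MvPolynomial (Fin 5) k) : MvPolynomial (Fin 4) k :=
  aeval (Fin.cons 1 X : Fin 5 → MvPolynomial (Fin 4) k) P

private theorem deh_gH : deh (gH t) = gAff t := by
  unfold deh gH gAff
  simp only [map_add, map_sub, map_mul, map_pow, aeval_X, aeval_C]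
  have e0 : (Fin.cons 1 X : Fin 5 → MvPolynomial (Fin 4) k) 0 = 1 := rfl
  have e1 : (Fin.cons 1 X : Fin 5 → MvPolynomial (Fin 4) k) 1 = X 0 := rfl
  have e2 : (Fin.cons 1 X : Fin 5 → MvPolynomial (Fin 4) k) 2 = X 1 := rfl
  have e3 : (Fin.cons 1 X : Fin 5 → MvPolynomial (Fin 4) k) 3 = X 2 := rfl
  have e4 : (Fin.cons 1 X : Fin 5 → MvPolynomial (Fin 4) k) 4 = X 3 := rfl
  rw [e0, e1, e2, e3, e4, algebraMap_eq]
  ring

/-- Homogenisation. -/
private theorem homog {m : ℕ} (s : Fin m → Fin 4) (R : MvPolynomial (Fin m) k) :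
    ∃ d0 : ℕ, ∀ d, d0 ≤ d → ∃ P : MvPolynomial (Fin 5) k, IsWeightedHomogeneous w5 P d ∧
      (∀ l : Fin 4, (∀ a, s a ≠ l) → pderiv l.succ P = 0) ∧ deh P = rename s R := by
  have hX : ∀ i : Fin 5, IsWeightedHomogeneous w5 (X i : MvPolynomial (Fin 5) k) (w5 i) := fun i =>
    isWeightedHomogeneous_X k w5 i
  induction R using MvPolynomial.induction_on with
  | C c =>
    refine ⟨0, fun d _ => ⟨C c * X 0 ^ d, ?_, ?_, ?_⟩⟩
    · have h := (isWeightedHomogeneous_C w5 c).mul ((hX 0).pow d)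
      have e : 0 + d • w5 0 = d := by
        simp [w5]
      rwa [e] at h
    · intro l _
      rw [Derivation.leibniz, Derivation.leibniz_pow, pderiv_C, pderiv_X_of_ne (Fin.succ_ne_zero l).symm]
      simp
    · unfold deh
      rw [map_mul, map_pow, aeval_X, aeval_C, Fin.cons_zero, one_pow, mul_one, rename_C, algebraMap_eq]
  | add p q hp hq =>
    obtain ⟨d1, h1⟩ := hp
    obtain ⟨d2, h2⟩ := hq
    refine ⟨max d1 d2, fun d hd => ?_⟩
    obtain ⟨P, p1, p2, p3⟩ := h1 d (le_trans (le_max_left _ _) hd)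
    obtain ⟨Q, q1, q2, q3⟩ := h2 d (le_trans (le_max_right _ _) hd)
    refine ⟨P + Q, p1.add q1, fun l hl => ?_, ?_⟩
    · rw [map_add, p2 l hl, q2 l hl, add_zero]
    · unfold deh at p3 q3 ⊢
      rw [map_add, p3, q3, map_add]
  | mul_X p i hp =>
    obtain ⟨d1, h1⟩ := hp
    refine ⟨d1 + w5 (s i).succ, fun d hd => ?_⟩
    obtain ⟨P, p1, p2, p3⟩ := h1 (d - w5 (s i).succ) (by omega)
    refine ⟨P * X (s i).succ, ?_, fun l hl => ?_, ?_⟩
    · have h := p1.mul (hX (s i).succ)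
      have e : d - w5 (s i).succ + w5 (s i).succ = d := by omega
      rwa [e] at h
    · have hne : (s i).succ ≠ l.succ := fun h => hl i (Fin.succ_injective _ h)
      rw [Derivation.leibniz, p2 l hl, pderiv_X_of_ne hne]
      simp
    · unfold deh at p3 ⊢
      rw [map_mul, p3, aeval_X, Fin.cons_succ, map_mul, rename_X]

end dep

namespace KPt

variable {k E : Type} [Field k] [CharZero k] [Field E] [Algebra k E] (D : KPt k E)

/-- The affine value. -/
noncomputable def eva (p : MvPolynomial (Fin 4) k) : E := aeval (fun i : Fin 4 => D.pt i.succ) p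

private theorem ev_deh (P : MvPolynomial (Fin 5) k) : D.ev P = D.eva (deh P) := by
  unfold ev eva deh
  induction P using MvPolynomial.induction_on with
  | C c => rw [aeval_C, aeval_C, AlgHom.commutes]
  | add p q hp hq => rw [map_add, map_add, map_add, hp, hq]
  | mul_X p i hp =>
    rw [map_mul, map_mul, map_mul, hp, aeval_X, aeval_X]
    congr 1
    refine Fin.cases ?_ (fun j => ?_) i
    · rw [Fin.cons_zero, map_one, D.pt0]
    · rw [Fin.cons_succ, aeval_X]

private theorem eva_gAff : D.eva (gAff D.t) = 0 := by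
  rw [← deh_gH, ← ev_deh, D.ev_gH]

/-- The value on the affine ring. -/
private noncomputable def phi : Raff D.t →+* E :=
  Ideal.Quotient.lift _ (aeval (fun i : Fin 4 => D.pt i.succ) :
    MvPolynomial (Fin 4) k →ₐ[k] E).toRingHom (by
      intro a ha
      obtain ⟨b, rfl⟩ := Ideal.mem_span_singleton'.1 ha
      have h := D.eva_gAff
      unfold eva at h
      rw [map_mul]
      have h' : (aeval (fun i : Fin 4 => D.pt i.succ) : MvPolynomial (Fin 4) k →ₐ[k] E).toRingHom
        (gAff D.t) = 0 := h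
      rw [h', mul_zero])

private theorem phi_mk (p : MvPolynomial (Fin 4) k) :
    D.phi (Ideal.Quotient.mk (Ideal.span {gAff D.t}) p) = D.eva p := by
  unfold phi eva
  rw [Ideal.Quotient.lift_mk]
  rfl

private theorem phi_inj (r : Raff D.t) (h : D.phi r = 0) : r = 0 := by
  obtain ⟨p, rfl⟩ := Ideal.Quotient.mk_surjective r
  rw [phi_mk] at h
  obtain ⟨d, hd⟩ := homog (id : Fin 4 → Fin 4) p
  obtain ⟨P, h1, -, h3⟩ := hd d le_rfl
  rw [rename_id_apply] at h3
  rw [← h3, ← ev_deh] at h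
  have h4 : gH D.t ∣ P := by
    by_contra hcon
    exact D.ev_ne h1 hcon h
  obtain ⟨Q, rfl⟩ := h4
  rw [← h3]
  apply Ideal.Quotient.eq_zero_iff_mem.2
  unfold deh
  rw [map_mul]
  have h5 := deh_gH D.t
  unfold deh at h5
  rw [h5]
  exact Ideal.mul_mem_right _ _ (Ideal.mem_span_singleton_self _)

private theorem phi_nonneg (h0 : D.w 0 = 0) (r : Raff D.t) (hr : r ≠ 0) : 0 ≤ D.v (D.phi r) := by
  have hμ : D.μ = 0 := by
    have := D.w_zero
    rw [h0] at this
    linarith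
  have hne : D.phi r ≠ 0 := fun h => hr (D.phi_inj r h)
  obtain ⟨p, rfl⟩ := Ideal.Quotient.mk_surjective r
  rw [phi_mk] at hne ⊢
  obtain ⟨d, hd⟩ := homog (id : Fin 4 → Fin 4) p
  obtain ⟨P, h1, -, h3⟩ := hd d le_rfl
  rw [rename_id_apply] at h3
  rw [← h3, ← ev_deh] at hne ⊢
  have h := D.vh_nonneg h1 hne
  unfold vh at h
  rw [hμ, mul_zero, sub_zero] at h
  exact_mod_cast h

/-- A prime element of positive value. -/
private theorem exists_prime [IsDomain (Raff D.t)] [UniqueFactorizationMonoid (Raff D.t)]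
    (h0 : D.w 0 = 0) (r : Raff D.t) : r ≠ 0 → 0 < D.v (D.phi r) →
      ∃ π : Raff D.t, Prime π ∧ 0 < D.v (D.phi π) := by
  induction r using UniqueFactorizationMonoid.induction_on_prime with
  | h₁ => exact fun h => absurd rfl h
  | h₂ x hx =>
    intro hx0 hv
    exfalso
    obtain ⟨u, rfl⟩ := hx
    have h1 := D.phi_nonneg h0 (↑u⁻¹ : Raff D.t) (Units.ne_zero _)
    have h2 : D.phi (u : Raff D.t) * D.phi (↑u⁻¹ : Raff D.t) = 1 := by
      rw [← map_mul, Units.mul_inv, map_one]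
    have h3 := D.mul (D.phi (u : Raff D.t)) (D.phi (↑u⁻¹ : Raff D.t)) (left_ne_zero_of_mul (by rw [h2]; exact one_ne_zero))
      (right_ne_zero_of_mul (by rw [h2]; exact one_ne_zero))
    rw [h2, D.one] at h3
    omega
  | h₃ a p ha hp ih =>
    intro _ hv
    by_cases hp0 : 0 < D.v (D.phi p)
    · exact ⟨p, hp, hp0⟩
    refine ih ha ?_
    have h1 : D.phi p ≠ 0 := fun h => hp.ne_zero (D.phi_inj p h)
    have h2 : D.phi a ≠ 0 := fun h => ha (D.phi_inj a h)
    rw [map_mul, D.mul _ _ h1 h2] at hv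
    omega

/-- Elements of the two-variable rings with positive value. -/
private theorem two_var [IsDomain (Raff D.t)] (h0 : D.w 0 = 0) {π h : Raff D.t} (hπ : Prime π)
    (hπv : 0 < D.v (D.phi π)) (hh : ¬ π ∣ h) (hhv : 0 < D.v (D.phi h)) (s : Fin 2 → Fin 4)
    (hs : Function.Injective s) (l0 : Fin 4) (hl0 : ∀ a, s a ≠ l0) :
    ∃ (d : ℕ) (Q : MvPolynomial (Fin 5) k), Q ≠ 0 ∧ IsWeightedHomogeneous w5 Q d ∧
      (∀ l : Fin 4, (∀ a, s a ≠ l) → pderiv l.succ Q = 0) ∧ 0 < D.vh d Q := by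
  have hμ : D.μ = 0 := by
    have := D.w_zero
    rw [h0] at this
    linarith
  obtain ⟨P, hP, hP0⟩ := alg_dep D.t (Fin.cons π (Fin.cons h (fun a : Fin 2 =>
    (Ideal.Quotient.mk (Ideal.span {gAff D.t}) (X (s a)) : Raff D.t)) : Fin 3 → Raff D.t) :
      Fin 4 → Raff D.t)
  obtain ⟨R, hR, x, y, hxy⟩ := elim π h hπ hh (m := 2) _ P hP hP0
  obtain ⟨d, hd⟩ := homog s R
  obtain ⟨Q, h1, h2, h3⟩ := hd d le_rfl
  have hQ : Q ≠ 0 := by
    rintro rfl
    unfold deh at h3
    rw [map_zero] at h3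
    exact hR (rename_injective s hs (by rw [← h3, map_zero]))
  have hev : D.ev Q ≠ 0 := D.ev_ne_free h1 hQ l0.succ (h2 l0 hl0)
  refine ⟨d, Q, hQ, h1, h2, ?_⟩
  have h4 : D.ev Q = D.phi x * D.phi π + D.phi y * D.phi h := by
    rw [← map_mul, ← map_mul, ← map_add, ← hxy, ev_deh, h3]
    have h5 : aeval (fun a : Fin 2 =>
        (Ideal.Quotient.mk (Ideal.span {gAff D.t}) (X (s a)) : Raff D.t)) R =
        Ideal.Quotient.mk (Ideal.span {gAff D.t}) (rename s R) := by
      rw [← aeval_mkX, aeval_rename]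
      rfl
    rw [h5, phi_mk]
  have hge : ∀ z : Raff D.t, D.phi z = 0 ∨ 0 ≤ D.v (D.phi z) := by
    intro z
    by_cases hz : z = 0
    · left; rw [hz, map_zero]
    · right; exact D.phi_nonneg h0 z hz
  have h6 := D.add_ge (c := 1) (D.mul_ge (c := 0) (c' := 1) (hge x) (Or.inr hπv))
    (D.mul_ge (c := 0) (c' := 1) (hge y) (Or.inr hhv))
  rw [← h4] at h6
  have h7 := h6.resolve_left hev
  unfold vh
  rw [hμ, mul_zero, sub_zero]
  exact_mod_cast h7

theorem cen3 [IsDomain (Raff D.t)] [UniqueFactorizationMonoid (Raff D.t)] (h4 : D.w 4 = 0)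
    (h0 : D.w 0 = 0) :
    2 ≤ D.A ∨ ∃ π : Raff D.t, ¬ IsUnit π ∧ ∀ p : MvPolynomial (Fin 4) k,
      0 < D.v (D.eva p) → π ∣ Ideal.Quotient.mk _ p := by
  have hμ : D.μ = 0 := by
    have := D.w_zero
    rw [h0] at this
    linarith
  by_cases hA : ∃ p : MvPolynomial (Fin 4) k, 0 < D.v (D.eva p)
  swap
  · right
    refine ⟨0, not_isUnit_zero, fun p hp => absurd ⟨p, hp⟩ hA⟩
  obtain ⟨p, hp⟩ := hA
  rw [← phi_mk] at hp
  have hp0 : (Ideal.Quotient.mk (Ideal.span {gAff D.t}) p : Raff D.t) ≠ 0 := by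
    intro h
    rw [h, map_zero, D.zero] at hp
    exact lt_irrefl _ hp
  obtain ⟨π, hπ, hπv⟩ := D.exists_prime h0 _ hp0 hp
  by_cases hB : ∀ q : MvPolynomial (Fin 4) k, 0 < D.v (D.eva q) → π ∣ Ideal.Quotient.mk _ q
  · exact Or.inr ⟨π, hπ.not_isUnit, hB⟩
  left
  push Not at hB
  obtain ⟨q, hqv, hq⟩ := hB
  rw [← phi_mk] at hqv
  have tv := D.two_var h0 hπ hπv hq hqv
  -- the first polynomial
  obtain ⟨d1, G1, g10, g11, g12, g13, g14, l, g15, g16⟩ := D.exists_min {4} ⟨4, rfl⟩ (by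
    obtain ⟨d, Q, h1, h2, h3, h5⟩ := tv ![0, 1] (by decide) 3 (by decide)
    exact ⟨d, Q, h1, h2, fun j hj => by
      rw [Set.mem_singleton_iff.1 hj]
      exact h3 3 (by decide), h5⟩)
  have hl0 : l ≠ 0 := g16 h0
  have hl4 : l ≠ 4 := by
    rintro rfl
    exact g15 (g12 4 rfl)
  have hT : ∃ (d : ℕ) (Q : MvPolynomial (Fin 5) k), Q ≠ 0 ∧ IsWeightedHomogeneous w5 Q d ∧
      (∀ j ∈ ({4, l} : Set (Fin 5)), pderiv j Q = 0) ∧ 0 < D.vh d Q := by
    have hl : l = 1 ∨ l = 2 ∨ l = 3 := by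
      revert hl0 hl4
      clear g14 g15 g16
      revert l
      decide
    rcases hl with rfl | rfl | rfl
    · obtain ⟨d, Q, h1, h2, h3, h5⟩ := tv ![1, 2] (by decide) 3 (by decide)
      refine ⟨d, Q, h1, h2, fun j hj => ?_, h5⟩
      rcases hj with rfl | hj
      · exact h3 3 (by decide)
      · rw [Set.mem_singleton_iff.1 hj]
        exact h3 0 (by decide)
    · obtain ⟨d, Q, h1, h2, h3, h5⟩ := tv ![0, 2] (by decide) 3 (by decide)
      refine ⟨d, Q, h1, h2, fun j hj => ?_, h5⟩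
      rcases hj with rfl | hj
      · exact h3 3 (by decide)
      · rw [Set.mem_singleton_iff.1 hj]
        exact h3 1 (by decide)
    · obtain ⟨d, Q, h1, h2, h3, h5⟩ := tv ![0, 1] (by decide) 3 (by decide)
      refine ⟨d, Q, h1, h2, fun j hj => ?_, h5⟩
      rcases hj with rfl | hj
      · exact h3 3 (by decide)
      · rw [Set.mem_singleton_iff.1 hj]
        exact h3 2 (by decide)
  obtain ⟨d2, G2, g20, g21, g22, g23, g24, l', g25, g26⟩ := D.exists_min {4, l} ⟨4, Or.inl rfl⟩ hT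
  have hl0' : l' ≠ 0 := g26 h0
  have hl4' : l' ≠ 4 := by
    rintro rfl
    exact g25 (g22 4 (Or.inl rfl))
  have hll' : l ≠ l' := by
    rintro rfl
    exact g25 (g22 l (Or.inr rfl))
  obtain ⟨e1, he1, hv1⟩ := g14 l g15
  obtain ⟨e2, he2, hv2⟩ := g24 l' g25
  have key := D.star2 4 l l' hl4.symm hl4'.symm hll' D.vγ_four.1 g11 g21 (g12 4 rfl)
    (g22 4 (Or.inl rfl)) (g22 l (Or.inr rfl)) g15 g25 he1 he2
  rw [hv1, hv2, D.vγ_four.2, h4] at key
  have hs : 0 ≤ ∑ i ∈ ((Finset.univ.erase (4 : Fin 5)).erase l).erase l', D.w i :=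
    Finset.sum_nonneg fun i _ => D.w_nonneg i
  have i1 : 1 ≤ D.vh d1 G1 := by
    unfold vh at g13 ⊢
    rw [hμ, mul_zero, sub_zero] at g13 ⊢
    have : 0 < D.v (D.ev G1) := by exact_mod_cast g13
    exact_mod_cast this
  have i2 : 1 ≤ D.vh d2 G2 := by
    unfold vh at g23 ⊢
    rw [hμ, mul_zero, sub_zero] at g23 ⊢
    have : 0 < D.v (D.ev G2) := by exact_mod_cast g23
    exact_mod_cast this
  linarith

end KPt

end Pool.Agent.KO
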