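import Pool.Agent.KO.Key.NF

/-! # Project KO, block KEY: divisibility and norms in polynomial rings -/

set_option autoImplicit false

namespace Pool.Agent.KO

open MvPolynomial

variable {σ k : Type} [Field k] [CharZero k]

set_option linter.unusedSectionVars false

private theorem cubn_deg_zero {Q : MvPolynomial σ k} {j : σ} (h : pderiv j Q = 0) :
    degreeOf j Q = 0 := by
  rw [degreeOf_eq_sup]
  exact Nat.le_zero.1 (Finset.sup_le fun n hn => ((pderiv_eq_zero_iff Q j).1 h n hn).le)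

/-- A polynomial free of `X j` is not a multiple of a polynomial of positive degree in `X j`. -/
theorem not_dvd_of_free (g Q : MvPolynomial σ k) (hQ : Q ≠ 0) (j : σ) (hj : pderiv j Q = 0)
    (hg : pderiv j g ≠ 0) : ¬ g ∣ Q := by
  rintro ⟨h, rfl⟩
  have h1 := left_ne_zero_of_mul hQ
  have h2 := right_ne_zero_of_mul hQ
  have h3 := cubn_deg_zero hj
  rw [degreeOf_mul_eq h1 h2] at h3
  refine hg ((pderiv_eq_zero_iff g j).2 fun n hn => ?_)
  have h4 : n j ≤ degreeOf j g := by
    rw [degreeOf_eq_sup]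
    exact Finset.le_sup (f := fun n : σ →₀ ℕ => n j) hn
  omega

/-- The quadratic norm does not vanish. -/
theorem quad_ne (a b c : MvPolynomial σ k) (j : σ) (hc : degreeOf j c % 2 = 1)
    (h : a ≠ 0 ∨ b ≠ 0) : a ^ 2 + b ^ 2 * c ≠ 0 := by
  intro h0
  have hc0 : c ≠ 0 := by
    rintro rfl
    rw [degreeOf_zero] at hc
    omega
  by_cases hb : b = 0
  · subst hb
    have ha := h.resolve_right (fun h => h rfl)
    apply pow_ne_zero 2 ha
    rw [← h0]
    ring
  have h1 : a ^ 2 = -(b ^ 2 * c) := eq_neg_of_add_eq_zero_left h0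
  have ha : a ≠ 0 := by
    rintro rfl
    have h2 : b ^ 2 * c = 0 := by
      rw [← h0]
      ring
    exact mul_ne_zero (pow_ne_zero 2 hb) hc0 h2
  have h2 := congrArg (degreeOf j) h1
  rw [degreeOf_neg, degreeOf_pow_eq _ _ _ ha, degreeOf_mul_eq (pow_ne_zero 2 hb) hc0,
    degreeOf_pow_eq _ _ _ hb] at h2
  omega

private theorem cubn_two {p q : MvPolynomial σ k} (h : p + q = 0) (j : σ) :
    degreeOf j p = degreeOf j q := by
  rw [eq_neg_of_add_eq_zero_left h, degreeOf_neg]

private theorem cubn_three {p q r s : MvPolynomial σ k} (h : p + q + r = s) (j : σ)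
    (h1 : degreeOf j q < degreeOf j p) (h2 : degreeOf j r < degreeOf j p)
    (h3 : degreeOf j s < degreeOf j p) : False := by
  have h4 : degreeOf j (q + r) < degreeOf j p := by
    have := degreeOf_add_le j q r
    omega
  have h5 := degreeOf_add_eq_of_degreeOf_lt h4
  rw [← add_assoc, h] at h5
  omega

/-- The cubic norm does not vanish. -/
theorem cub_ne (a b e c : MvPolynomial σ k) (j : σ) (hc : degreeOf j c % 3 ≠ 0)
    (h : a ≠ 0 ∨ b ≠ 0 ∨ e ≠ 0) :
    a ^ 3 + b ^ 3 * c + e ^ 3 * c ^ 2 - 3 * a * b * e * c ≠ 0 := by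
  intro h0
  have hc0 : c ≠ 0 := by
    rintro rfl
    rw [degreeOf_zero] at hc
    omega
  have da : a ≠ 0 → degreeOf j (a ^ 3) = 3 * degreeOf j a := fun h => degreeOf_pow_eq _ _ _ h
  have db : b ≠ 0 → degreeOf j (b ^ 3 * c) = 3 * degreeOf j b + degreeOf j c := fun h => by
    rw [degreeOf_mul_eq (pow_ne_zero 3 h) hc0, degreeOf_pow_eq _ _ _ h]
  have de : e ≠ 0 → degreeOf j (e ^ 3 * c ^ 2) = 3 * degreeOf j e + 2 * degreeOf j c :=
    fun h => by
    rw [degreeOf_mul_eq (pow_ne_zero 3 h) (pow_ne_zero 2 hc0), degreeOf_pow_eq _ _ _ h,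
      degreeOf_pow_eq _ _ _ hc0]
  by_cases ha : a = 0
  · subst ha
    have h1 : b ^ 3 * c + e ^ 3 * c ^ 2 = 0 := by
      rw [← h0]
      ring
    by_cases hb : b = 0
    · subst hb
      by_cases he : e = 0
      · subst he
        simp at h
      · apply mul_ne_zero (pow_ne_zero 3 he) (pow_ne_zero 2 hc0)
        rw [← h1]
        ring
    by_cases he : e = 0
    · subst he
      apply mul_ne_zero (pow_ne_zero 3 hb) hc0
      rw [← h1]
      ring
    have h2 := cubn_two h1 j
    rw [db hb, de he] at h2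
    omega
  by_cases hb : b = 0
  · subst hb
    have h1 : a ^ 3 + e ^ 3 * c ^ 2 = 0 := by
      rw [← h0]
      ring
    by_cases he : e = 0
    · subst he
      apply pow_ne_zero 3 ha
      rw [← h1]
      ring
    have h2 := cubn_two h1 j
    rw [da ha, de he] at h2
    omega
  by_cases he : e = 0
  · subst he
    have h1 : a ^ 3 + b ^ 3 * c = 0 := by
      rw [← h0]
      ring
    have h2 := cubn_two h1 j
    rw [da ha, db hb] at h2
    omega
  have h1 : a ^ 3 + b ^ 3 * c + e ^ 3 * c ^ 2 = C 3 * (a * b * e * c) := by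
    rw [← sub_eq_zero, ← h0, map_ofNat]
    ring
  have h2 : degreeOf j (C 3 * (a * b * e * c)) ≤
      degreeOf j a + degreeOf j b + degreeOf j e + degreeOf j c := by
    refine (degreeOf_C_mul_le _ _ _).trans ?_
    rw [degreeOf_mul_eq (mul_ne_zero (mul_ne_zero ha hb) he) hc0,
      degreeOf_mul_eq (mul_ne_zero ha hb) he, degreeOf_mul_eq ha hb]
  have d1 := da ha
  have d2 := db hb
  have d3 := de he
  have h3 : b ^ 3 * c + a ^ 3 + e ^ 3 * c ^ 2 = C 3 * (a * b * e * c) := by
    rw [← h1]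
    ring
  have h4 : e ^ 3 * c ^ 2 + a ^ 3 + b ^ 3 * c = C 3 * (a * b * e * c) := by
    rw [← h1]
    ring
  have n1 : degreeOf j (a ^ 3) ≠ degreeOf j (b ^ 3 * c) := by omega
  have n2 : degreeOf j (a ^ 3) ≠ degreeOf j (e ^ 3 * c ^ 2) := by omega
  have n3 : degreeOf j (b ^ 3 * c) ≠ degreeOf j (e ^ 3 * c ^ 2) := by omega
  by_cases c1 : degreeOf j (b ^ 3 * c) < degreeOf j (a ^ 3) ∧
      degreeOf j (e ^ 3 * c ^ 2) < degreeOf j (a ^ 3)
  · exact cubn_three h1 j c1.1 c1.2 (by omega)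
  by_cases c2 : degreeOf j (a ^ 3) < degreeOf j (b ^ 3 * c) ∧
      degreeOf j (e ^ 3 * c ^ 2) < degreeOf j (b ^ 3 * c)
  · exact cubn_three h3 j c2.1 c2.2 (by omega)
  exact cubn_three h4 j (by omega) (by omega) (by omega)

end Pool.Agent.KO
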