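import Pool.Agent.KO.Key.Jac
import Pool.Agent.KO.Key.CubN

/-! # Project KO, block KEY: values of homogeneous polynomials -/

set_option autoImplicit false

namespace Pool.Agent.KO

open MvPolynomial

variable {k : Type} [Field k] [CharZero k]

private theorem pd4 (t : k) : pderiv (4 : Fin 5) (gH t) = 2 * X 4 := by
  unfold gH
  simp [pderiv_X, Derivation.leibniz_pow]

private theorem pd3 (t : k) : pderiv (3 : Fin 5) (gH t) = 3 * X 3 ^ 2 := by
  unfold gH
  simp [pderiv_X, Derivation.leibniz_pow]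

theorem pderiv_gH_ne (t : k) (j : Fin 5) : pderiv j (gH t) ≠ 0 := by
  intro h
  fin_cases j
  · have h1 := congrArg (eval (![1, 0, 0, 0, 0] : Fin 5 → k)) h
    simp [gH, pderiv_X, Derivation.leibniz_pow] at h1
  · have h1 := congrArg (eval (![0, 1, 1, 0, 0] : Fin 5 → k)) h
    simp [gH, pderiv_X, Derivation.leibniz_pow] at h1
  · have h1 := congrArg (eval (![0, 1, 0, 0, 0] : Fin 5 → k)) h
    simp [gH, pderiv_X, Derivation.leibniz_pow] at h1
  · have h1 := congrArg (eval (![0, 0, 0, 1, 0] : Fin 5 → k)) h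
    simp [gH, pderiv_X, Derivation.leibniz_pow] at h1
  · have h1 := congrArg (eval (![0, 0, 0, 0, 1] : Fin 5 → k)) h
    simp [gH, pderiv_X, Derivation.leibniz_pow] at h1

theorem not_gH_dvd (t : k) {Q : MvPolynomial (Fin 5) k} (hQ : Q ≠ 0) (j : Fin 5)
    (hj : pderiv j Q = 0) : ¬ gH t ∣ Q :=
  not_dvd_of_free _ Q hQ j hj (pderiv_gH_ne t j)

/-- The equation without `y ^ 2`. -/
private noncomputable def cH (t : k) : MvPolynomial (Fin 5) k := gH t - X 4 ^ 2

private theorem cH_pd (t : k) : pderiv (4 : Fin 5) (cH t) = 0 := by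
  rw [cH, map_sub, pd4]
  simp [pderiv_X, Derivation.leibniz_pow]

private theorem cH_wh (t : k) : IsWeightedHomogeneous w5 (cH t) (2 * w5 4) := by
  have h1 : 2 * w5 4 = 66 := rfl
  rw [h1]
  have h2 := (isWeightedHomogeneous_X k w5 (4 : Fin 5)).pow 2
  exact (isWH_gH t).sub h2

private theorem cH_deg (t : k) : degreeOf (3 : Fin 5) (cH t) = 3 := by
  set r : MvPolynomial (Fin 5) k := cH t - X 3 ^ 3 with hr
  have h1 : pderiv (3 : Fin 5) r = 0 := by
    rw [hr, cH, map_sub, map_sub, pd3]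
    simp [pderiv_X, Derivation.leibniz_pow]
  have h2 := (pderiv_eq_zero_iff r (3 : Fin 5)).1 h1
  have h3 : cH t = X 3 ^ 3 + r := by rw [hr]; ring
  have h4 : degreeOf (3 : Fin 5) r = 0 := by
    rw [degreeOf_eq_sup]
    refine (Finset.sup_eq_bot_iff _ _).2 fun n hn => ?_
    rw [h2 n hn]
    rfl
  apply le_antisymm
  · rw [h3]
    refine (degreeOf_add_le _ _ _).trans ?_
    rw [h4, max_eq_left (Nat.zero_le _)]
    refine (degreeOf_pow_le _ _ _).trans ?_
    rw [degreeOf_X]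
    simp
  · have h5 : Finsupp.single (3 : Fin 5) 3 ∈ (cH t).support := by
      rw [mem_support_iff, h3, coeff_add]
      have h6 : coeff (Finsupp.single (3 : Fin 5) 3) r = 0 := by
        by_contra h7
        have h8 := h2 _ (mem_support_iff.2 h7)
        simp at h8
      rw [h6, coeff_X_pow]
      simp
    have h9 := monomial_le_degreeOf (3 : Fin 5) h5
    simpa using h9

namespace KPt

variable {E : Type} [Field E] [Algebra k E] (D : KPt k E)

/-- A homogeneous polynomial vanishing at the point is a multiple of the equation. -/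
theorem ev_ne {d : ℕ} {P : MvPolynomial (Fin 5) k} (hP : IsWeightedHomogeneous w5 P d)
    (h : ¬ gH D.t ∣ P) : D.ev P ≠ 0 := by
  intro h0
  obtain ⟨α, h1, h2, h3⟩ := exists_nf w5 (4 : Fin 5) 2 (by norm_num) (cH D.t) (cH_pd _)
    (cH_wh _) d P hP
  have h4 : X 4 ^ 2 + cH D.t = gH D.t := by
    rw [cH]
    ring
  rw [h4] at h3
  rw [Fin.sum_univ_two] at h3
  set a := α 0 with ha
  set b := α 1 with hb
  have h5 : D.ev P = D.ev a + D.ev b * D.pt 4 := by
    rw [D.ev_congr h3]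
    simp
  have h6 : D.ev (cH D.t) = - D.pt 4 ^ 2 := by
    rw [cH]
    simp
  have h7 : D.ev (a ^ 2 + b ^ 2 * cH D.t) = 0 := by
    rw [D.ev_add, D.ev_mul, D.ev_pow, D.ev_pow, h6]
    have : D.ev a ^ 2 + D.ev b ^ 2 * -D.pt 4 ^ 2 =
        (D.ev a + D.ev b * D.pt 4) * (D.ev a - D.ev b * D.pt 4) := by ring
    rw [this, ← h5, h0, zero_mul]
  have h8 : IsWeightedHomogeneous w5 (a ^ 2) (2 * d) := by
    rcases h2 0 with h9 | ⟨e, he, h9⟩
    · rw [ha, h9]
      simp only [ne_eq, OfNat.ofNat_ne_zero, not_false_eq_true, zero_pow]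
      exact isWeightedHomogeneous_zero k w5 _
    · have h10 : e = d := by simpa using he
      subst h10
      simpa using h9.pow 2
  have h8' : IsWeightedHomogeneous w5 (b ^ 2 * cH D.t) (2 * d) := by
    rcases h2 1 with h9 | ⟨e, he, h9⟩
    · rw [hb, h9]
      simp only [ne_eq, OfNat.ofNat_ne_zero, not_false_eq_true, zero_pow, zero_mul]
      exact isWeightedHomogeneous_zero k w5 _
    · have h11 := (h9.pow 2).mul (cH_wh D.t)
      have h12 : 2 * d = 2 • e + 2 * w5 4 := by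
        rw [← he]
        simp
        ring
      rw [h12]
      exact h11
  have h9 : IsWeightedHomogeneous w5 (a ^ 2 + b ^ 2 * cH D.t) (2 * d) := h8.add h8'
  have h10 : pderiv (4 : Fin 5) (a ^ 2 + b ^ 2 * cH D.t) = 0 := by
    simp [Derivation.leibniz_pow, h1, cH_pd, ha, hb]
  have h11 : a ^ 2 + b ^ 2 * cH D.t = 0 := by
    by_contra hne
    exact D.ev_ne_of_free h9 hne h10 h7
  have h12 : ¬ (a ≠ 0 ∨ b ≠ 0) := fun hab =>
    quad_ne a b (cH D.t) (3 : Fin 5) (by rw [cH_deg]) hab h11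
  push Not at h12
  rw [h12.1, h12.2] at h3
  apply h
  simpa using h3

theorem ev_ne_free {d : ℕ} {P : MvPolynomial (Fin 5) k} (hP : IsWeightedHomogeneous w5 P d)
    (h0 : P ≠ 0) (j : Fin 5) (hj : pderiv j P = 0) : D.ev P ≠ 0 :=
  D.ev_ne hP (not_gH_dvd _ h0 j hj)

/-- Values are not negative. -/
theorem vh_nonneg {d : ℕ} {P : MvPolynomial (Fin 5) k} (hP : IsWeightedHomogeneous w5 P d)
    (h : D.ev P ≠ 0) : 0 ≤ D.vh d P := by
  have h1 : D.ev P = ∑ n ∈ P.support, algebraMap k E (coeff n P) * ∏ i, D.pt i ^ n i := by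
    rw [ev, aeval_def, eval₂_eq']
  have h2 := D.sum_ge P.support (fun n => algebraMap k E (coeff n P) * ∏ i, D.pt i ^ n i)
    ⌈(d : ℚ) * D.μ⌉ fun n hn => by
      right
      rw [mem_support_iff] at hn
      rw [D.const_mul hn, D.prod _ _ fun i _ => pow_ne_zero _ (D.pt_ne i), Int.ceil_le]
      have h3 := hP hn
      rw [Finsupp.weight_apply, Finsupp.sum_fintype _ _ (by simp)] at h3
      rw [← h3]
      push_cast
      rw [Finset.sum_mul]
      refine Finset.sum_le_sum fun i _ => ?_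
      rw [D.pow (D.pt_ne i)]
      push_cast
      rw [smul_eq_mul, Nat.cast_mul, mul_assoc]
      exact mul_le_mul_of_nonneg_left (D.hμ i) (by positivity)
  rw [← h1] at h2
  have h4 := Int.ceil_le.1 (h2.resolve_left h)
  rw [vh]
  linarith

theorem vh_mul {d e : ℕ} {P Q : MvPolynomial (Fin 5) k} (hP : D.ev P ≠ 0) (hQ : D.ev Q ≠ 0) :
    D.vh (d + e) (P * Q) = D.vh d P + D.vh e Q := by
  rw [vh, vh, vh, D.ev_mul, D.mul _ _ hP hQ]
  push_cast
  ring

theorem vh_pow {d : ℕ} {P : MvPolynomial (Fin 5) k} (hP : D.ev P ≠ 0) (n : ℕ) :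
    D.vh (n * d) (P ^ n) = n * D.vh d P := by
  rw [vh, vh, D.ev_pow, D.pow hP]
  push_cast
  ring

theorem vh_X (i : Fin 5) : D.vh (w5 i) (X i) = D.w i := by
  rw [vh, w, D.ev_X]

theorem vh_C {c : k} (hc : c ≠ 0) : D.vh 0 (C c) = 0 := by
  rw [vh, D.ev_C, D.const c hc]
  simp

theorem vh_add {d : ℕ} {P Q : MvPolynomial (Fin 5) k} {c : ℚ} (hP : D.ev P = 0 ∨ c ≤ D.vh d P)
    (hQ : D.ev Q = 0 ∨ c ≤ D.vh d Q) : D.ev (P + Q) = 0 ∨ c ≤ D.vh d (P + Q) := by
  have key : ∀ R : MvPolynomial (Fin 5) k, (c ≤ D.vh d R ↔ ⌈c + d * D.μ⌉ ≤ D.v (D.ev R)) := by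
    intro R
    rw [Int.ceil_le, vh]
    constructor <;> intro h <;> linarith
  rw [key] at hP hQ ⊢
  rw [D.ev_add]
  exact D.add_ge hP hQ

theorem vh_sub {d : ℕ} {P Q : MvPolynomial (Fin 5) k} {c : ℚ} (hP : D.ev P = 0 ∨ c ≤ D.vh d P)
    (hQ : D.ev Q = 0 ∨ c ≤ D.vh d Q) : D.ev (P - Q) = 0 ∨ c ≤ D.vh d (P - Q) := by
  rw [sub_eq_add_neg]
  refine D.vh_add hP ?_
  rw [vh, D.ev_neg, D.neg, neg_eq_zero]
  exact hQ

theorem vh_pos_add {d : ℕ} {P Q : MvPolynomial (Fin 5) k} (hP : D.ev P = 0 ∨ 0 < D.vh d P)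
    (hQ : D.ev Q = 0 ∨ 0 < D.vh d Q) : D.ev (P + Q) = 0 ∨ 0 < D.vh d (P + Q) := by
  by_cases h1 : D.ev P = 0
  · have h2 : D.vh d (P + Q) = D.vh d Q := by rw [vh, vh, D.ev_add, h1, zero_add]
    rw [h2, D.ev_add, h1, zero_add]
    exact hQ
  by_cases h2 : D.ev Q = 0
  · have h3 : D.vh d (P + Q) = D.vh d P := by rw [vh, vh, D.ev_add, h2, add_zero]
    rw [h3, D.ev_add, h2, add_zero]
    exact hP
  have h3 := hP.resolve_left h1
  have h4 := hQ.resolve_left h2
  have h5 := D.vh_add (c := min (D.vh d P) (D.vh d Q)) (Or.inr (min_le_left _ _))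
    (Or.inr (min_le_right _ _))
  exact h5.imp id fun h6 => lt_of_lt_of_le (lt_min h3 h4) h6

/-- If `P` has value zero and `Q` has positive value, then `P + Q` has value zero. -/
theorem vh_add_eq {d : ℕ} {P Q : MvPolynomial (Fin 5) k} (hP : D.ev P ≠ 0) (h0 : D.vh d P = 0)
    (hQ : D.ev Q = 0 ∨ 0 < D.vh d Q) : D.ev (P + Q) ≠ 0 ∧ D.vh d (P + Q) = 0 := by
  have h1 : D.ev Q = 0 ∨ D.v (D.ev P) < D.v (D.ev Q) := by
    refine hQ.imp id fun h2 => ?_
    have h3 : D.vh d P < D.vh d Q := by rw [h0]; exact h2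
    rw [vh, vh] at h3
    have h4 : ((D.v (D.ev P) : ℤ) : ℚ) < ((D.v (D.ev Q) : ℤ) : ℚ) := by linarith
    exact_mod_cast h4
  have h2 := D.add_of_lt hP h1
  rw [← D.ev_add] at h2
  refine ⟨h2.1, ?_⟩
  rw [← h0, vh, vh, h2.2]

theorem vγ_four : D.γ 4 ≠ 0 ∧ D.vγ 4 = D.w 4 := by
  have h1 : D.γ 4 = ((2 : ℕ) : E) * D.pt 4 := by
    rw [γ, pd4, D.ev_mul, D.ev_X]
    have : D.ev (2 : MvPolynomial (Fin 5) k) = ((2 : ℕ) : E) := by
      have h := D.ev_C (2 : k)
      simp only [map_ofNat] at h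
      simpa using h
    rw [this]
  have hE : CharZero E := charZero_of_injective_algebraMap (algebraMap k E).injective
  have h2 : ((2 : ℕ) : E) ≠ 0 := by norm_num
  refine ⟨by rw [h1]; exact mul_ne_zero h2 (D.pt_ne 4), ?_⟩
  have h3 : (w5 4 : ℚ) = 33 := by
    have : w5 4 = 33 := rfl
    rw [this]
    norm_num
  rw [vγ, w, h1, D.mul _ _ h2 (D.pt_ne 4), D.natCast (by norm_num), h3]
  push_cast
  ring

theorem vγ_three : D.γ 3 ≠ 0 ∧ D.vγ 3 = 2 * D.w 3 := by
  have h1 : D.γ 3 = ((3 : ℕ) : E) * D.pt 3 ^ 2 := by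
    rw [γ, pd3, D.ev_mul, D.ev_pow, D.ev_X]
    have : D.ev (3 : MvPolynomial (Fin 5) k) = ((3 : ℕ) : E) := by
      have h := D.ev_C (3 : k)
      simp only [map_ofNat] at h
      simpa using h
    rw [this]
  have hE : CharZero E := charZero_of_injective_algebraMap (algebraMap k E).injective
  have h2 : ((3 : ℕ) : E) ≠ 0 := by norm_num
  have h4 : D.pt 3 ^ 2 ≠ 0 := pow_ne_zero 2 (D.pt_ne 3)
  refine ⟨by rw [h1]; exact mul_ne_zero h2 h4, ?_⟩
  have h3 : (w5 3 : ℚ) = 22 := by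
    have : w5 3 = 22 := rfl
    rw [this]
    norm_num
  rw [vγ, w, h1, D.mul _ _ h2 h4, D.natCast (by norm_num), D.pow (D.pt_ne 3), h3]
  push_cast
  ring

end KPt

end Pool.Agent.KO
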