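import Pool.Agent.KO.Key.Defs

/-! # Project KO, block KEY: the jacobian inequality -/

set_option autoImplicit false

namespace Pool.Agent.KO

open MvPolynomial

namespace LogVal

variable {k E : Type} [Field k] [Field E] [Algebra k E] (D : LogVal k E)

/-- A lower bound for determinants, by rows and columns. -/
theorem det_ge2 [CharZero k] {n : ℕ} (M : Matrix (Fin n) (Fin n) E) (c c' : Fin n → ℤ)
    (h : ∀ i j, M i j = 0 ∨ c i + c' j ≤ D.v (M i j)) :
    M.det = 0 ∨ ∑ i, c i + ∑ j, c' j ≤ D.v M.det := by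
  rw [← Matrix.det_transpose, Matrix.det_apply']
  refine D.sum_ge _ _ _ fun σ _ => ?_
  by_cases h0 : ((Equiv.Perm.sign σ : ℤ) : E) * ∏ i, M.transpose (σ i) i = 0
  · exact Or.inl h0
  right
  have h1 : ((Equiv.Perm.sign σ : ℤ) : E) ≠ 0 := left_ne_zero_of_mul h0
  have h2 : ∏ i, M.transpose (σ i) i ≠ 0 := right_ne_zero_of_mul h0
  have h3 : (Equiv.Perm.sign σ : ℤ) ≠ 0 := by
    intro h4
    rw [h4, Int.cast_zero] at h1
    exact h1 rfl
  rw [D.mul _ _ h1 h2, D.intCast h3, zero_add, D.prod _ _ (Finset.prod_ne_zero_iff.1 h2),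
    ← Equiv.sum_comp σ c', ← Finset.sum_add_distrib]
  exact Finset.sum_le_sum fun i _ => (h i (σ i)).resolve_left
    (Finset.prod_ne_zero_iff.1 h2 i (Finset.mem_univ i))

theorem sign_mul {x y : E} {ε : E} (hε : ε = 1 ∨ ε = -1) : D.v (ε * (x * y)) = D.v (x * y) := by
  rcases hε with rfl | rfl
  · rw [one_mul]
  · rw [neg_one_mul, D.neg]

end LogVal

/-- Partial derivatives commute. -/
theorem pderiv_comm {σ R : Type} [CommRing R] (i j : σ) (P : MvPolynomial σ R) :
    pderiv i (pderiv j P) = pderiv j (pderiv i P) := by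
  classical
  have h : ⁅(pderiv i : Derivation R (MvPolynomial σ R) (MvPolynomial σ R)),
      (pderiv j : Derivation R (MvPolynomial σ R) (MvPolynomial σ R))⁆ = 0 := by
    refine MvPolynomial.derivation_ext fun l => ?_
    rw [Derivation.commutator_apply, pderiv_X, pderiv_X]
    simp only [Pi.single_apply]
    split_ifs <;> simp
  have h1 := congrArg (fun D : Derivation R (MvPolynomial σ R) (MvPolynomial σ R) => D P) h
  simp only [Derivation.commutator_apply, Derivation.coe_zero, Pi.zero_apply] at h1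
  exact sub_eq_zero.1 h1

/-- Linear algebra: the minors of a matrix with one relation between its rows. -/
theorem det_minor {E : Type} [Field E] {n : ℕ} (M : Matrix (Fin (n + 1)) (Fin n) E)
    (g : Fin (n + 1) → E) (hg : Matrix.vecMul g M = 0)
    (N : Matrix (Fin (n + 1)) (Fin (n + 1)) E) (j : Fin (n + 1)) (hN : N j = g) :
    ∃ ε : E, (ε = 1 ∨ ε = -1) ∧
      ((N * M).submatrix j.succAbove id).det * g (Fin.last n) =
        ε * (N.det * (M.submatrix Fin.castSucc id).det) := by
  set M' : Matrix (Fin (n + 1)) (Fin (n + 1)) E := Matrix.of fun a b =>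
    Fin.lastCases (motive := fun _ => E) (if a = Fin.last n then 1 else 0) (fun b' => M a b') b
    with hM'
  have hM1 : ∀ a (b : Fin n), M' a b.castSucc = M a b := fun a b => by
    simp [hM']
  have hM2 : ∀ a, M' a (Fin.last n) = if a = Fin.last n then 1 else 0 := fun a => by
    simp [hM']
  have hd1 : M'.det = (M.submatrix Fin.castSucc id).det := by
    rw [Matrix.det_succ_column M' (Fin.last n), Finset.sum_eq_single (Fin.last n)]
    · rw [hM2, if_pos rfl, mul_one, Fin.val_last, ← two_mul, pow_mul]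
      norm_num
      congr 1
      ext a b
      rw [Matrix.submatrix_apply, Matrix.submatrix_apply]
      exact hM1 _ _
    · intro a _ ha
      rw [hM2, if_neg ha]
      ring
    · intro h
      exact absurd (Finset.mem_univ _) h
  have hP1 : ∀ a (b : Fin n), (N * M') a b.castSucc = (N * M) a b := fun a b => by
    rw [Matrix.mul_apply, Matrix.mul_apply]
    exact Finset.sum_congr rfl fun c _ => by rw [hM1]
  have hP2 : ∀ a, (N * M') a (Fin.last n) = N a (Fin.last n) := fun a => by
    rw [Matrix.mul_apply, Finset.sum_eq_single (Fin.last n)]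
    · rw [hM2, if_pos rfl, mul_one]
    · intro c _ hc
      rw [hM2, if_neg hc, mul_zero]
    · intro h
      exact absurd (Finset.mem_univ _) h
  have hP3 : ∀ b : Fin n, (N * M) j b = 0 := fun b => by
    have h := congrFun hg b
    rw [Matrix.mul_apply, hN]
    exact h
  have hd2 : (N * M').det = (-1) ^ ((j : ℕ) + n) * (g (Fin.last n) *
      ((N * M).submatrix j.succAbove id).det) := by
    rw [Matrix.det_succ_row (N * M') j, Finset.sum_eq_single (Fin.last n)]
    · rw [hP2, hN, Fin.val_last, mul_assoc]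
      congr 3
      ext a b
      rw [Matrix.submatrix_apply, Matrix.submatrix_apply, Fin.succAbove_last, hP1]
      rfl
    · intro b _ hb
      obtain ⟨b', rfl⟩ := Fin.eq_castSucc_of_ne_last hb
      rw [hP1, hP3]
      ring
    · intro h
      exact absurd (Finset.mem_univ _) h
  rw [Matrix.det_mul, hd1] at hd2
  refine ⟨(-1) ^ ((j : ℕ) + n), neg_one_pow_eq_or E _, ?_⟩
  rw [hd2, ← mul_assoc, ← mul_pow]
  norm_num
  ring

namespace KPt

variable {k E : Type} [Field k] [Field E] [Algebra k E] (D : KPt k E)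

/-- The matrix of the gradients of the `F a`, `a ≠ j`, and of the equation (row `j`). -/
noncomputable def grad (j : Fin 5) (F : Fin 5 → MvPolynomial (Fin 5) k) :
    Matrix (Fin 5) (Fin 5) E :=
  Matrix.of fun a i => if a = j then D.γ i else D.ev (pderiv i (F a))

/-- Multiplication by the degree, and the three derivations. -/
noncomputable def jet (d : ℕ) (f : E) : Fin 4 → E := Fin.cons (d * f) fun b => D.δ b f

/-- The jets of the coordinates. -/
noncomputable def jm : Matrix (Fin 5) (Fin 4) E := Matrix.of fun i => D.jet (w5 i) (D.pt i)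

theorem jet_ev {d : ℕ} {F : MvPolynomial (Fin 5) k} (hF : IsWeightedHomogeneous w5 F d)
    (b : Fin 4) : ∑ i, D.ev (pderiv i F) * D.jm i b = D.jet d (D.ev F) b := by
  refine Fin.cases ?_ (fun b => ?_) b
  · have h := congrArg D.ev hF.sum_weight_X_mul_pderiv
    rw [D.ev_sum] at h
    simp only [nsmul_eq_mul, D.ev_mul, D.ev_X] at h
    have hc : ∀ n : ℕ, D.ev ((n : ℕ) : MvPolynomial (Fin 5) k) = (n : E) := fun n =>
      map_natCast (aeval D.pt) n
    simp only [hc] at h
    simp only [jm, jet, Matrix.of_apply, Fin.cons_zero]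
    rw [← h]
    exact Finset.sum_congr rfl fun i _ => by ring
  · simp only [jm, jet, Matrix.of_apply, Fin.cons_succ]
    exact (LogVal.der_aeval (D.δ b) D.pt F).symm

theorem jm_det : (D.jm.submatrix Fin.castSucc id).det =
    (Matrix.of fun i j : Fin 3 => D.δ j (D.pt i.castSucc.succ)).det := by
  have h0 : D.pt 0 = 1 := D.pt0
  rw [Matrix.det_succ_row_zero, Finset.sum_eq_single 0]
  · have h1 : (D.jm.submatrix Fin.castSucc id) 0 0 = 1 := by
      simp [jm, jet, h0, w5]
    rw [h1]
    simp only [Fin.val_zero, pow_zero, one_mul]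
    congr 1
  · intro b _ hb
    obtain ⟨b', rfl⟩ := Fin.exists_succ_eq.2 hb
    have h1 : (D.jm.submatrix Fin.castSucc id) 0 b'.succ = 0 := by
      simp [jm, jet, h0]
    rw [h1]
    ring
  · intro h
    exact absurd (Finset.mem_univ _) h

theorem γ_four : D.γ 4 = 2 * D.pt 4 := by
  unfold γ gH
  simp only [map_sub, map_add, Derivation.leibniz_pow, Derivation.leibniz, pderiv_X, smul_eq_mul,
    pderiv_C]
  simp only [Pi.single_eq_same, ne_eq, Fin.reduceEq, not_false_eq_true, Pi.single_eq_of_ne,
    smul_zero, mul_zero, add_zero, sub_zero, mul_one, nsmul_eq_mul, Nat.cast_ofNat,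
    Nat.add_one_sub_one, pow_one, ev_mul, ev_X]
  congr 1
  exact map_ofNat (aeval D.pt) 2

theorem γ_jm : Matrix.vecMul D.γ D.jm = 0 := by
  funext b
  have h := D.jet_ev (isWH_gH D.t) b
  rw [D.ev_gH] at h
  have h1 : Matrix.vecMul D.γ D.jm b = ∑ i, D.ev (pderiv i (gH D.t)) * D.jm i b := rfl
  rw [h1, h]
  refine Fin.cases ?_ (fun b => ?_) b
  · simp [jet]
  · simp [jet]

/-- The jacobian formula. -/
theorem jac_det (j : Fin 5) (F : Fin 5 → MvPolynomial (Fin 5) k) (d : Fin 5 → ℕ)
    (hF : ∀ a, a ≠ j → IsWeightedHomogeneous w5 (F a) (d a)) :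
    ∃ ε : E, (ε = 1 ∨ ε = -1) ∧
      (Matrix.of fun a : Fin 4 => D.jet (d (j.succAbove a)) (D.ev (F (j.succAbove a)))).det *
        (2 * D.pt 4) = ε * ((D.grad j F).det *
          (Matrix.of fun i j : Fin 3 => D.δ j (D.pt i.castSucc.succ)).det) := by
  have hN : (D.grad j F) j = D.γ := by
    funext i
    simp [grad]
  obtain ⟨ε, hε, h⟩ := det_minor D.jm D.γ D.γ_jm (D.grad j F) j hN
  refine ⟨ε, hε, ?_⟩
  have h4 : D.γ (Fin.last 4) = 2 * D.pt 4 := D.γ_four
  rw [h4, D.jm_det] at h
  rw [← h]
  congr 2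
  ext a b
  rw [Matrix.submatrix_apply, Matrix.mul_apply, Matrix.of_apply,
    ← D.jet_ev (hF _ (Fin.succAbove_ne j a))]
  refine Finset.sum_congr rfl fun i _ => ?_
  simp only [grad, Matrix.of_apply, if_neg (Fin.succAbove_ne j a), id]

/-- The value of the determinant of the jets. -/
theorem v_jets [CharZero k] (j : Fin 5) (F : Fin 5 → MvPolynomial (Fin 5) k) (d : Fin 5 → ℕ)
    (hF : ∀ a, a ≠ j → IsWeightedHomogeneous w5 (F a) (d a)) (hN : (D.grad j F).det ≠ 0) :
    (Matrix.of fun a : Fin 4 => D.jet (d (j.succAbove a)) (D.ev (F (j.succAbove a)))).det ≠ 0 ∧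
    D.v (Matrix.of fun a : Fin 4 =>
      D.jet (d (j.succAbove a)) (D.ev (F (j.succAbove a)))).det =
        D.Lam + D.v (D.grad j F).det := by
  obtain ⟨ε, hε, h⟩ := D.jac_det j F d hF
  have hε0 : ε ≠ 0 := by
    rcases hε with rfl | rfl <;> norm_num
  have h1 : ε * ((D.grad j F).det *
      (Matrix.of fun i j : Fin 3 => D.δ j (D.pt i.castSucc.succ)).det) ≠ 0 :=
    mul_ne_zero hε0 (mul_ne_zero hN D.jac)
  have h2 := h1
  rw [← h] at h2
  have h3 := left_ne_zero_of_mul h2
  have h4 := right_ne_zero_of_mul h2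
  have h5 := right_ne_zero_of_mul h4
  have h6 := left_ne_zero_of_mul h4
  refine ⟨h3, ?_⟩
  have h7 := congrArg D.v h
  rw [D.mul _ _ h3 h4, D.mul _ _ h6 h5, D.sign_mul hε, D.mul _ _ hN D.jac] at h7
  have h8 : D.v (2 : E) = 0 := by
    have := D.natCast (k := k) (m := 2) (by norm_num)
    exact_mod_cast this
  rw [h8] at h7
  unfold Lam
  linarith

theorem jet_ge [CharZero k] (d : ℕ) (f : E) (b : Fin 4) :
    D.jet d f b = 0 ∨ D.v f ≤ D.v (D.jet d f b) := by
  by_cases hf : f = 0
  · left
    subst hf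
    refine Fin.cases ?_ (fun b => ?_) b
    · simp [jet]
    · simp [jet]
  · refine Fin.cases ?_ (fun b => ?_) b
    · simp only [jet, Fin.cons_zero]
      by_cases hd : d = 0
      · left; simp [hd]
      · right
        have h1 : (d : E) ≠ 0 := by
          have : (algebraMap k E) (d : k) ≠ 0 := by
            rw [Ne, map_eq_zero]
            exact_mod_cast hd
          rwa [map_natCast] at this
        rw [D.mul _ _ h1 hf, D.natCast (k := k) hd, zero_add]
    · simp only [jet, Fin.cons_succ]
      by_cases h0 : D.δ b f = 0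
      · exact Or.inl h0
      · exact Or.inr (D.log b f hf h0)

theorem sum_erase_succAbove (j : Fin 5) (f : Fin 5 → ℤ) :
    ∑ a ∈ Finset.univ.erase j, f a = ∑ a : Fin 4, f (j.succAbove a) := by
  have h1 := Finset.add_sum_erase Finset.univ f (Finset.mem_univ j)
  have h2 := Fin.sum_univ_succAbove f j
  linarith

theorem jac_le [CharZero k] (j : Fin 5) (F : Fin 5 → MvPolynomial (Fin 5) k) (d : Fin 5 → ℕ)
    (hF : ∀ a, a ≠ j → IsWeightedHomogeneous w5 (F a) (d a)) (hN : (D.grad j F).det ≠ 0) :
    ∑ a ∈ Finset.univ.erase j, D.v (D.ev (F a)) ≤ D.Lam + D.v (D.grad j F).det := by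
  obtain ⟨h1, h2⟩ := D.v_jets j F d hF hN
  rw [← h2, sum_erase_succAbove]
  exact (D.det_ge _ (fun a => D.v (D.ev (F (j.succAbove a)))) fun a b =>
    D.jet_ge _ _ b).resolve_left h1

/-- A lower bound for the value of a homogeneous polynomial. -/
theorem ev_ge_int (m : ℤ) (hm : D.μ = m) {d : ℕ} {P : MvPolynomial (Fin 5) k}
    (hP : IsWeightedHomogeneous w5 P d) : D.ev P = 0 ∨ (d : ℤ) * m ≤ D.v (D.ev P) := by
  have hpt : ∀ i, (w5 i : ℤ) * m ≤ D.v (D.pt i) := by
    intro i
    have h := D.hμ i
    rw [hm] at h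
    exact_mod_cast h
  have h1 : D.ev P = ∑ n ∈ P.support, algebraMap k E (P.coeff n) * ∏ i, D.pt i ^ n i := by
    unfold ev
    rw [aeval_def, eval₂_eq']
  rw [h1]
  refine D.sum_ge _ _ _ fun n hn => ?_
  have hw : Finsupp.weight w5 n = d := hP (mem_support_iff.1 hn)
  have hw2 : ∑ i, n i * w5 i = d := by
    rw [← hw, Finsupp.weight_apply, Finsupp.sum_fintype _ _ (fun i => by simp)]
    simp
  by_cases hz : ∏ i, D.pt i ^ n i = 0
  · left; rw [hz, mul_zero]
  right
  have hi := Finset.prod_ne_zero_iff.1 hz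
  rw [D.const_mul (mem_support_iff.1 hn), D.prod _ _ hi, ← hw2]
  push_cast
  rw [Finset.sum_mul]
  refine Finset.sum_le_sum fun i _ => ?_
  by_cases hni : n i = 0
  · rw [hni]; simp [D.one]
  · have h2 : D.pt i ≠ 0 := fun h0 => hi i (Finset.mem_univ i) (by rw [h0, zero_pow hni])
    rw [D.pow h2]
    have h3 := hpt i
    have h4 : (0 : ℤ) ≤ n i := by positivity
    nlinarith [mul_le_mul_of_nonneg_left h3 h4]

/-- The version with the sharper bound for the last derivation. -/
theorem jac_le1 [CharZero k] (m : ℤ) (hm : D.μ = m) (j : Fin 5)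
    (F : Fin 5 → MvPolynomial (Fin 5) k) (d : Fin 5 → ℕ)
    (hF : ∀ a, a ≠ j → IsWeightedHomogeneous w5 (F a) (d a)) (hN : (D.grad j F).det ≠ 0) :
    ∑ a ∈ Finset.univ.erase j, (d a : ℤ) * m + 1 ≤ D.Lam + D.v (D.grad j F).det := by
  obtain ⟨h1, h2⟩ := D.v_jets j F d hF hN
  rw [← h2, sum_erase_succAbove]
  set N : Matrix (Fin 4) (Fin 4) E := Matrix.of fun a : Fin 4 =>
    D.jet (d (j.succAbove a)) (D.ev (F (j.succAbove a))) with hNdef
  have h3 : (N.updateCol 3 (fun a => N a 3 + (-(m : E)) • N a 0)).det = N.det :=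
    Matrix.det_updateCol_add_smul_self N (by decide) _
  rw [← h3] at h1 ⊢
  have h4 : ∑ a : Fin 4, ((d (j.succAbove a) : ℤ) * m) + 1 =
      ∑ a : Fin 4, ((d (j.succAbove a) : ℤ) * m) + ∑ b : Fin 4, (if b = 3 then (1 : ℤ) else 0) := by
    rw [Finset.sum_ite_eq' Finset.univ (3 : Fin 4)]
    simp
  rw [h4]
  refine (D.det_ge2 _ (fun a => (d (j.succAbove a) : ℤ) * m)
    (fun b => if b = 3 then (1 : ℤ) else 0) fun a b => ?_).resolve_left h1
  have hb := D.ev_ge_int m hm (hF _ (Fin.succAbove_ne j a))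
  set f := D.ev (F (j.succAbove a)) with hf
  set dd := d (j.succAbove a) with hdd
  by_cases hb3 : b = 3
  · subst hb3
    rw [Matrix.updateCol_self, if_pos rfl]
    have e1 : N a 3 = D.δ 2 f := rfl
    have e2 : N a 0 = (dd : E) * f := rfl
    rw [e1, e2]
    by_cases hf0 : f = 0
    · left
      rw [hf0]
      simp
    have hb' := hb.resolve_left hf0
    have hlog := D.log1 f hf0
    rcases hb'.eq_or_lt with h5 | h5
    · have h6 : D.δ 2 f + -(m : E) • ((dd : E) * f) = D.δ 2 f - (D.v f : E) * f := by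
        rw [← h5]
        push_cast
        rw [smul_eq_mul]
        ring
      rw [h6, h5]
      exact hlog
    · have h6 : D.δ 2 f + -(m : E) • ((dd : E) * f) =
          (D.δ 2 f - (D.v f : E) * f) + ((D.v f - m * dd : ℤ) : E) * f := by
        push_cast
        rw [smul_eq_mul]
        ring
      rw [h6]
      refine D.add_ge (hlog.imp id fun h => by omega) ?_
      by_cases hc : (D.v f - m * dd : ℤ) = 0
      · left; rw [hc]; simp
      · right
        have hc' : ((D.v f - m * dd : ℤ) : E) ≠ 0 := by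
          have : (algebraMap k E) ((D.v f - m * dd : ℤ) : k) ≠ 0 := by
            rw [Ne, map_eq_zero]
            exact_mod_cast hc
          rwa [map_intCast] at this
        rw [D.mul _ _ hc' hf0, D.intCast (k := k) hc, zero_add]
        omega
  · rw [Matrix.updateCol_ne hb3, if_neg hb3, add_zero]
    have h7 := D.jet_ge dd f b
    rcases h7 with h7 | h7
    · exact Or.inl h7
    · by_cases hf0 : f = 0
      · left
        have : N a b = D.jet dd f b := rfl
        rw [this, hf0]
        refine Fin.cases ?_ (fun b => ?_) b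
        · simp [jet]
        · simp [jet]
      · right
        exact (hb.resolve_left hf0).trans h7

theorem w5_pos (i : Fin 5) : 0 < w5 i := by
  revert i
  decide

/-- Nonzero homogeneous polynomials in `z, u, w, x` do not vanish at the point. -/
theorem ev_ne_of_free [CharZero k] {d : ℕ} {Q : MvPolynomial (Fin 5) k}
    (hQ : IsWeightedHomogeneous w5 Q d) (h0 : Q ≠ 0) (h4 : pderiv 4 Q = 0) : D.ev Q ≠ 0 := by
  induction d using Nat.strong_induction_on generalizing Q with
  | _ d ih =>
  intro hev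
  have h1 : Matrix.vecMul (fun i : Fin 4 => D.ev (pderiv i.castSucc Q))
      (D.jm.submatrix Fin.castSucc id) = 0 := by
    funext b
    have h := D.jet_ev hQ b
    rw [hev, Fin.sum_univ_castSucc] at h
    have h5 : D.ev (pderiv (Fin.last 4) Q) = 0 := by
      have : pderiv (Fin.last 4) Q = 0 := h4
      rw [this, D.ev_zero]
    rw [h5, zero_mul, add_zero] at h
    have h6 : D.jet d (0 : E) b = 0 := by
      refine Fin.cases ?_ (fun b => ?_) b
      · simp [jet]
      · simp [jet]
    rw [h6] at h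
    exact h
  have h2 : (D.jm.submatrix Fin.castSucc id).det ≠ 0 := by
    rw [D.jm_det]
    exact D.jac
  have h3 := Matrix.eq_zero_of_vecMul_eq_zero h2 h1
  have h5 : ∀ i : Fin 5, pderiv i Q = 0 := by
    intro i
    refine Fin.lastCases h4 (fun i => ?_) i
    by_contra hne
    have hev' : D.ev (pderiv i.castSucc Q) = 0 := congrFun h3 i
    have hmem : i.castSucc ∈ Q.vars := by
      by_contra hmem
      exact hne (pderiv_eq_zero_of_notMem_vars hmem)
    obtain ⟨n, hn, hni⟩ := mem_vars_iff_mem_support i.castSucc |>.1 hmem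
    have hw : Finsupp.weight w5 n = d := hQ (mem_support_iff.1 hn)
    have hle : w5 i.castSucc ≤ d := by
      rw [← hw, Finsupp.weight_apply, Finsupp.sum_fintype _ _ (fun i => by simp)]
      refine le_trans ?_ (Finset.single_le_sum (f := fun i => n i • w5 i)
        (fun _ _ => Nat.zero_le _) (Finset.mem_univ i.castSucc))
      have : 0 < n i.castSucc := Nat.pos_of_ne_zero (Finsupp.mem_support_iff.1 hni)
      simpa using Nat.le_mul_of_pos_left (w5 i.castSucc) this
    have hpos : 0 < w5 i.castSucc := w5_pos _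
    have hcomm : pderiv 4 (pderiv i.castSucc Q) = 0 := by
      rw [pderiv_comm, h4, map_zero]
    exact ih (d - w5 i.castSucc) (by omega) (hQ.pderiv (by omega)) hne hcomm hev'
  have h6 := hQ.sum_weight_X_mul_pderiv
  simp only [h5, mul_zero, smul_zero, Finset.sum_const_zero] at h6
  rcases Nat.eq_zero_or_pos d with hd | hd
  · subst hd
    obtain ⟨n, hn⟩ := MvPolynomial.ne_zero_iff.1 h0
    have hw : Finsupp.weight w5 n = 0 := hQ hn
    have hn0 : n = 0 := by
      rw [Finsupp.weight_apply, Finsupp.sum_fintype _ _ (fun i => by simp)] at hw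
      ext i
      have := (Finset.sum_eq_zero_iff.1 hw) i (Finset.mem_univ i)
      have hp := w5_pos i
      simpa [hp.ne'] using this
    subst hn0
    have hQC : Q = C (Q.coeff 0) := by
      ext n'
      rw [coeff_C]
      split_ifs with h
      · rw [h]
      · by_contra hne
        apply h
        have hw' : Finsupp.weight w5 n' = 0 := hQ hne
        rw [Finsupp.weight_apply, Finsupp.sum_fintype _ _ (fun i => by simp)] at hw'
        ext i
        have := (Finset.sum_eq_zero_iff.1 hw') i (Finset.mem_univ i)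
        have hp := w5_pos i
        symm
        simpa [hp.ne'] using this
    rw [hQC, D.ev_C, map_eq_zero] at hev
    exact hn hev
  · have : (d : MvPolynomial (Fin 5) k) ≠ 0 := by exact_mod_cast hd.ne'
    rw [nsmul_eq_mul] at h6
    exact h0 ((mul_eq_zero.1 h6.symm).resolve_left this)

theorem pt_ne [CharZero k] (i : Fin 5) : D.pt i ≠ 0 := by
  intro hi
  by_cases h3 : ∃ i' : Fin 3, i = i'.castSucc.succ
  · obtain ⟨i', rfl⟩ := h3
    refine D.jac (Matrix.det_eq_zero_of_row_eq_zero i' fun j => ?_)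
    rw [Matrix.of_apply, hi, map_zero]
  by_cases h0 : i = 0
  · rw [h0, D.pt0] at hi
    exact one_ne_zero hi
  have h4 : i = 4 := by
    have key : ∀ i : Fin 5, (¬∃ i' : Fin 3, i = i'.castSucc.succ) → ¬i = 0 → i = 4 := by decide
    exact key i h3 h0
  subst h4
  set c : MvPolynomial (Fin 5) k := gH D.t - X 4 ^ 2 with hc
  have hcd : IsWeightedHomogeneous w5 c 66 := (isWH_gH D.t).sub
    ((isWeightedHomogeneous_X k w5 (4 : Fin 5)).pow 2)
  have hc4 : pderiv 4 c = 0 := by
    rw [hc]
    unfold gH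
    simp only [map_sub, map_add, Derivation.leibniz_pow, Derivation.leibniz, pderiv_X, smul_eq_mul,
      pderiv_C]
    simp only [Pi.single_eq_same, ne_eq, Fin.reduceEq, not_false_eq_true, Pi.single_eq_of_ne,
      smul_zero, mul_zero, add_zero, sub_zero, mul_one, sub_self]
  have hc0 : c ≠ 0 := by
    intro h
    have h1 := congrArg (eval (![0, 0, 0, 1, 0] : Fin 5 → k)) h
    rw [hc] at h1
    unfold gH at h1
    simp at h1
  refine D.ev_ne_of_free hcd hc0 hc4 ?_
  rw [hc, D.ev_sub, D.ev_gH, D.ev_pow, D.ev_X, hi]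
  simp

end KPt

end Pool.Agent.KO
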