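import Pool.Agent.KO.Key.TopB

/-! # Project KO, block KEY: the bound by the norm to `k[z, u, w, y]` -/

set_option autoImplicit false

namespace Pool.Agent.KO.KPt

open MvPolynomial

variable {k E : Type} [Field k] [CharZero k] [Field E] [Algebra k E] (D : KPt k E)

/-- The equation without `x³`. -/
private noncomputable def cX (t : k) : MvPolynomial (Fin 5) k :=
  X 4 ^ 2 + (C t * X 2 ^ 11 + X 1 * X 0 * X 2 ^ 10 + X 1 ^ 12 * X 2 - X 0 ^ 66
    - X 0 ^ 12 * X 2 ^ 9)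

private theorem gH_cX (t : k) : X 3 ^ 3 + cX t = gH t := by
  unfold cX gH
  ring

private theorem cX_hom (t : k) : IsWeightedHomogeneous w5 (cX t) (3 * w5 3) := by
  have h3 : 3 * w5 3 = 66 := rfl
  rw [h3]
  have hX : ∀ i : Fin 5, IsWeightedHomogeneous w5 (X i : MvPolynomial (Fin 5) k) (w5 i) := fun i =>
    isWeightedHomogeneous_X k w5 i
  unfold cX
  refine IsWeightedHomogeneous.add ?_ (IsWeightedHomogeneous.sub (IsWeightedHomogeneous.sub
    (IsWeightedHomogeneous.add (IsWeightedHomogeneous.add ?_ ?_) ?_) ?_) ?_)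
  · exact (hX 4).pow 2
  · have := (isWeightedHomogeneous_C w5 t).mul ((hX 2).pow 11)
    simpa [w5] using this
  · exact ((hX 1).mul (hX 0)).mul ((hX 2).pow 10)
  · exact ((hX 1).pow 12).mul (hX 2)
  · exact (hX 0).pow 66
  · exact ((hX 0).pow 12).mul ((hX 2).pow 9)

private theorem pX (i j : Fin 5) (h : i ≠ j) : pderiv j (X i : MvPolynomial (Fin 5) k) = 0 :=
  pderiv_X_of_ne h

private theorem pmul {j : Fin 5} {p q : MvPolynomial (Fin 5) k} (hp : pderiv j p = 0)
    (hq : pderiv j q = 0) : pderiv j (p * q) = 0 := by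
  rw [Derivation.leibniz, hp, hq]
  simp

private theorem ppow {j : Fin 5} {p : MvPolynomial (Fin 5) k} (hp : pderiv j p = 0) (n : ℕ) :
    pderiv j (p ^ n) = 0 := by
  rw [Derivation.leibniz_pow, hp]
  simp

private theorem cX_free (t : k) : pderiv 3 (cX t) = 0 := by
  have h : ∀ i : Fin 5, i ≠ 3 → pderiv 3 (X i : MvPolynomial (Fin 5) k) = 0 := fun i hi =>
    pX i 3 hi
  have hC : pderiv (3 : Fin 5) (C t : MvPolynomial (Fin 5) k) = 0 := pderiv_C
  unfold cX
  simp only [map_add, map_sub]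
  rw [ppow (h 4 (by decide)), pmul hC (ppow (h 2 (by decide)) _),
    pmul (pmul (h 1 (by decide)) (h 0 (by decide))) (ppow (h 2 (by decide)) _),
    pmul (ppow (h 1 (by decide)) _) (h 2 (by decide)), ppow (h 0 (by decide)),
    pmul (ppow (h 0 (by decide)) _) (ppow (h 2 (by decide)) _)]
  simp

private theorem degOf_sq (r : MvPolynomial (Fin 5) k) (hr : pderiv 4 r = 0) :
    degreeOf 4 (-(X 4 ^ 2 + r)) = 2 := by
  classical
  have h0 : ∀ n ∈ r.support, n 4 = 0 := (pderiv_eq_zero_iff r 4).1 hr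
  rw [degreeOf_neg]
  apply le_antisymm
  · refine (degreeOf_add_le _ _ _).trans (max_le ?_ ?_)
    · refine (degreeOf_pow_le _ _ _).trans ?_
      rw [degreeOf_X_self]
    · rw [degreeOf_le_iff]
      intro n hn
      rw [h0 n hn]
      norm_num
  · have h1 : Finsupp.single (4 : Fin 5) 2 ∈ (X 4 ^ 2 + r : MvPolynomial (Fin 5) k).support := by
      rw [mem_support_iff, coeff_add, coeff_X_pow, if_pos rfl]
      have h2 : coeff (Finsupp.single (4 : Fin 5) 2) r = 0 := by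
        by_contra hcon
        have := h0 _ (mem_support_iff.2 hcon)
        simp at this
      rw [h2, add_zero]
      exact one_ne_zero
    have h3 := monomial_le_degreeOf (4 : Fin 5) h1
    simpa using h3

private theorem deg_c (t : k) : degreeOf 4 (-cX t) = 2 := by
  refine degOf_sq _ ?_
  have h : ∀ i : Fin 5, i ≠ 4 → pderiv 4 (X i : MvPolynomial (Fin 5) k) = 0 := fun i hi =>
    pX i 4 hi
  have hC : pderiv (4 : Fin 5) (C t : MvPolynomial (Fin 5) k) = 0 := pderiv_C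
  simp only [map_add, map_sub]
  rw [pmul hC (ppow (h 2 (by decide)) _),
    pmul (pmul (h 1 (by decide)) (h 0 (by decide))) (ppow (h 2 (by decide)) _),
    pmul (ppow (h 1 (by decide)) _) (h 2 (by decide)), ppow (h 0 (by decide)),
    pmul (ppow (h 0 (by decide)) _) (ppow (h 2 (by decide)) _)]
  simp

/-- The specialization `z = 0`. -/
private noncomputable def zz : MvPolynomial (Fin 5) k →ₐ[k] MvPolynomial (Fin 5) k :=
  aeval fun i => if i = 0 then 0 else X i

private theorem zz_X0 : zz (X 0 : MvPolynomial (Fin 5) k) = 0 := by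
  rw [zz, aeval_X, if_pos rfl]

private theorem zz_X (i : Fin 5) (hi : i ≠ 0) : zz (X i : MvPolynomial (Fin 5) k) = X i := by
  rw [zz, aeval_X, if_neg hi]

private theorem zz_dvd (p : MvPolynomial (Fin 5) k) : X 0 ∣ p - zz p := by
  induction p using MvPolynomial.induction_on with
  | C c =>
    have : zz (C c : MvPolynomial (Fin 5) k) = C c := by
      rw [zz, aeval_C]; rfl
    rw [this, sub_self]
    exact dvd_zero _
  | add p q hp hq =>
    have : p + q - zz (p + q) = (p - zz p) + (q - zz q) := by rw [map_add]; ring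
    rw [this]
    exact dvd_add hp hq
  | mul_X p i hp =>
    rw [map_mul]
    by_cases hi : i = 0
    · rw [hi, zz_X0, mul_zero, sub_zero]
      exact Dvd.intro_left p rfl
    · rw [zz_X i hi, ← sub_mul]
      exact hp.mul_right _

private theorem zz_zero (p : MvPolynomial (Fin 5) k) (h : ∀ n ∈ p.support, n 0 ≠ 0) :
    zz p = 0 := by
  classical
  conv_lhs => rw [← support_sum_monomial_coeff p]
  rw [map_sum]
  refine Finset.sum_eq_zero fun n hn => ?_
  rw [zz, aeval_monomial, Finsupp.prod]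
  have h0 : (0 : Fin 5) ∈ n.support := Finsupp.mem_support_iff.2 (h n hn)
  rw [Finset.prod_eq_zero h0 (by rw [if_pos rfl, zero_pow (h n hn)]), mul_zero]

private theorem deg_c0 (t : k) : degreeOf 4 (zz (-cX t)) = 2 := by
  have h1 : zz (-cX t) = -(X 4 ^ 2 + (C t * X 2 ^ 11 + X 1 ^ 12 * X 2)) := by
    have hC : zz (C t : MvPolynomial (Fin 5) k) = C t := by rw [zz, aeval_C]; rfl
    unfold cX
    simp only [map_neg, map_add, map_sub, map_mul, map_pow, zz_X0, hC,
      zz_X 4 (by decide), zz_X 2 (by decide), zz_X 1 (by decide)]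
    ring
  rw [h1]
  refine degOf_sq _ ?_
  have h : ∀ i : Fin 5, i ≠ 4 → pderiv 4 (X i : MvPolynomial (Fin 5) k) = 0 := fun i hi =>
    pX i 4 hi
  have hC : pderiv (4 : Fin 5) (C t : MvPolynomial (Fin 5) k) = 0 := pderiv_C
  simp only [map_add]
  rw [pmul hC (ppow (h 2 (by decide)) _), pmul (ppow (h 1 (by decide)) _) (h 2 (by decide))]
  simp

private theorem hom_div {d : ℕ} {p : MvPolynomial (Fin 5) k}
    (h : IsWeightedHomogeneous w5 (X 0 * p) d) (hp : p ≠ 0) :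
    ∃ e, e + 1 = d ∧ IsWeightedHomogeneous w5 p e := by
  classical
  have h1 : ∀ n, coeff n p ≠ 0 → Finsupp.weight w5 n + 1 = d := by
    intro n hn
    have h2 : coeff (Finsupp.single 0 1 + n) (X 0 * p) ≠ 0 := by
      rw [coeff_X_mul]
      exact hn
    have h3 := h h2
    rw [map_add, Finsupp.weight_single] at h3
    have h4 : w5 0 = 1 := rfl
    rw [h4] at h3
    simp at h3
    omega
  obtain ⟨n, hn⟩ := ne_zero_iff.1 hp
  refine ⟨Finsupp.weight w5 n, h1 n hn, ?_⟩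
  intro m hm
  have h2 := h1 n hn
  have h3 := h1 m hm
  omega

private theorem cast_hom {d e : ℕ} {p : MvPolynomial (Fin 5) k}
    (h : IsWeightedHomogeneous w5 p d) (hd : d = e) : IsWeightedHomogeneous w5 p e := hd ▸ h

private theorem homN {a b e c : MvPolynomial (Fin 5) k} {d : ℕ}
    (ha : a = 0 ∨ ∃ m, m = d ∧ IsWeightedHomogeneous w5 a m)
    (hb : b = 0 ∨ ∃ m, m + 22 = d ∧ IsWeightedHomogeneous w5 b m)
    (he : e = 0 ∨ ∃ m, m + 44 = d ∧ IsWeightedHomogeneous w5 e m)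
    (hc : IsWeightedHomogeneous w5 c 66) :
    IsWeightedHomogeneous w5 (a ^ 3 + b ^ 3 * c + e ^ 3 * c ^ 2 - 3 * a * b * e * c) (3 * d) := by
  have h0 : ∀ m, IsWeightedHomogeneous w5 (0 : MvPolynomial (Fin 5) k) m := fun m =>
    isWeightedHomogeneous_zero k w5 m
  refine ((IsWeightedHomogeneous.add ?_ ?_).add ?_).sub ?_
  · rcases ha with ha | ⟨m, hm, ha⟩
    · rw [ha]; simpa using h0 _
    · exact cast_hom (ha.pow 3) (by simp; omega)
  · rcases hb with hb | ⟨m, hm, hb⟩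
    · rw [hb]; simpa using h0 _
    · exact cast_hom ((hb.pow 3).mul hc) (by simp; omega)
  · rcases he with he | ⟨m, hm, he⟩
    · rw [he]; simpa using h0 _
    · exact cast_hom ((he.pow 3).mul (hc.pow 2)) (by simp; omega)
  · rcases ha with ha | ⟨m, hm, ha⟩
    · rw [ha]; simpa using h0 _
    rcases hb with hb | ⟨m', hm', hb⟩
    · rw [hb]; simpa using h0 _
    rcases he with he | ⟨m'', hm'', he⟩
    · rw [he]; simpa using h0 _
    have h3 : IsWeightedHomogeneous w5 (3 : MvPolynomial (Fin 5) k) 0 := by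
      have := isWeightedHomogeneous_C w5 (3 : k)
      rwa [map_ofNat] at this
    exact cast_hom ((((h3.mul ha).mul hb).mul he).mul hc) (by omega)

private theorem homQ {a b e c : MvPolynomial (Fin 5) k} {d : ℕ}
    (ha : a = 0 ∨ ∃ m, m = d ∧ IsWeightedHomogeneous w5 a m)
    (hb : b = 0 ∨ ∃ m, m + 22 = d ∧ IsWeightedHomogeneous w5 b m)
    (he : e = 0 ∨ ∃ m, m + 44 = d ∧ IsWeightedHomogeneous w5 e m)
    (hc : IsWeightedHomogeneous w5 c 66) :
    IsWeightedHomogeneous w5 (a ^ 2 - b * e * c + (e ^ 2 * c - a * b) * X 3 +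
      (b ^ 2 - a * e) * X 3 ^ 2) (2 * d) := by
  have h0 : ∀ m, IsWeightedHomogeneous w5 (0 : MvPolynomial (Fin 5) k) m := fun m =>
    isWeightedHomogeneous_zero k w5 m
  have hX : IsWeightedHomogeneous w5 (X 3 : MvPolynomial (Fin 5) k) 22 :=
    isWeightedHomogeneous_X k w5 3
  rw [sub_mul, sub_mul]
  refine (IsWeightedHomogeneous.add (IsWeightedHomogeneous.sub ?_ ?_)
    (IsWeightedHomogeneous.sub ?_ ?_)).add (IsWeightedHomogeneous.sub ?_ ?_)
  · rcases ha with ha | ⟨m, hm, ha⟩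
    · rw [ha]; simpa using h0 _
    · exact cast_hom (ha.pow 2) (by simp; omega)
  · rcases hb with hb | ⟨m', hm', hb⟩
    · rw [hb]; simpa using h0 _
    rcases he with he | ⟨m'', hm'', he⟩
    · rw [he]; simpa using h0 _
    exact cast_hom ((hb.mul he).mul hc) (by omega)
  · rcases he with he | ⟨m'', hm'', he⟩
    · rw [he]; simpa using h0 _
    exact cast_hom (((he.pow 2).mul hc).mul hX) (by simp; omega)
  · rcases ha with ha | ⟨m, hm, ha⟩
    · rw [ha]; simpa using h0 _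
    rcases hb with hb | ⟨m', hm', hb⟩
    · rw [hb]; simpa using h0 _
    exact cast_hom ((ha.mul hb).mul hX) (by omega)
  · rcases hb with hb | ⟨m', hm', hb⟩
    · rw [hb]; simpa using h0 _
    exact cast_hom ((hb.pow 2).mul (hX.pow 2)) (by simp; omega)
  · rcases ha with ha | ⟨m, hm, ha⟩
    · rw [ha]; simpa using h0 _
    rcases he with he | ⟨m'', hm'', he⟩
    · rw [he]; simpa using h0 _
    exact cast_hom ((ha.mul he).mul (hX.pow 2)) (by simp; omega)

private theorem homP {a b e : MvPolynomial (Fin 5) k} {d : ℕ}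
    (ha : a = 0 ∨ ∃ m, m = d ∧ IsWeightedHomogeneous w5 a m)
    (hb : b = 0 ∨ ∃ m, m + 22 = d ∧ IsWeightedHomogeneous w5 b m)
    (he : e = 0 ∨ ∃ m, m + 44 = d ∧ IsWeightedHomogeneous w5 e m) :
    IsWeightedHomogeneous w5 (a + b * X 3 + e * X 3 ^ 2) d := by
  have h0 : ∀ m, IsWeightedHomogeneous w5 (0 : MvPolynomial (Fin 5) k) m := fun m =>
    isWeightedHomogeneous_zero k w5 m
  have hX : IsWeightedHomogeneous w5 (X 3 : MvPolynomial (Fin 5) k) 22 :=
    isWeightedHomogeneous_X k w5 3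
  refine (IsWeightedHomogeneous.add ?_ ?_).add ?_
  · rcases ha with ha | ⟨m, hm, ha⟩
    · rw [ha]; exact h0 _
    · exact cast_hom ha hm
  · rcases hb with hb | ⟨m', hm', hb⟩
    · rw [hb]; simpa using h0 _
    exact cast_hom (hb.mul hX) (by omega)
  · rcases he with he | ⟨m'', hm'', he⟩
    · rw [he]; simpa using h0 _
    exact cast_hom (he.mul (hX.pow 2)) (by simp; omega)

theorem normX (B : ℚ) (hz : D.w 0 ≤ B) (h1 : 3 * (D.w 1 + D.e 3) ≤ 5 * B)
    (h2 : 3 * (D.w 2 + D.e 3) ≤ 6 * B) (h4 : 3 * (D.w 4 + D.e 3) ≤ 33 * B) (d : ℕ)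
    (P : MvPolynomial (Fin 5) k) (hP : IsWeightedHomogeneous w5 P d) (hd : ¬ gH D.t ∣ P) :
    D.vh d P ≤ d * B := by
  classical
  induction d using Nat.strong_induction_on generalizing P with
  | _ d ih =>
  have hg := gH_cX D.t
  obtain ⟨α, hα, hαw, hdvd⟩ := exists_nf w5 3 3 (by norm_num) (cX D.t) (cX_free D.t)
    (cX_hom D.t) d P hP
  rw [hg, Fin.sum_univ_three] at hdvd
  have hw3 : w5 3 = 22 := rfl
  obtain ⟨a, ha0⟩ : ∃ a, a = α 0 := ⟨_, rfl⟩
  obtain ⟨b, hb0⟩ : ∃ b, b = α 1 := ⟨_, rfl⟩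
  obtain ⟨e, he0⟩ : ∃ e, e = α 2 := ⟨_, rfl⟩
  have ha : a = 0 ∨ ∃ m, m = d ∧ IsWeightedHomogeneous w5 a m := by
    rw [ha0]
    rcases hαw 0 with h | ⟨m, hm, h⟩
    · exact Or.inl h
    · exact Or.inr ⟨m, by simpa using hm, h⟩
  have hb : b = 0 ∨ ∃ m, m + 22 = d ∧ IsWeightedHomogeneous w5 b m := by
    rw [hb0]
    rcases hαw 1 with h | ⟨m, hm, h⟩
    · exact Or.inl h
    · exact Or.inr ⟨m, by simpa [hw3] using hm, h⟩
  have he : e = 0 ∨ ∃ m, m + 44 = d ∧ IsWeightedHomogeneous w5 e m := by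
    rw [he0]
    rcases hαw 2 with h | ⟨m, hm, h⟩
    · exact Or.inl h
    · exact Or.inr ⟨m, by simpa [hw3] using hm, h⟩
  have hPP : gH D.t ∣ P - (a + b * X 3 + e * X 3 ^ 2) := by
    rw [ha0, hb0, he0]
    simpa using hdvd
  have hne : a ≠ 0 ∨ b ≠ 0 ∨ e ≠ 0 := by
    by_contra hcon
    push Not at hcon
    apply hd
    rw [hcon.1, hcon.2.1, hcon.2.2] at hPP
    simpa using hPP
  have hc66 : IsWeightedHomogeneous w5 (-cX D.t) 66 := (cX_hom D.t).neg
  obtain ⟨c, hc⟩ : ∃ c, c = -cX D.t := ⟨_, rfl⟩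
  have hgc : gH D.t = X 3 ^ 3 - c := by
    rw [hc, sub_neg_eq_add]
    exact hg.symm
  have hcw : IsWeightedHomogeneous w5 c 66 := by rw [hc]; exact hc66
  have hNw := homN ha hb he hcw
  have hQw := homQ ha hb he hcw
  have hPw := homP ha hb he
  obtain ⟨N, hN⟩ : ∃ N, N = a ^ 3 + b ^ 3 * c + e ^ 3 * c ^ 2 - 3 * a * b * e * c := ⟨_, rfl⟩
  obtain ⟨Q, hQ⟩ : ∃ Q, Q = a ^ 2 - b * e * c + (e ^ 2 * c - a * b) * X 3 +
      (b ^ 2 - a * e) * X 3 ^ 2 := ⟨_, rfl⟩
  obtain ⟨P', hP'⟩ : ∃ P', P' = a + b * X 3 + e * X 3 ^ 2 := ⟨_, rfl⟩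
  rw [← hN] at hNw
  rw [← hQ] at hQw
  rw [← hP'] at hPw hPP
  have hN0 : N ≠ 0 := by
    rw [hN]
    refine cub_ne a b e c 4 ?_ hne
    rw [hc, deg_c]
    norm_num
  have hid : P' * Q - N = gH D.t * ((b ^ 3 + e ^ 3 * c - 2 * a * b * e) +
      (e * b ^ 2 - a * e ^ 2) * X 3) := by
    rw [hP', hQ, hN, hgc]
    ring
  have hevP : D.ev P = D.ev P' := D.ev_congr hPP
  have hevN : D.ev P' * D.ev Q = D.ev N := by
    rw [← D.ev_mul]
    exact D.ev_congr ⟨_, hid⟩
  have hc3 : pderiv 3 c = 0 := by rw [hc, map_neg, cX_free, neg_zero]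
  have ha3 : pderiv 3 a = 0 := by rw [ha0]; exact hα 0
  have hb3 : pderiv 3 b = 0 := by rw [hb0]; exact hα 1
  have he3 : pderiv 3 e = 0 := by rw [he0]; exact hα 2
  have hN3 : pderiv 3 N = 0 := by
    have h30 : pderiv (3 : Fin 5) (3 : MvPolynomial (Fin 5) k) = 0 := by
      have : (3 : MvPolynomial (Fin 5) k) = C 3 := (map_ofNat C 3).symm
      rw [this]
      exact pderiv_C
    rw [hN]
    simp only [map_add, map_sub]
    rw [ppow ha3, pmul (ppow hb3 _) hc3, pmul (ppow he3 _) (ppow hc3 _),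
      pmul (pmul (pmul (pmul h30 ha3) hb3) he3) hc3]
    simp
  have hevN0 : D.ev N ≠ 0 := D.ev_ne_free hNw hN0 3 hN3
  have hevQ0 : D.ev Q ≠ 0 := by
    intro h0
    rw [h0, mul_zero] at hevN
    exact hevN0 hevN.symm
  have hevP0 : D.ev P' ≠ 0 := by
    intro h0
    rw [h0, zero_mul] at hevN
    exact hevN0 hevN.symm
  have hvhP : D.vh d P = D.vh d P' := by
    unfold vh
    rw [hevP]
  have hvle : D.vh d P' ≤ D.vh (3 * d) N := by
    have h5 := D.vh_nonneg hQw hevQ0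
    have h6 : D.v (D.ev N) = D.v (D.ev P') + D.v (D.ev Q) := by
      rw [← hevN]
      exact D.mul _ _ hevP0 hevQ0
    unfold vh at h5 ⊢
    rw [h6]
    push_cast at h5 ⊢
    linarith
  rw [hvhP]
  by_cases hcase : ∃ n ∈ N.support, n 0 = 0
  · obtain ⟨n, hn, hn0⟩ := hcase
    refine hvle.trans ?_
    have h5 := D.top_bound 3 D.vγ_three.1 hNw hN3 hn
    refine h5.trans ?_
    have hn3 : n 3 = 0 := (pderiv_eq_zero_iff N 3).1 hN3 n hn
    have h6 : Finsupp.weight w5 n = 3 * d := hNw (mem_support_iff.1 hn)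
    have h7 : n 1 * 5 + n 2 * 6 + n 4 * 33 = 3 * d := by
      rw [← h6, Finsupp.weight_apply, Finsupp.sum_fintype _ _ (by simp), Fin.sum_univ_five]
      rw [hn0, hn3]
      simp [w5]
    have h8 : (Finset.univ.erase 3 : Finset (Fin 5)) = {0, 1, 2, 4} := by decide
    rw [h8, Finset.sum_insert (by decide), Finset.sum_insert (by decide),
      Finset.sum_insert (by decide), Finset.sum_singleton, hn0]
    have h9 : ((n 1 : ℕ) : ℚ) * 5 + ((n 2 : ℕ) : ℚ) * 6 + ((n 4 : ℕ) : ℚ) * 33 = 3 * d := by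
      exact_mod_cast h7
    have h10 : (0 : ℚ) ≤ (n 1 : ℕ) := Nat.cast_nonneg _
    have h11 : (0 : ℚ) ≤ (n 2 : ℕ) := Nat.cast_nonneg _
    have h12 : (0 : ℚ) ≤ (n 4 : ℕ) := Nat.cast_nonneg _
    have e1 := mul_le_mul_of_nonneg_left h1 h10
    have e2 := mul_le_mul_of_nonneg_left h2 h11
    have e4 := mul_le_mul_of_nonneg_left h4 h12
    have e5 : (d : ℚ) * B = (((n 1 : ℕ) : ℚ) * (5 * B) + ((n 2 : ℕ) : ℚ) * (6 * B) +
        ((n 4 : ℕ) : ℚ) * (33 * B)) / 3 := by
      have : (d : ℚ) = (((n 1 : ℕ) : ℚ) * 5 + ((n 2 : ℕ) : ℚ) * 6 + ((n 4 : ℕ) : ℚ) * 33) / 3 := by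
        rw [h9]; ring
      rw [this]
      ring
    rw [e5]
    push_cast
    linarith
  · push Not at hcase
    have h5 : zz N = 0 := zz_zero N hcase
    rw [hN] at h5
    have h30 : zz (3 : MvPolynomial (Fin 5) k) = 3 := map_ofNat _ 3
    simp only [map_add, map_sub, map_mul, map_pow, h30] at h5
    have h6 : ¬ (zz a ≠ 0 ∨ zz b ≠ 0 ∨ zz e ≠ 0) := by
      intro h
      refine cub_ne (zz a) (zz b) (zz e) (zz c) 4 ?_ h h5
      rw [hc, deg_c0]
      norm_num
    push Not at h6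
    have hdiv : ∀ p : MvPolynomial (Fin 5) k, zz p = 0 → ∃ q, p = X 0 * q := by
      intro p hp
      have := zz_dvd p
      rw [hp, sub_zero] at this
      exact this
    obtain ⟨a1, ha1⟩ := hdiv a h6.1
    obtain ⟨b1, hb1⟩ := hdiv b h6.2.1
    obtain ⟨e1, he1⟩ := hdiv e h6.2.2
    have hP1 : P' = X 0 * (a1 + b1 * X 3 + e1 * X 3 ^ 2) := by
      rw [hP', ha1, hb1, he1]
      ring
    obtain ⟨P1, hP1'⟩ : ∃ P1, P1 = a1 + b1 * X 3 + e1 * X 3 ^ 2 := ⟨_, rfl⟩
    rw [← hP1'] at hP1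
    have hP1d : ¬ gH D.t ∣ P1 := by
      intro h
      apply hd
      have h7 : gH D.t ∣ P' := by
        rw [hP1]
        exact h.mul_left _
      have h8 : P = (P - P') + P' := by ring
      rw [h8]
      exact dvd_add hPP h7
    have hP10 : P1 ≠ 0 := by
      intro h
      exact hP1d (h ▸ dvd_zero _)
    rw [hP1] at hPw
    obtain ⟨d', hd', hP1w⟩ := hom_div hPw hP10
    have h7 := ih d' (by omega) P1 hP1w hP1d
    have h8 : D.ev P1 ≠ 0 := D.ev_ne hP1w hP1d
    have h9 : D.ev (X 0 : MvPolynomial (Fin 5) k) = 1 := by rw [D.ev_X, D.pt0]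
    have h10 : D.v (D.ev P') = D.v (D.ev P1) := by
      rw [hP1, D.ev_mul, h9, one_mul]
    have h11 : D.vh d P' = D.vh d' P1 + D.w 0 := by
      rw [D.w_zero]
      unfold vh
      rw [h10, ← hd']
      push_cast
      ring
    rw [h11, ← hd']
    push_cast
    linarith

end Pool.Agent.KO.KPt
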