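import Pool.Agent.KO.Key.Star

/-! # Project KO, block KEY: the point 1/11(1,5,6) -/

set_option autoImplicit false

namespace Pool.Agent.KO

open MvPolynomial

section poly

variable {σ k : Type} [Field k] [CharZero k]

/-- All monomials have weight at least `a`. -/
private def Og (w : σ → ℕ) (a : ℕ) (P : MvPolynomial σ k) : Prop :=
  ∀ m, coeff m P ≠ 0 → a ≤ Finsupp.weight w m

private theorem og_mul {w : σ → ℕ} {a b : ℕ} {P Q : MvPolynomial σ k} (hP : Og w a P)
    (hQ : Og w b Q) : Og w (a + b) (P * Q) := by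
  classical
  intro m hm
  rw [coeff_mul] at hm
  obtain ⟨⟨x, y⟩, hxy, h⟩ := Finset.exists_ne_zero_of_sum_ne_zero hm
  have h1 := hP x (left_ne_zero_of_mul h)
  have h2 := hQ y (right_ne_zero_of_mul h)
  have h3 : x + y = m := Finset.HasAntidiagonal.mem_antidiagonal.1 hxy
  rw [← h3, map_add]
  exact add_le_add h1 h2

private theorem og_sub {w : σ → ℕ} {a : ℕ} {P Q : MvPolynomial σ k} (hP : Og w a P)
    (hQ : Og w a Q) : Og w a (P - Q) := by
  intro m hm
  rw [coeff_sub] at hm
  by_cases h : coeff m P = 0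
  · refine hQ m fun h2 => hm ?_
    rw [h, h2, sub_zero]
  · exact hP m h

private theorem og_mono {w : σ → ℕ} {a b : ℕ} (hab : b ≤ a) {P : MvPolynomial σ k}
    (hP : Og w a P) : Og w b P := fun m hm => hab.trans (hP m hm)

private theorem wt_single (w : σ → ℕ) (m : σ →₀ ℕ) (l : σ) :
    Finsupp.weight w (m + Finsupp.single l 1) = Finsupp.weight w m + w l := by
  rw [map_add, Finsupp.weight_single]
  simp

private theorem og_pderiv {w : σ → ℕ} {a b : ℕ} (l : σ) (hab : b + w l ≤ a)
    {P : MvPolynomial σ k} (hP : Og w a P) : Og w b (pderiv l P) := by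
  intro m hm
  rw [coeff_pderiv] at hm
  have h := hP _ (right_ne_zero_of_mul hm)
  rw [wt_single] at h
  omega

/-- Products with derivatives of homogeneous polynomials. -/
private theorem wh_mul_pderiv {w : σ → ℕ} {a d e : ℕ} (l : σ) {A P : MvPolynomial σ k}
    (hA : IsWeightedHomogeneous w A a) (hP : IsWeightedHomogeneous w P d)
    (he : e + w l = a + d) : IsWeightedHomogeneous w (A * pderiv l P) e := by
  classical
  intro m hm
  rw [coeff_mul] at hm
  obtain ⟨⟨x, y⟩, hxy, h⟩ := Finset.exists_ne_zero_of_sum_ne_zero hm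
  have h1 : Finsupp.weight w x = a := hA (left_ne_zero_of_mul h)
  have h2 : coeff y (pderiv l P) ≠ 0 := right_ne_zero_of_mul h
  rw [coeff_pderiv] at h2
  have h3 := hP (right_ne_zero_of_mul h2)
  rw [wt_single] at h3
  have h4 : x + y = m := Finset.HasAntidiagonal.mem_antidiagonal.1 hxy
  rw [← h4, map_add]
  omega

end poly

/-- The weights at the point `1/11(1,5,6)`. -/
private def om : Fin 5 → ℕ := ![1, 5, 6, 0, 0]

private def om4 : Fin 4 → ℕ := ![1, 5, 6, 0]

private theorem wt_om (m : Fin 5 →₀ ℕ) : Finsupp.weight om m = m 0 + 5 * m 1 + 6 * m 2 := by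
  rw [Finsupp.weight_apply, Finsupp.sum_fintype _ _ (by simp), Fin.sum_univ_five]
  simp [om]
  ring

private theorem wt_w5 (m : Fin 5 →₀ ℕ) :
    Finsupp.weight w5 m = m 0 + 5 * m 1 + 6 * m 2 + 22 * m 3 + 33 * m 4 := by
  rw [Finsupp.weight_apply, Finsupp.sum_fintype _ _ (by simp), Fin.sum_univ_five]
  simp [w5]
  ring

variable {k : Type} [Field k] [CharZero k]

/-- The images of the variables. -/
private noncomputable def img : Fin 5 → MvPolynomial (Fin 4) k :=
  ![X 0, X 1, X 2, -(X 3) ^ 2, (X 3) ^ 3]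

private noncomputable def phi : MvPolynomial (Fin 5) k →ₐ[k] MvPolynomial (Fin 4) k :=
  aeval img

private theorem phi_pderiv (l5 : Fin 5) (l4 : Fin 4)
    (hl : (l5 = 0 ∧ l4 = 0) ∨ (l5 = 1 ∧ l4 = 1) ∨ (l5 = 2 ∧ l4 = 2))
    (P : MvPolynomial (Fin 5) k) : phi (pderiv l5 P) = pderiv l4 (phi P) := by
  induction P using MvPolynomial.induction_on with
  | C c => simp [phi]
  | add p q hp hq => rw [map_add, map_add, map_add, map_add, hp, hq]
  | mul_X p i hp =>
    rw [(pderiv l5).leibniz, map_mul, (pderiv l4).leibniz, map_add, smul_eq_mul, smul_eq_mul,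
      smul_eq_mul, smul_eq_mul, map_mul, map_mul, hp]
    have h1 : phi (pderiv l5 (X i : MvPolynomial (Fin 5) k)) = pderiv l4 (phi (X i)) := by
      have h2 : phi (X i : MvPolynomial (Fin 5) k) = img i := aeval_X _ _
      rw [h2]
      rcases hl with ⟨rfl, rfl⟩ | ⟨rfl, rfl⟩ | ⟨rfl, rfl⟩ <;> fin_cases i <;>
        simp [img, pderiv_X]
    rw [h1]

private theorem phi_wh {r : ℕ} {P : MvPolynomial (Fin 5) k}
    (hP : IsWeightedHomogeneous om P r) : IsWeightedHomogeneous om4 (phi P) r := by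
  have h0 : phi P = ∑ m ∈ P.support, C (coeff m P) * ∏ i, img i ^ m i := by
    rw [phi, aeval_def, eval₂_eq', algebraMap_eq]
  have himg : ∀ i : Fin 5, IsWeightedHomogeneous om4 (img i : MvPolynomial (Fin 4) k) (om i) := by
    intro i
    have hX : ∀ j : Fin 4, IsWeightedHomogeneous om4 (X j : MvPolynomial (Fin 4) k) (om4 j) :=
      fun j => isWeightedHomogeneous_X k om4 j
    fin_cases i
    · exact hX 0
    · exact hX 1
    · exact hX 2
    · exact ((hX 3).pow 2).neg
    · exact (hX 3).pow 3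
  rw [h0]
  refine IsWeightedHomogeneous.sum _ _ _ fun m hm => ?_
  refine IsWeightedHomogeneous.C_mul ?_ _
  have h1 := IsWeightedHomogeneous.prod Finset.univ (fun i => (img i : MvPolynomial (Fin 4) k) ^ m i)
    (fun i => m i • om i) (fun i _ => (himg i).pow (m i))
  have h2 : ∑ i, m i • om i = r := by
    rw [← hP (mem_support_iff.1 hm), Finsupp.weight_apply, Finsupp.sum_fintype _ _ (by simp)]
  rwa [h2] at h1

private theorem exists_l {r : ℕ} (hr : 0 < r) {P : MvPolynomial (Fin 5) k}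
    (hP : IsWeightedHomogeneous om P r) (h : phi P ≠ 0) :
    ∃ l : Fin 5, (l = 0 ∨ l = 1 ∨ l = 2) ∧ phi (pderiv l P) ≠ 0 ∧ om l ≤ r := by
  have h1 : ∃ l : Fin 5, (l = 0 ∨ l = 1 ∨ l = 2) ∧ phi (pderiv l P) ≠ 0 := by
    by_contra hcon
    push Not at hcon
    have e0 := hcon 0 (by simp)
    have e1 := hcon 1 (by simp)
    have e2 := hcon 2 (by simp)
    rw [phi_pderiv 0 0 (by simp)] at e0
    rw [phi_pderiv 1 1 (by simp)] at e1
    rw [phi_pderiv 2 2 (by simp)] at e2
    have h2 := (phi_wh hP).sum_weight_X_mul_pderiv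
    rw [Fin.sum_univ_four, e0, e1, e2] at h2
    simp only [mul_zero, smul_zero, zero_add, om4, Matrix.cons_val, zero_smul] at h2
    have h3 := h2.symm
    rw [nsmul_eq_mul] at h3
    rcases mul_eq_zero.1 h3 with h4 | h4
    · have h5 : (r : MvPolynomial (Fin 4) k) ≠ 0 := by exact_mod_cast hr.ne'
      exact h5 h4
    · exact h h4
  obtain ⟨l, hl, h2⟩ := h1
  refine ⟨l, hl, h2, ?_⟩
  have h3 : pderiv l P ≠ 0 := by
    intro h4
    rw [h4, map_zero] at h2
    exact h2 rfl
  obtain ⟨m, hm⟩ := ne_zero_iff.1 h3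
  rw [coeff_pderiv] at hm
  have h5 := hP (right_ne_zero_of_mul hm)
  rw [wt_single] at h5
  omega

private theorem phi_ne {P : MvPolynomial (Fin 5) k} (hP : P ≠ 0)
    (h : ∀ m ∈ P.support, m 4 ≤ 1) : phi P ≠ 0 := by
  classical
  obtain ⟨m0, hm0⟩ := ne_zero_iff.1 hP
  let f : (Fin 5 →₀ ℕ) → (Fin 4 →₀ ℕ) := fun m =>
    Finsupp.equivFunOnFinite.symm ![m 0, m 1, m 2, 2 * m 3 + 3 * m 4]
  have h0 : phi P = ∑ m ∈ P.support, monomial (f m) (coeff m P * (-1) ^ m 3) := by
    rw [phi, aeval_def, eval₂_eq', algebraMap_eq]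
    refine Finset.sum_congr rfl fun m _ => ?_
    rw [monomial_eq, Finsupp.prod_fintype _ _ (by simp), Fin.prod_univ_four, Fin.prod_univ_five]
    have e0 : f m 0 = m 0 := rfl
    have e1 : f m 1 = m 1 := rfl
    have e2 : f m 2 = m 2 := rfl
    have e3 : f m 3 = 2 * m 3 + 3 * m 4 := rfl
    rw [e0, e1, e2, e3]
    simp only [img, Matrix.cons_val]
    rw [neg_pow, C_mul, C_pow, C_neg, C_1, pow_add, pow_mul, pow_mul]
    ring
  intro hc
  have h1 : coeff (f m0) (phi P) = coeff m0 P * (-1) ^ m0 3 := by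
    rw [h0, coeff_sum]
    rw [Finset.sum_eq_single m0]
    · rw [coeff_monomial, if_pos rfl]
    · intro m hm hne
      rw [coeff_monomial, if_neg]
      intro hf
      apply hne
      have g0 : m 0 = m0 0 := DFunLike.congr_fun hf 0
      have g1 : m 1 = m0 1 := DFunLike.congr_fun hf 1
      have g2 : m 2 = m0 2 := DFunLike.congr_fun hf 2
      have g3 : 2 * m 3 + 3 * m 4 = 2 * m0 3 + 3 * m0 4 := DFunLike.congr_fun hf 3
      have g4 := h m hm
      have g5 := h m0 (mem_support_iff.2 hm0)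
      ext i
      fin_cases i
      · exact g0
      · exact g1
      · exact g2
      · change m 3 = m0 3
        omega
      · change m 4 = m0 4
        omega
    · intro hn
      exact absurd (mem_support_iff.2 hm0) hn
  rw [hc, coeff_zero] at h1
  have h2 : coeff m0 P * (-1) ^ m0 3 ≠ 0 := mul_ne_zero hm0 (pow_ne_zero _ (by norm_num))
  exact h2 h1.symm

/-- The part of positive weight of the equation. -/
private noncomputable def rest (t : k) : MvPolynomial (Fin 5) k :=
  C t * X 2 ^ 11 + X 1 * X 0 * X 2 ^ 10 + X 1 ^ 12 * X 2 - X 0 ^ 66 - X 0 ^ 12 * X 2 ^ 9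

private theorem gH_eq (t : k) : gH t = X 4 ^ 2 + X 3 ^ 3 + rest t := by
  unfold gH rest
  ring

private theorem rest_wh (t : k) (w : Fin 5 → ℕ) (h0 : w 0 = 1) (h1 : w 1 = 5) (h2 : w 2 = 6) :
    IsWeightedHomogeneous w (rest t) 66 := by
  have hX : ∀ i : Fin 5, IsWeightedHomogeneous w (X i : MvPolynomial (Fin 5) k) (w i) := fun i =>
    isWeightedHomogeneous_X k w i
  unfold rest
  refine IsWeightedHomogeneous.sub (IsWeightedHomogeneous.sub (IsWeightedHomogeneous.add
    (IsWeightedHomogeneous.add ?_ ?_) ?_) ?_) ?_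
  · have := (isWeightedHomogeneous_C w t).mul ((hX 2).pow 11)
    simpa [h2] using this
  · have := ((hX 1).mul (hX 0)).mul ((hX 2).pow 10)
    simpa [h0, h1, h2] using this
  · have := ((hX 1).pow 12).mul (hX 2)
    simpa [h1, h2] using this
  · have := (hX 0).pow 66
    simpa [h0] using this
  · have := ((hX 0).pow 12).mul ((hX 2).pow 9)
    simpa [h0, h2] using this

private theorem pderiv_four (t : k) : pderiv 4 (gH t) = 2 * X 4 := by
  rw [gH_eq, rest]
  simp [pderiv_X, Derivation.leibniz, Derivation.leibniz_pow]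

private theorem pderiv_low (t : k) (l : Fin 5) (hl : l = 0 ∨ l = 1 ∨ l = 2) :
    pderiv l (gH t) = pderiv l (rest t) := by
  rw [gH_eq, map_add, map_add]
  rcases hl with rfl | rfl | rfl <;> simp [pderiv_X, Derivation.leibniz_pow]

/-- The lowest part of `P` has weight `r` and does not vanish on the cuspidal curve. -/
private def Low (d r : ℕ) (P : MvPolynomial (Fin 5) k) : Prop :=
  ∃ P0 R, P = P0 + R ∧ IsWeightedHomogeneous w5 P0 d ∧ IsWeightedHomogeneous w5 R d ∧
    IsWeightedHomogeneous om P0 r ∧ Og om (r + 1) R ∧ phi P0 ≠ 0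

private theorem low_step (t : k) {d r : ℕ} (hr : 0 < r) {P : MvPolynomial (Fin 5) k}
    (h : Low d r P) : ∃ l : Fin 5, (l = 0 ∨ l = 1 ∨ l = 2) ∧ om l ≤ r ∧
      Low (d + 33 - w5 l) (r - om l)
        (pderiv 4 (gH t) * pderiv l P - pderiv l (gH t) * pderiv 4 P) := by
  obtain ⟨P0, R, rfl, h1, h2, h3, h4, h5⟩ := h
  obtain ⟨l, hl, h6, h7⟩ := exists_l hr h3 h5
  have hw5 : w5 l = om l ∧ 0 < om l ∧ om l ≤ 6 := by
    rcases hl with rfl | rfl | rfl <;> simp [w5, om]
  have hg4 : IsWeightedHomogeneous w5 (pderiv 4 (gH t)) 33 :=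
    IsWeightedHomogeneous.pderiv (isWH_gH t) (by simp [w5])
  refine ⟨l, hl, h7, pderiv 4 (gH t) * pderiv l P0,
    pderiv 4 (gH t) * pderiv l R - pderiv l (gH t) * pderiv 4 (P0 + R), ?_, ?_, ?_, ?_, ?_, ?_⟩
  · rw [map_add (pderiv l)]
    ring
  · exact wh_mul_pderiv l hg4 h1 (by omega)
  · refine IsWeightedHomogeneous.sub (wh_mul_pderiv l hg4 h2 (by omega)) ?_
    have hgl : IsWeightedHomogeneous w5 (pderiv l (gH t)) (66 - w5 l) :=
      IsWeightedHomogeneous.pderiv (isWH_gH t) (by omega)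
    refine wh_mul_pderiv 4 hgl (h1.add h2) ?_
    have : w5 4 = 33 := rfl
    omega
  · have hX : IsWeightedHomogeneous om (pderiv 4 (gH t)) 0 := by
      rw [pderiv_four]
      have h8 : (C 2 : MvPolynomial (Fin 5) k) = 2 := map_ofNat C 2
      rw [← h8]
      exact (isWeightedHomogeneous_C om (2 : k)).mul (isWeightedHomogeneous_X k om 4)
    exact wh_mul_pderiv l hX h3 (by omega)
  · refine og_sub ?_ ?_
    · have hX : Og om 0 (pderiv 4 (gH t)) := fun _ _ => Nat.zero_le _
      exact og_mono (by omega) (og_mul hX (og_pderiv (b := r - om l + 1) l (by omega) h4))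
    · have hl60 : Og om 60 (pderiv l (gH t)) := by
        rw [pderiv_low t l hl]
        refine og_pderiv (a := 66) l (by omega) fun m hm => ?_
        exact (rest_wh t om rfl rfl rfl hm).ge
      have hP : Og om r (P0 + R) := by
        intro m hm
        rw [coeff_add] at hm
        by_cases h8 : coeff m P0 = 0
        · rw [h8, zero_add] at hm
          exact (Nat.le_succ r).trans (h4 m hm)
        · exact (h3 h8).ge
      have hP4 : Og om r (pderiv 4 (P0 + R)) := og_pderiv 4 (by simp [om]) hP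
      exact og_mono (by omega) (og_mul hl60 hP4)
  · rw [map_mul, pderiv_four, map_mul]
    refine mul_ne_zero (mul_ne_zero ?_ ?_) h6
    · rw [map_ofNat]
      exact two_ne_zero
    · have h8 : phi (X 4 : MvPolynomial (Fin 5) k) = (X 3) ^ 3 := aeval_X _ _
      rw [h8]
      exact pow_ne_zero _ (X_ne_zero _)

/-- The sum over the monomials of weight zero. -/
private theorem cusp_sum {A : Type} [CommRing A] [Algebra k A] (P : MvPolynomial (Fin 5) k)
    (s : ℕ) (hs : ∀ m ∈ P.support, 2 * m 3 + 3 * m 4 = s) (τ : A) :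
    ∑ m ∈ P.support, algebraMap k A (coeff m P) * ((-τ ^ 2) ^ m 3 * (τ ^ 3) ^ m 4) =
      algebraMap k A (∑ m ∈ P.support, coeff m P * (-1) ^ m 3) * τ ^ s := by
  rw [map_sum, Finset.sum_mul]
  refine Finset.sum_congr rfl fun m hm => ?_
  rw [← hs m hm, neg_pow, map_mul, map_pow, map_neg, map_one, pow_add, pow_mul, pow_mul]
  ring

namespace KPt

variable {E : Type} [Field E] [Algebra k E] (D : KPt k E)

private theorem ev_eq (P : MvPolynomial (Fin 5) k) :
    D.ev P = ∑ m ∈ P.support, algebraMap k E (coeff m P) * ∏ i, D.pt i ^ m i := by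
  rw [ev, aeval_def, eval₂_eq']

private theorem v_mon (m : Fin 5 →₀ ℕ) : (D.v (∏ i, D.pt i ^ m i) : ℚ) =
    ∑ i, m i * D.w i + (Finsupp.weight w5 m : ℕ) * D.μ := by
  rw [D.prod _ _ fun i _ => pow_ne_zero _ (D.pt_ne i)]
  have h1 : ∀ i, (D.v (D.pt i ^ m i) : ℚ) = m i * D.w i + m i * w5 i * D.μ := by
    intro i
    rw [D.pow (D.pt_ne i), w]
    push_cast
    ring
  push_cast
  rw [Finset.sum_congr rfl fun i _ => h1 i, Finset.sum_add_distrib, Finsupp.weight_apply,
    Finsupp.sum_fintype _ _ (by simp), ← Finset.sum_mul]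
  simp only [smul_eq_mul, Nat.cast_mul, Nat.cast_sum]

private theorem pos_of_og (h0 : 0 < D.w 0) (h1 : 0 < D.w 1) (h2 : 0 < D.w 2) {d : ℕ}
    {P : MvPolynomial (Fin 5) k} (hP : IsWeightedHomogeneous w5 P d) (ho : Og om 1 P) :
    D.ev P = 0 ∨ 0 < D.vh d P := by
  have h3 : D.ev P = 0 ∨ ⌊(d : ℚ) * D.μ⌋ + 1 ≤ D.v (D.ev P) := by
    rw [ev_eq]
    refine D.sum_ge _ _ _ fun m hm => Or.inr ?_
    have hc := mem_support_iff.1 hm
    rw [D.const_mul hc, Int.add_one_le_iff, Int.floor_lt, v_mon, hP hc]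
    have h4 := ho m hc
    rw [wt_om] at h4
    have hw : ∀ i, 0 ≤ (m i : ℚ) * D.w i := fun i => mul_nonneg (Nat.cast_nonneg _) (D.w_nonneg i)
    have h5 : 0 < ∑ i, (m i : ℚ) * D.w i := by
      have h6 : ∃ i : Fin 5, 0 < (m i : ℚ) * D.w i := by
        rcases Nat.eq_zero_or_pos (m 0) with g0 | g0
        · rcases Nat.eq_zero_or_pos (m 1) with g1 | g1
          · have g2 : 0 < m 2 := by omega
            exact ⟨2, mul_pos (by exact_mod_cast g2) h2⟩
          · exact ⟨1, mul_pos (by exact_mod_cast g1) h1⟩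
        · exact ⟨0, mul_pos (by exact_mod_cast g0) h0⟩
      obtain ⟨i, hi⟩ := h6
      exact Finset.sum_pos' (fun j _ => hw j) ⟨i, Finset.mem_univ i, hi⟩
    linarith
  refine h3.imp id fun h => ?_
  rw [vh, sub_pos]
  exact Int.floor_lt.1 (Int.add_one_le_iff.1 h)

private theorem zero_part (h0 : 0 < D.w 0) (h1 : 0 < D.w 1) (h2 : 0 < D.w 2) (h3 : D.w 3 = 0)
    (h4 : D.w 4 = 0) {d : ℕ} {P : MvPolynomial (Fin 5) k} (hP : IsWeightedHomogeneous w5 P d)
    (ho : IsWeightedHomogeneous om P 0) (hp : phi P ≠ 0) : D.ev P ≠ 0 ∧ D.vh d P = 0 := by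
  have hX0 := D.pt_ne 3
  have hY0 := D.pt_ne 4
  have hvX : (D.v (D.pt 3) : ℚ) = 22 * D.μ := by
    have h : w5 3 = 22 := rfl
    rw [w, h] at h3
    push_cast at h3
    linarith
  have hvY : (D.v (D.pt 4) : ℚ) = 33 * D.μ := by
    have h : w5 4 = 33 := rfl
    rw [w, h] at h4
    push_cast at h4
    linarith
  have hsup : ∀ m ∈ P.support, m 0 = 0 ∧ m 1 = 0 ∧ m 2 = 0 ∧ 22 * m 3 + 33 * m 4 = d := by
    intro m hm
    have g1 := ho (mem_support_iff.1 hm)
    have g2 := hP (mem_support_iff.1 hm)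
    rw [wt_om] at g1
    rw [wt_w5] at g2
    omega
  obtain ⟨s, hs⟩ : ∃ s, ∀ m ∈ P.support, 2 * m 3 + 3 * m 4 = s :=
    ⟨d / 11, fun m hm => by have := (hsup m hm).2.2.2; omega⟩
  set c : k := ∑ m ∈ P.support, coeff m P * (-1) ^ m 3 with hcdef
  have hc : c ≠ 0 := by
    intro hc0
    apply hp
    have g1 : phi P = ∑ m ∈ P.support, algebraMap k (MvPolynomial (Fin 4) k) (coeff m P) *
        ((-(X 3) ^ 2) ^ m 3 * ((X 3) ^ 3) ^ m 4) := by
      rw [phi, aeval_def, eval₂_eq']
      refine Finset.sum_congr rfl fun m hm => ?_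
      obtain ⟨a0, a1, a2, -⟩ := hsup m hm
      rw [Fin.prod_univ_five, a0, a1, a2]
      simp [img]
    rw [g1, cusp_sum P s hs, ← hcdef, hc0, map_zero, zero_mul]
  have hne : P.support.Nonempty := by
    rw [Finset.nonempty_iff_ne_empty]
    intro he
    rw [he, Finset.sum_empty] at hcdef
    exact hc hcdef
  have hsd : 11 * s = d := by
    obtain ⟨m, hm⟩ := hne
    have g1 := hs m hm
    have g2 := (hsup m hm).2.2.2
    omega
  set x := D.pt 3 with hx
  set y := D.pt 4 with hy
  set τ : E := -(y / x) with hτ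
  set ρ : E := -(y ^ 2 / x ^ 3) with hρ
  have hτ0 : τ ≠ 0 := neg_ne_zero.2 (div_ne_zero hY0 hX0)
  have hρ0 : ρ ≠ 0 := neg_ne_zero.2 (div_ne_zero (pow_ne_zero _ hY0) (pow_ne_zero _ hX0))
  have hvτ : (D.v τ : ℚ) = 11 * D.μ := by
    rw [hτ, D.neg, D.div' hY0 hX0]
    push_cast
    rw [hvX, hvY]
    ring
  have e2 : -τ ^ 2 = x * ρ := by
    rw [hτ, hρ]
    field_simp
  have e3 : τ ^ 3 = y * ρ := by
    rw [hτ, hρ]
    field_simp
  have hvρ : D.v ρ = 0 := by
    have : (D.v ρ : ℚ) = 0 := by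
      rw [hρ, D.neg, D.div' (pow_ne_zero _ hY0) (pow_ne_zero _ hX0), D.pow hY0, D.pow hX0]
      push_cast
      rw [hvX, hvY]
      ring
    exact_mod_cast this
  have hρ1 : 1 - ρ = 0 ∨ 1 ≤ D.v (1 - ρ) := by
    have g1 : 1 - ρ = (y ^ 2 + x ^ 3) / x ^ 3 := by
      rw [hρ]
      field_simp
      ring
    have g2 : y ^ 2 + x ^ 3 = D.ev (-rest D.t) := by
      have g3 := D.ev_gH
      rw [gH_eq, D.ev_add, D.ev_add, D.ev_pow, D.ev_pow, D.ev_X, D.ev_X] at g3
      rw [D.ev_neg]
      exact eq_neg_of_add_eq_zero_left g3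
    have g4 := D.pos_of_og h0 h1 h2 (d := 66) (P := -rest D.t)
      (rest_wh D.t w5 rfl rfl rfl).neg (fun m hm => by
        rw [coeff_neg, neg_ne_zero] at hm
        rw [rest_wh D.t om rfl rfl rfl hm]
        norm_num)
    rw [← g2] at g4
    rcases g4 with g4 | g4
    · left
      rw [g1, g4, zero_div]
    · by_cases g5 : y ^ 2 + x ^ 3 = 0
      · left
        rw [g1, g5, zero_div]
      right
      rw [g1, D.div' g5 (pow_ne_zero _ hX0), D.pow hX0]
      rw [vh, ← g2] at g4
      have g6 : (0 : ℚ) < ((D.v (y ^ 2 + x ^ 3) - (3 : ℕ) * D.v x : ℤ) : ℚ) := by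
        push_cast at g4 ⊢
        rw [hvX]
        linarith
      have g7 : 0 < D.v (y ^ 2 + x ^ 3) - (3 : ℕ) * D.v x := by exact_mod_cast g6
      exact g7
  have hρn : ∀ n : ℕ, 1 - ρ ^ n = 0 ∨ 1 ≤ D.v (1 - ρ ^ n) := by
    intro n
    induction n with
    | zero => left; simp
    | succ n ih =>
      have g1 : 1 - ρ ^ (n + 1) = (1 - ρ ^ n) + ρ ^ n * (1 - ρ) := by ring
      rw [g1]
      refine D.add_ge ih ?_
      have g2 : ρ ^ n = 0 ∨ 0 ≤ D.v (ρ ^ n) := by
        right
        rw [D.pow hρ0, hvρ]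
        simp
      have g3 := D.mul_ge g2 hρ1
      rwa [zero_add] at g3
  -- the value
  have hcτ0 : algebraMap k E c * τ ^ s ≠ 0 :=
    mul_ne_zero ((map_ne_zero_iff _ (algebraMap k E).injective).2 hc) (pow_ne_zero _ hτ0)
  have hvc : (D.v (algebraMap k E c * τ ^ s) : ℚ) = d * D.μ := by
    rw [D.const_mul hc, D.pow hτ0, ← hsd]
    push_cast
    rw [hvτ]
    ring
  have hev : D.ev P = algebraMap k E c * τ ^ s +
      ∑ m ∈ P.support, algebraMap k E (coeff m P) * (x ^ m 3 * y ^ m 4 *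
        (1 - ρ ^ (m 3 + m 4))) := by
    rw [hcdef, ← cusp_sum P s hs τ, ← Finset.sum_add_distrib, ev_eq]
    refine Finset.sum_congr rfl fun m hm => ?_
    obtain ⟨a0, a1, a2, -⟩ := hsup m hm
    rw [Fin.prod_univ_five, a0, a1, a2, e2, e3]
    ring
  have hsum : (∑ m ∈ P.support, algebraMap k E (coeff m P) * (x ^ m 3 * y ^ m 4 *
        (1 - ρ ^ (m 3 + m 4)))) = 0 ∨ D.v (algebraMap k E c * τ ^ s) + 1 ≤
      D.v (∑ m ∈ P.support, algebraMap k E (coeff m P) * (x ^ m 3 * y ^ m 4 *
        (1 - ρ ^ (m 3 + m 4)))) := by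
    refine D.sum_ge _ _ _ fun m hm => ?_
    have g1 : x ^ m 3 * y ^ m 4 ≠ 0 := mul_ne_zero (pow_ne_zero _ hX0) (pow_ne_zero _ hY0)
    have g2 : D.v (algebraMap k E c * τ ^ s) = D.v (x ^ m 3 * y ^ m 4) := by
      have g3 : (D.v (algebraMap k E c * τ ^ s) : ℚ) = D.v (x ^ m 3 * y ^ m 4) := by
        rw [hvc, D.mul _ _ (pow_ne_zero _ hX0) (pow_ne_zero _ hY0), D.pow hX0, D.pow hY0]
        push_cast
        rw [hvX, hvY]
        have g4 : ((22 * m 3 + 33 * m 4 : ℕ) : ℚ) = d := by rw [(hsup m hm).2.2.2]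
        push_cast at g4
        rw [← g4]
        ring
      exact_mod_cast g3
    rcases hρn (m 3 + m 4) with g5 | g5
    · left
      rw [g5, mul_zero, mul_zero]
    · by_cases g6 : 1 - ρ ^ (m 3 + m 4) = 0
      · left
        rw [g6, mul_zero, mul_zero]
      right
      rw [D.const_mul (mem_support_iff.1 hm), D.mul _ _ g1 g6, g2]
      omega
  have hfin := D.add_of_lt hcτ0 (hsum.imp id fun h => by omega)
  rw [← hev] at hfin
  refine ⟨hfin.1, ?_⟩
  rw [vh, hfin.2, hvc, sub_self]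

private theorem low_bound (h0 : 0 < D.w 0) (h1 : 0 < D.w 1) (h2 : 0 < D.w 2) (h3 : D.w 3 = 0)
    (h4 : D.w 4 = 0) (B : ℚ) (b0 : D.A - D.w 1 - D.w 2 ≤ B) (b1 : D.A - D.w 0 - D.w 2 ≤ 5 * B)
    (b2 : D.A - D.w 0 - D.w 1 ≤ 6 * B) (r : ℕ) : ∀ (d : ℕ) (P : MvPolynomial (Fin 5) k),
    Low d r P → D.ev P ≠ 0 ∧ D.vh d P ≤ r * B := by
  induction r using Nat.strong_induction_on with
  | _ r ih =>
  intro d P hP
  rcases Nat.eq_zero_or_pos r with hr | hr
  · subst hr
    obtain ⟨P0, R, rfl, g1, g2, g3, g4, g5⟩ := hP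
    have g6 := D.zero_part h0 h1 h2 h3 h4 g1 g3 g5
    have g7 := D.vh_add_eq g6.1 g6.2 (D.pos_of_og h0 h1 h2 g2 g4)
    exact ⟨g7.1, by rw [g7.2]; simp⟩
  · obtain ⟨l, hl, hlr, hlow⟩ := low_step D.t hr hP
    obtain ⟨P0, R, rfl, g1, g2, g3, g4, g5⟩ := hP
    have hPd : IsWeightedHomogeneous w5 (P0 + R) d := g1.add g2
    have hom : 0 < om l := by rcases hl with rfl | rfl | rfl <;> simp [om]
    have hwl : w5 l ≤ 33 := by rcases hl with rfl | rfl | rfl <;> simp [w5]
    obtain ⟨g6, g7⟩ := ih (r - om l) (by omega) _ _ hlow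
    have hevD : D.ev (pderiv 4 (gH D.t) * pderiv l (P0 + R) -
        pderiv l (gH D.t) * pderiv 4 (P0 + R)) =
        D.γ 4 * D.ev (pderiv l (P0 + R)) - D.γ l * D.ev (pderiv 4 (P0 + R)) := by
      rw [D.ev_sub, D.ev_mul, D.ev_mul]
      rfl
    refine ⟨fun hz => g6 ?_, ?_⟩
    · have hdvd : gH D.t ∣ P0 + R := by
        by_contra hcon
        exact D.ev_ne hPd hcon hz
      obtain ⟨Q, hQ⟩ := hdvd
      rw [hevD, hQ, (pderiv l).leibniz, (pderiv 4).leibniz]
      simp only [smul_eq_mul, ev_add, ev_mul, ev_gH, γ]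
      ring
    · have hst := D.star 4 l (by rcases hl with rfl | rfl | rfl <;> decide) hPd
        (by rw [← hevD]; exact g6)
      rw [← hevD] at hst
      rw [vh, Nat.cast_sub (by omega), Nat.cast_sub hlr] at g7
      have hw4 : w5 4 = 33 := rfl
      rw [hw4] at hst
      push_cast at hst g7
      have hsum : ∑ i ∈ (Finset.univ.erase (4 : Fin 5)).erase l, D.w i =
          D.w 0 + D.w 1 + D.w 2 - D.w l := by
        rcases hl with rfl | rfl | rfl
        · have e : (Finset.univ.erase (4 : Fin 5)).erase 0 = {1, 2, 3} := by decide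
          rw [e, Finset.sum_insert (by decide), Finset.sum_insert (by decide),
            Finset.sum_singleton, h3]
          ring
        · have e : (Finset.univ.erase (4 : Fin 5)).erase 1 = {0, 2, 3} := by decide
          rw [e, Finset.sum_insert (by decide), Finset.sum_insert (by decide),
            Finset.sum_singleton, h3]
          ring
        · have e : (Finset.univ.erase (4 : Fin 5)).erase 2 = {0, 1, 3} := by decide
          rw [e, Finset.sum_insert (by decide), Finset.sum_insert (by decide),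
            Finset.sum_singleton, h3]
          ring
      rw [hsum] at hst
      have hb : D.A - (D.w 0 + D.w 1 + D.w 2 - D.w l) ≤ om l * B := by
        rcases hl with rfl | rfl | rfl
        · have e : ((om 0 : ℕ) : ℚ) = 1 := by simp [om]
          rw [e]
          linarith
        · have e : ((om 1 : ℕ) : ℚ) = 5 := by simp [om]
          rw [e]
          linarith
        · have e : ((om 2 : ℕ) : ℚ) = 6 := by simp [om]
          rw [e]
          linarith
      nlinarith

theorem p11 (h0 : 0 < D.w 0) (h1 : 0 < D.w 1) (h2 : 0 < D.w 2) (h3 : D.w 3 = 0) (h4 : D.w 4 = 0)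
    (B : ℚ) (b0 : D.A - D.w 1 - D.w 2 ≤ B) (b1 : D.A - D.w 0 - D.w 2 ≤ 5 * B)
    (b2 : D.A - D.w 0 - D.w 1 ≤ 6 * B) (d : ℕ)
    (P : MvPolynomial (Fin 5) k) (hP : IsWeightedHomogeneous w5 P d) (hd : ¬ gH D.t ∣ P) :
    D.vh d P ≤ d * B := by
  classical
  -- `B` is not negative
  have hB : 0 ≤ B := by
    have g1 := D.log_ineq 4 D.vγ_four.1
    rw [e, D.vγ_four.2, h4] at g1
    have e4 : (Finset.univ.erase (4 : Fin 5)) = {0, 1, 2, 3} := by decide
    rw [e4, Finset.sum_insert (by decide), Finset.sum_insert (by decide),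
      Finset.sum_insert (by decide), Finset.sum_singleton, h3] at g1
    linarith
  -- the normal form
  have hgc : gH D.t = X 4 ^ 2 + (X 3 ^ 3 + rest D.t) := by rw [gH_eq]; ring
  have hc4 : pderiv 4 (X 3 ^ 3 + rest D.t) = 0 := by
    rw [rest]
    simp [pderiv_X, Derivation.leibniz, Derivation.leibniz_pow]
  have hcw : IsWeightedHomogeneous w5 (X 3 ^ 3 + rest D.t) (2 * w5 4) :=
    ((isWeightedHomogeneous_X k w5 3).pow 3).add (rest_wh D.t w5 rfl rfl rfl)
  obtain ⟨α, hα, hαw, hdiv⟩ := exists_nf w5 4 2 (by norm_num) _ hc4 hcw d P hP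
  rw [← hgc, Fin.sum_univ_two] at hdiv
  simp only [Fin.val_zero, Fin.val_one, pow_zero, pow_one, mul_one] at hdiv
  set N := α 0 + α 1 * X 4 with hN
  have hN0 : N ≠ 0 := by
    intro h
    rw [h, sub_zero] at hdiv
    exact hd hdiv
  have hNw : IsWeightedHomogeneous w5 N d := by
    refine IsWeightedHomogeneous.add ?_ ?_
    · rcases hαw 0 with h | ⟨e, he, h⟩
      · rw [h]
        exact isWeightedHomogeneous_zero k w5 d
      · have : e = d := by simpa using he
        rwa [this] at h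
    · rcases hαw 1 with h | ⟨e, he, h⟩
      · rw [h, zero_mul]
        exact isWeightedHomogeneous_zero k w5 d
      · have g := h.mul (isWeightedHomogeneous_X k w5 4)
        have : e + w5 4 = d := by simpa using he
        rwa [this] at g
  have hNs : ∀ m ∈ N.support, m 4 ≤ 1 := by
    intro m hm
    have g1 := (pderiv_eq_zero_iff (α 0) 4).1 (hα 0)
    have g2 := (pderiv_eq_zero_iff (α 1) 4).1 (hα 1)
    have hm' := mem_support_iff.1 hm
    rw [hN, coeff_add] at hm'
    by_cases h : coeff m (α 0) = 0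
    · rw [h, zero_add, coeff_mul_X'] at hm'
      split_ifs at hm' with g3
      · have g4 := g2 _ (mem_support_iff.2 hm')
        rw [Finsupp.tsub_apply, Finsupp.single_eq_same] at g4
        omega
      · exact absurd rfl hm'
    · have g4 := g1 m (mem_support_iff.2 h)
      omega
  -- the lowest part
  obtain ⟨m0, hm0, hmin⟩ := N.support.exists_min_image (fun m => Finsupp.weight om m)
    (by rwa [Finset.nonempty_iff_ne_empty, Ne, support_eq_empty])
  set r := Finsupp.weight om m0 with hr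
  have hlow : Low d r N := by
    refine ⟨weightedHomogeneousComponent om r N, N - weightedHomogeneousComponent om r N,
      by ring, ?_, ?_, weightedHomogeneousComponent_isWeightedHomogeneous _ _, ?_, ?_⟩
    · intro m hm
      rw [coeff_weightedHomogeneousComponent] at hm
      split_ifs at hm with g
      · exact hNw hm
      · exact absurd rfl hm
    · intro m hm
      rw [coeff_sub, coeff_weightedHomogeneousComponent] at hm
      split_ifs at hm with g
      · rw [sub_self] at hm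
        exact absurd rfl hm
      · rw [sub_zero] at hm
        exact hNw hm
    · intro m hm
      rw [coeff_sub, coeff_weightedHomogeneousComponent] at hm
      split_ifs at hm with g
      · rw [sub_self] at hm
        exact absurd rfl hm
      · rw [sub_zero] at hm
        have g1 := hmin m (mem_support_iff.2 hm)
        exact lt_of_le_of_ne g1 (Ne.symm g)
    · refine phi_ne ?_ ?_
      · rw [ne_zero_iff]
        refine ⟨m0, ?_⟩
        rw [coeff_weightedHomogeneousComponent, if_pos rfl]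
        exact mem_support_iff.1 hm0
      · intro m hm
        have g1 := mem_support_iff.1 hm
        rw [coeff_weightedHomogeneousComponent] at g1
        split_ifs at g1 with g
        · exact hNs m (mem_support_iff.2 g1)
        · exact absurd rfl g1
  obtain ⟨-, hb⟩ := D.low_bound h0 h1 h2 h3 h4 B b0 b1 b2 r d N hlow
  have hev : D.vh d P = D.vh d N := by
    rw [vh, vh, D.ev_congr hdiv]
  have hrd : r ≤ d := by
    have g1 := hNw (mem_support_iff.1 hm0)
    rw [wt_w5] at g1
    rw [hr, wt_om]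
    omega
  rw [hev]
  refine hb.trans ?_
  have : (r : ℚ) ≤ d := by exact_mod_cast hrd
  exact mul_le_mul_of_nonneg_right this hB

end KPt

end Pool.Agent.KO
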