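import Mathlib

/-! # Project KO, block KEY: division by a monic polynomial and norms -/

set_option autoImplicit false

namespace Pool.Agent.KO

open MvPolynomial

variable {σ k : Type} [Field k] [CharZero k]

theorem coeff_pderiv (Q : MvPolynomial σ k) (l : σ) (n : σ →₀ ℕ) :
    (pderiv l Q).coeff n = (n l + 1 : k) * Q.coeff (n + Finsupp.single l 1) := by
  classical
  induction Q using MvPolynomial.induction_on' with
  | monomial β c =>
    rw [pderiv_monomial, coeff_monomial, coeff_monomial]
    by_cases h : β = n + Finsupp.single l 1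
    · subst h
      simp
      ring
    · rw [if_neg h, mul_zero]
      split_ifs with h1
      · have h2 : β l = 0 := by
          by_contra h3
          apply h
          rw [← h1]
          ext i
          by_cases hi : i = l
          · subst hi; simp; omega
          · simp [Finsupp.single_apply, Ne.symm hi]
        rw [h2]; simp
      · rfl
  | add p q hp hq => rw [map_add, coeff_add, coeff_add, hp, hq]; ring

theorem pderiv_eq_zero_iff (Q : MvPolynomial σ k) (j : σ) :
    pderiv j Q = 0 ↔ ∀ n ∈ Q.support, n j = 0 := by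
  classical
  constructor
  · intro h n hn
    by_contra hnj
    have h1 := coeff_pderiv Q j (n - Finsupp.single j 1)
    rw [h, coeff_zero] at h1
    have h2 : n - Finsupp.single j 1 + Finsupp.single j 1 = n := by
      ext i
      by_cases hi : i = j
      · subst hi; simp; omega
      · simp [Finsupp.single_apply, Ne.symm hi]
    rw [h2] at h1
    have h3 : (((n - Finsupp.single j 1 : σ →₀ ℕ) j : ℕ) + 1 : k) ≠ 0 :=
      Nat.cast_add_one_ne_zero _
    exact (mul_ne_zero h3 (mem_support_iff.1 hn)) h1.symm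
  · intro h
    ext n
    rw [coeff_pderiv, coeff_zero]
    by_cases h1 : Q.coeff (n + Finsupp.single j 1) = 0
    · rw [h1, mul_zero]
    · have := h _ (mem_support_iff.2 h1)
      simp at this

/-- The property of `exists_nf`. -/
private def NFp (w : σ → ℕ) (j : σ) (m : ℕ) (c : MvPolynomial σ k) (d : ℕ)
    (P : MvPolynomial σ k) : Prop :=
  ∃ α : Fin m → MvPolynomial σ k, (∀ r, pderiv j (α r) = 0) ∧
      (∀ r, α r = 0 ∨ ∃ e, e + r * w j = d ∧ IsWeightedHomogeneous w (α r) e) ∧
      X j ^ m + c ∣ P - ∑ r, α r * X j ^ (r : ℕ)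

omit [CharZero k] in
private theorem NFp_add (w : σ → ℕ) (j : σ) (m : ℕ) (c : MvPolynomial σ k) (d : ℕ)
    (P Q : MvPolynomial σ k) (hP : NFp w j m c d P) (hQ : NFp w j m c d Q) :
    NFp w j m c d (P + Q) := by
  obtain ⟨α, a1, a2, a3⟩ := hP
  obtain ⟨β, b1, b2, b3⟩ := hQ
  refine ⟨fun r => α r + β r, fun r => ?_, fun r => ?_, ?_⟩
  · rw [map_add, a1, b1, add_zero]
  · beta_reduce
    rcases a2 r with h | ⟨e, he, h⟩
    · rw [h, zero_add]; exact b2 r
    · rcases b2 r with h' | ⟨e', he', h'⟩
      · rw [h', add_zero]; exact Or.inr ⟨e, he, h⟩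
      · have : e' = e := by omega
        subst this
        exact Or.inr ⟨e', he, h.add h'⟩
  · have h1 : P + Q - ∑ r, (α r + β r) * X j ^ (r : ℕ) =
        (P - ∑ r, α r * X j ^ (r : ℕ)) + (Q - ∑ r, β r * X j ^ (r : ℕ)) := by
      rw [show (∑ r, (α r + β r) * X j ^ (r : ℕ)) =
        ∑ r, α r * X j ^ (r : ℕ) + ∑ r, β r * X j ^ (r : ℕ) by
          rw [← Finset.sum_add_distrib]
          exact Finset.sum_congr rfl fun r _ => add_mul _ _ _]
      ring
    rw [h1]
    exact dvd_add a3 b3

omit [CharZero k] in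
private theorem NFp_zero (w : σ → ℕ) (j : σ) (m : ℕ) (c : MvPolynomial σ k) (d : ℕ) :
    NFp w j m c d (0 : MvPolynomial σ k) :=
  ⟨fun _ => 0, fun _ => map_zero _, fun _ => Or.inl rfl, by simp⟩

omit [CharZero k] in
private theorem NFp_monomial (w : σ → ℕ) (j : σ) (m : ℕ) (hm : 0 < m) (c : MvPolynomial σ k)
    (hc : pderiv j c = 0) (hcw : IsWeightedHomogeneous w c (m * w j)) (d : ℕ)
    (n : σ →₀ ℕ) (a : k) (hn : Finsupp.weight w n = d) :
    NFp w j m c d (monomial n a) := by
  classical
  set q := n j / m with hq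
  set r := n j % m with hr
  have hrm : r < m := Nat.mod_lt _ hm
  have hnj : m * q + r = n j := Nat.div_add_mod _ _
  set A : MvPolynomial σ k := monomial (n.erase j) a * (-c) ^ q with hA
  have hA1 : pderiv j A = 0 := by
    rw [hA, Derivation.leibniz, Derivation.leibniz_pow, map_neg, hc, pderiv_monomial]
    simp
  have hw1 : Finsupp.weight w n = Finsupp.weight w (n.erase j) + n j * w j := by
    conv_lhs => rw [← Finsupp.erase_add_single j n]
    rw [map_add, Finsupp.weight_single, smul_eq_mul]
  have hA2 : IsWeightedHomogeneous w A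
      (Finsupp.weight w (n.erase j) + q * (m * w j)) := by
    have := (isWeightedHomogeneous_monomial w (n.erase j) a rfl).mul
      (hcw.neg.pow q)
    rwa [smul_eq_mul] at this
  refine ⟨fun i => if i = ⟨r, hrm⟩ then A else 0, fun i => ?_, fun i => ?_, ?_⟩
  · beta_reduce
    split_ifs
    · exact hA1
    · exact map_zero _
  · beta_reduce
    split_ifs with hi
    · refine Or.inr ⟨_, ?_, hA2⟩
      rw [← hn, hw1, hi, ← hnj]
      show _ + q * (m * w j) + r * w j = _
      ring
    · exact Or.inl rfl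
  · have h1 : ∑ i : Fin m, (if i = (⟨r, hrm⟩ : Fin m) then A else 0) * X j ^ (i : ℕ) =
        A * X j ^ r := by
      rw [Finset.sum_eq_single_of_mem (⟨r, hrm⟩ : Fin m) (Finset.mem_univ _)
        (fun i _ hi => by rw [if_neg hi, zero_mul]), if_pos rfl]
    rw [h1]
    have h2 : (monomial n a : MvPolynomial σ k) =
        monomial (n.erase j) a * (X j ^ r * (X j ^ m) ^ q) := by
      rw [← pow_mul, ← pow_add, X_pow_eq_monomial, monomial_mul, mul_one,
        add_comm r, hnj, Finsupp.erase_add_single]
    rw [h2, hA]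
    have h3 : monomial (n.erase j) a * (X j ^ r * (X j ^ m) ^ q) -
        monomial (n.erase j) a * (-c) ^ q * X j ^ r =
        ((X j ^ m) ^ q - (-c) ^ q) * (monomial (n.erase j) a * X j ^ r) := by ring
    rw [h3]
    refine Dvd.dvd.mul_right ?_ _
    have h4 := sub_dvd_pow_sub_pow (X j ^ m : MvPolynomial σ k) (-c) q
    rwa [sub_neg_eq_add] at h4

/-- Homogeneous division by `X j ^ m + c`. -/
theorem exists_nf (w : σ → ℕ) (j : σ) (m : ℕ) (hm : 0 < m) (c : MvPolynomial σ k)
    (hc : pderiv j c = 0) (hcw : IsWeightedHomogeneous w c (m * w j)) (d : ℕ)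
    (P : MvPolynomial σ k) (hP : IsWeightedHomogeneous w P d) :
    ∃ α : Fin m → MvPolynomial σ k, (∀ r, pderiv j (α r) = 0) ∧
      (∀ r, α r = 0 ∨ ∃ e, e + r * w j = d ∧ IsWeightedHomogeneous w (α r) e) ∧
      X j ^ m + c ∣ P - ∑ r, α r * X j ^ (r : ℕ) := by
  have h : NFp w j m c d (∑ n ∈ P.support, monomial n (coeff n P)) :=
    Finset.sum_induction _ (NFp w j m c d) (NFp_add w j m c d) (NFp_zero w j m c d)
      fun n hn => NFp_monomial w j m hm c hc hcw d n _ (hP (mem_support_iff.1 hn))
  rw [support_sum_monomial_coeff] at h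
  exact h

end Pool.Agent.KO
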