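import Pool.Agent.KO.Key.Defs
import Pool.Agent.KO.Key.NF

/-! # Project KO, block KEY: the second weights at the point 1/5(1,2,3) -/

set_option autoImplicit false

namespace Pool.Agent.KO.P5

open MvPolynomial

variable {σ k : Type} [Field k] [CharZero k]

/-- All monomials have weight at least `c`. -/
def Ge (w : σ → ℕ) (c : ℤ) (P : MvPolynomial σ k) : Prop :=
  ∀ n, coeff n P ≠ 0 → c ≤ (Finsupp.weight w n : ℕ)

/-- All monomials have weight `c`. -/
def Gd (w : σ → ℕ) (c : ℤ) (P : MvPolynomial σ k) : Prop :=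
  ∀ n, coeff n P ≠ 0 → ((Finsupp.weight w n : ℕ) : ℤ) = c

omit [CharZero k] in
theorem Gd.ge {w : σ → ℕ} {c : ℤ} {P : MvPolynomial σ k} (h : Gd w c P) : Ge w c P :=
  fun n hn => (h n hn).ge

omit [CharZero k] in
theorem Gd.of_wh {w : σ → ℕ} {d : ℕ} {P : MvPolynomial σ k} (h : IsWeightedHomogeneous w P d) :
    Gd w d P := fun n hn => by exact_mod_cast h hn

omit [CharZero k] in
theorem Gd.wh {w : σ → ℕ} {d : ℕ} {c : ℤ} {P : MvPolynomial σ k} (h : Gd w c P)
    (hc : c = d) : IsWeightedHomogeneous w P d := fun n hn => by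
  have := h n hn
  rw [hc] at this
  exact_mod_cast this

omit [CharZero k] in
theorem Ge.mono {w : σ → ℕ} {c c' : ℤ} {P : MvPolynomial σ k} (h : Ge w c P) (hc : c' ≤ c) :
    Ge w c' P := fun n hn => hc.trans (h n hn)

omit [CharZero k] in
theorem Ge.add {w : σ → ℕ} {c : ℤ} {P Q : MvPolynomial σ k} (hP : Ge w c P) (hQ : Ge w c Q) :
    Ge w c (P + Q) := by
  intro n hn
  by_cases h : coeff n P = 0
  · refine hQ n fun h' => hn ?_
    rw [coeff_add, h, h', add_zero]
  · exact hP n h

omit [CharZero k] in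
theorem Ge.neg {w : σ → ℕ} {c : ℤ} {P : MvPolynomial σ k} (hP : Ge w c P) :
    Ge w c (-P) := by
  intro n hn
  refine hP n fun h => hn ?_
  rw [coeff_neg, h, neg_zero]

omit [CharZero k] in
theorem Ge.sub {w : σ → ℕ} {c : ℤ} {P Q : MvPolynomial σ k} (hP : Ge w c P) (hQ : Ge w c Q) :
    Ge w c (P - Q) := by
  rw [sub_eq_add_neg]
  exact hP.add hQ.neg

omit [CharZero k] in
theorem Gd.sub {w : σ → ℕ} {c : ℤ} {P Q : MvPolynomial σ k} (hP : Gd w c P) (hQ : Gd w c Q) :
    Gd w c (P - Q) := by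
  intro n hn
  by_cases h : coeff n P = 0
  · refine hQ n fun h' => hn ?_
    rw [coeff_sub, h, h', sub_zero]
  · exact hP n h

omit [CharZero k] in
private theorem mul_aux {P Q : MvPolynomial σ k} {n : σ →₀ ℕ} (hn : coeff n (P * Q) ≠ 0) :
    ∃ a b, a + b = n ∧ coeff a P ≠ 0 ∧ coeff b Q ≠ 0 := by
  classical
  rw [coeff_mul] at hn
  obtain ⟨x, hx, hx'⟩ := Finset.exists_ne_zero_of_sum_ne_zero hn
  exact ⟨x.1, x.2, Finset.HasAntidiagonal.mem_antidiagonal.1 hx, left_ne_zero_of_mul hx',
    right_ne_zero_of_mul hx'⟩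

omit [CharZero k] in
theorem Ge.mul {w : σ → ℕ} {c c' : ℤ} {P Q : MvPolynomial σ k} (hP : Ge w c P)
    (hQ : Ge w c' Q) : Ge w (c + c') (P * Q) := by
  intro n hn
  obtain ⟨a, b, rfl, ha, hb⟩ := mul_aux hn
  rw [map_add, Nat.cast_add]
  exact add_le_add (hP a ha) (hQ b hb)

omit [CharZero k] in
theorem Gd.mul {w : σ → ℕ} {c c' : ℤ} {P Q : MvPolynomial σ k} (hP : Gd w c P)
    (hQ : Gd w c' Q) : Gd w (c + c') (P * Q) := by
  intro n hn
  obtain ⟨a, b, rfl, ha, hb⟩ := mul_aux hn
  rw [map_add, Nat.cast_add, hP a ha, hQ b hb]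

private theorem pderiv_aux {P : MvPolynomial σ k} {n : σ →₀ ℕ} {l : σ}
    (hn : coeff n (pderiv l P) ≠ 0) : coeff (n + Finsupp.single l 1) P ≠ 0 := by
  rw [coeff_pderiv] at hn
  exact right_ne_zero_of_mul hn

private theorem weight_aux (w : σ → ℕ) (n : σ →₀ ℕ) (l : σ) :
    Finsupp.weight w (n + Finsupp.single l 1) = Finsupp.weight w n + w l := by
  rw [map_add, Finsupp.weight_single, one_smul]

theorem Ge.pderiv {w : σ → ℕ} {c : ℤ} {P : MvPolynomial σ k} (hP : Ge w c P) (l : σ) :
    Ge w (c - w l) (pderiv l P) := by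
  intro n hn
  have := hP _ (pderiv_aux hn)
  rw [weight_aux] at this
  push_cast at this
  linarith

theorem Gd.pderiv {w : σ → ℕ} {c : ℤ} {P : MvPolynomial σ k} (hP : Gd w c P) (l : σ) :
    Gd w (c - w l) (pderiv l P) := by
  intro n hn
  have := hP _ (pderiv_aux hn)
  rw [weight_aux] at this
  push_cast at this
  linarith

/-- The second weights. -/
def om : Fin 5 → ℕ := ![1, 0, 6, 2, 3]

/-- The images of the variables. -/
noncomputable def fu (k : Type) [Field k] : Fin 5 → MvPolynomial (Fin 4) k :=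
  ![X 0, X 1, -(X 2 ^ 3 + X 3 ^ 2), X 1 ^ 4 * X 2, X 1 ^ 6 * X 3]

/-- The homomorphism killing the lowest part of the equation. -/
noncomputable def ph (k : Type) [Field k] : MvPolynomial (Fin 5) k →ₐ[k] MvPolynomial (Fin 4) k :=
  aeval (fu k)

omit [CharZero k] in
theorem ph_X (i : Fin 5) : ph k (X i) = fu k i := aeval_X _ _

omit [CharZero k] in
private theorem der_aeval (δ : Derivation k (MvPolynomial (Fin 4) k) (MvPolynomial (Fin 4) k))
    (P : MvPolynomial (Fin 5) k) : δ (ph k P) = ∑ j, ph k (pderiv j P) * δ (fu k j) := by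
  induction P using MvPolynomial.induction_on with
  | C c =>
    rw [ph, aeval_C, δ.map_algebraMap]
    simp
  | add p q hp hq =>
    simp only [map_add, hp, hq, add_mul, Finset.sum_add_distrib]
  | mul_X p i hp =>
    rw [map_mul, ph_X, δ.leibniz, smul_eq_mul, smul_eq_mul, hp]
    have h1 : ∀ j, ph k (pderiv j (p * X i)) * δ (fu k j) =
        fu k i * (ph k (pderiv j p) * δ (fu k j)) +
          (if j = i then ph k p * δ (fu k j) else 0) := by
      intro j
      rw [(pderiv j).leibniz, smul_eq_mul, smul_eq_mul, pderiv_X,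
        map_add, map_mul, map_mul, ph_X]
      split_ifs with h
      · subst h
        rw [Pi.single_eq_same, map_one]
        ring
      · rw [Pi.single_eq_of_ne (Ne.symm h), map_zero]
        ring
    rw [Finset.sum_congr rfl fun j _ => h1 j, Finset.sum_add_distrib, ← Finset.mul_sum,
      Finset.sum_ite_eq' Finset.univ i]
    simp only [Finset.mem_univ, if_true]
    ring

omit [CharZero k] in
theorem d0 (P : MvPolynomial (Fin 5) k) : pderiv 0 (ph k P) = ph k (pderiv 0 P) := by
  rw [der_aeval, Fin.sum_univ_five]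
  simp [fu, pderiv_X]

omit [CharZero k] in
theorem d1 (P : MvPolynomial (Fin 5) k) : pderiv 1 (ph k P) = ph k (pderiv 1 P) +
    ph k (pderiv 3 P) * (4 * X 1 ^ 3 * X 2) + ph k (pderiv 4 P) * (6 * X 1 ^ 5 * X 3) := by
  rw [der_aeval, Fin.sum_univ_five]
  simp [fu, pderiv_X]
  ring

omit [CharZero k] in
theorem d2 (P : MvPolynomial (Fin 5) k) : pderiv 2 (ph k P) =
    ph k (pderiv 2 P) * (-3 * X 2 ^ 2) + ph k (pderiv 3 P) * X 1 ^ 4 := by
  rw [der_aeval, Fin.sum_univ_five]
  simp [fu, pderiv_X]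

omit [CharZero k] in
theorem d3 (P : MvPolynomial (Fin 5) k) : pderiv 3 (ph k P) =
    ph k (pderiv 2 P) * (-2 * X 3) + ph k (pderiv 4 P) * X 1 ^ 6 := by
  rw [der_aeval, Fin.sum_univ_five]
  simp [fu, pderiv_X]


omit [CharZero k] in
/-- The constant term of `ph P`. -/
private theorem cc (P : MvPolynomial (Fin 5) k) :
    constantCoeff (ph k P) = constantCoeff P := by
  have h : (constantCoeff.comp (ph k).toRingHom : MvPolynomial (Fin 5) k →+* k) =
      constantCoeff := by
    refine ringHom_ext (fun c => ?_) (fun i => ?_)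
    · simp [ph]
    · fin_cases i <;> simp [ph, fu]
  exact congrArg (fun f : MvPolynomial (Fin 5) k →+* k => f P) h

/-- `ph` is injective on the polynomials free of `X 4`. -/
theorem inj_free (P : MvPolynomial (Fin 5) k) (h4 : pderiv 4 P = 0) (h : ph k P = 0) : P = 0 := by
  have key : ∀ m : ℕ, ∀ n : Fin 5 →₀ ℕ, ∑ i, n i = m → ∀ P : MvPolynomial (Fin 5) k,
      pderiv 4 P = 0 → ph k P = 0 → coeff n P = 0 := by
    intro m
    induction m with
    | zero =>
      intro n hn P _ hP
      have hn0 : n = 0 := by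
        ext i
        exact (Finset.sum_eq_zero_iff.1 hn) i (Finset.mem_univ i)
      have h1 := cc P
      rw [hP, map_zero] at h1
      rw [hn0]
      exact h1.symm
    | succ m ih =>
      intro n hn P h4 hP
      obtain ⟨l, hl⟩ : ∃ l, n l ≠ 0 := by
        by_contra hcon
        push Not at hcon
        simp [hcon] at hn
      have hX1 : (X 1 : MvPolynomial (Fin 4) k) ≠ 0 := X_ne_zero _
      have hX3 : (X 3 : MvPolynomial (Fin 4) k) ≠ 0 := X_ne_zero _
      have e4 : ph k (pderiv 4 P) = 0 := by rw [h4, map_zero]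
      have e2 : ph k (pderiv 2 P) = 0 := by
        have h1 := d3 P
        rw [hP, map_zero, e4, zero_mul, add_zero] at h1
        refine (mul_eq_zero.1 h1.symm).resolve_right (mul_ne_zero ?_ hX3)
        norm_num
      have e3 : ph k (pderiv 3 P) = 0 := by
        have h1 := d2 P
        rw [hP, map_zero, e2, zero_mul, zero_add] at h1
        exact (mul_eq_zero.1 h1.symm).resolve_right (pow_ne_zero _ hX1)
      have e1 : ph k (pderiv 1 P) = 0 := by
        have h1 := d1 P
        rw [hP, map_zero, e3, e4, zero_mul, zero_mul, add_zero, add_zero] at h1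
        exact h1.symm
      have e0 : ph k (pderiv 0 P) = 0 := by
        rw [← d0, hP, map_zero]
      have e : ph k (pderiv l P) = 0 := by
        fin_cases l
        · exact e0
        · exact e1
        · exact e2
        · exact e3
        · exact e4
      have h4' : pderiv 4 (pderiv l P) = 0 := by
        have : pderiv 4 (pderiv l P) = pderiv l (pderiv 4 P) := by
          have h2 : ⁅(pderiv 4 : Derivation k (MvPolynomial (Fin 5) k) (MvPolynomial (Fin 5) k)),
              (pderiv l : Derivation k (MvPolynomial (Fin 5) k) (MvPolynomial (Fin 5) k))⁆ = 0 := by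
            refine derivation_ext fun i => ?_
            rw [Derivation.commutator_apply, pderiv_X, pderiv_X]
            simp [Pi.single_apply, apply_ite]
          have h3 := congrArg (fun D : Derivation k (MvPolynomial (Fin 5) k) (MvPolynomial (Fin 5) k) =>
            D P) h2
          simp only [Derivation.commutator_apply, Derivation.coe_zero, Pi.zero_apply] at h3
          exact sub_eq_zero.1 h3
        rw [this, h4, map_zero]
      have hl' : n - Finsupp.single l 1 + Finsupp.single l 1 = n :=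
        Finsupp.sub_add_single_one_cancel hl
      have hs : ∑ i, (n - Finsupp.single l 1 : Fin 5 →₀ ℕ) i = m := by
        have h5 : ∑ i, n i = ∑ i, (n - Finsupp.single l 1 : Fin 5 →₀ ℕ) i + 1 := by
          conv_lhs => rw [← hl']
          simp only [Finsupp.coe_add, Pi.add_apply, Finset.sum_add_distrib]
          congr 1
          simp [Finsupp.single_apply]
        omega
      have h6 := ih _ hs _ h4' e
      rw [coeff_pderiv, hl'] at h6
      exact (mul_eq_zero.1 h6).resolve_left (Nat.cast_add_one_ne_zero _)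
  ext n
  rw [key _ n rfl P h4 h, coeff_zero]

/-- `ph` is injective on the polynomials of degree at most one in `X 4`. -/
theorem inj (P : MvPolynomial (Fin 5) k) (h4 : pderiv 4 (pderiv 4 P) = 0) (h : ph k P = 0) :
    P = 0 := by
  set b := pderiv 4 P with hb
  set a := P - b * X 4 with ha
  have ha4 : pderiv 4 a = 0 := by
    rw [ha, map_sub, Derivation.leibniz, h4, pderiv_X_self]
    simp [hb]
  have hP : P = a + b * X 4 := by rw [ha]; ring
  set τ : MvPolynomial (Fin 4) k →ₐ[k] MvPolynomial (Fin 4) k :=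
    aeval ![X 0, X 1, X 2, -X 3] with hτ
  have hfix : ∀ q : MvPolynomial (Fin 5) k, pderiv 4 q = 0 → τ (ph k q) = ph k q := by
    intro q hq
    have h1 := hom_congr_vars (f₁ := (τ.comp (ph k)).toRingHom) (f₂ := (ph k).toRingHom)
      (p₁ := q) (p₂ := q) (by ext c; simp [hτ, ph]) (fun i hi _ => ?_) rfl
    · exact h1
    · have hi4 : i ≠ 4 := by
        rintro rfl
        obtain ⟨n, hn, hni⟩ : ∃ d ∈ q.support, (4 : Fin 5) ∈ d.support :=
          (mem_vars_iff_mem_support (4 : Fin 5)).1 hi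
        exact (Finsupp.mem_support_iff.1 hni) ((pderiv_eq_zero_iff q 4).1 hq n hn)
      fin_cases i
      · simp [hτ, ph, fu]
      · simp [hτ, ph, fu]
      · simp [hτ, ph, fu]
      · simp [hτ, ph, fu]
      · exact absurd rfl hi4
  have h1 : ph k a + ph k b * (X 1 ^ 6 * X 3) = 0 := by
    rw [hP, map_add, map_mul, ph_X] at h
    simpa [fu] using h
  have h2 := congrArg τ h1
  rw [map_add, map_mul, hfix a ha4, hfix b h4, map_zero] at h2
  have h3 : τ (X 1 ^ 6 * X 3) = -(X 1 ^ 6 * X 3) := by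
    simp [hτ]
  rw [h3] at h2
  have hX1 : (X 1 : MvPolynomial (Fin 4) k) ≠ 0 := X_ne_zero _
  have hX3 : (X 3 : MvPolynomial (Fin 4) k) ≠ 0 := X_ne_zero _
  have e1 : ph k a = 0 := by
    have : (2 : MvPolynomial (Fin 4) k) * ph k a = 0 := by linear_combination h1 + h2
    exact (mul_eq_zero.1 this).resolve_left (by norm_num)
  have e2 : ph k b = 0 := by
    rw [e1, zero_add] at h1
    exact (mul_eq_zero.1 h1).resolve_right (mul_ne_zero (pow_ne_zero _ hX1) hX3)
  rw [hP, inj_free a ha4 e1, inj_free b h4 e2, zero_mul, zero_add]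

/-- `P` has a lowest part of weight `r` which is not killed by `ph`. -/
def Low (r : ℕ) (P : MvPolynomial (Fin 5) k) : Prop :=
  ∃ P0 R, P = P0 + R ∧ Gd om r P0 ∧ Ge om (r + 1) R ∧ ph k P0 ≠ 0

/-- The derivation of the hypersurface in the directions of `X 2` and `X l`. -/
noncomputable def Dl (t : k) (l : Fin 5) (P : MvPolynomial (Fin 5) k) : MvPolynomial (Fin 5) k :=
  pderiv 2 (gH t) * pderiv l P - pderiv l (gH t) * pderiv 2 P

/-- The lowest part of the equation. -/
private noncomputable def g0 (k : Type) [Field k] : MvPolynomial (Fin 5) k :=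
  X 1 ^ 12 * X 2 + X 3 ^ 3 + X 4 ^ 2

private noncomputable def g1 (t : k) : MvPolynomial (Fin 5) k :=
  C t * X 2 ^ 11 + X 1 * X 0 * X 2 ^ 10 - X 0 ^ 66 - X 0 ^ 12 * X 2 ^ 9

omit [CharZero k] in
private theorem gH_eq (t : k) : gH t = g0 k + g1 t := by
  rw [gH, g0, g1]; ring

omit [CharZero k] in
private theorem whX (i : Fin 5) : IsWeightedHomogeneous om (X i : MvPolynomial (Fin 5) k) (om i) :=
  isWeightedHomogeneous_X k om i

omit [CharZero k] in
private theorem g0_gd : Gd om 6 (g0 k) := by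
  have h : IsWeightedHomogeneous om (g0 k) 6 := by
    unfold g0
    refine IsWeightedHomogeneous.add (IsWeightedHomogeneous.add ?_ ?_) ?_
    · exact ((whX 1).pow 12).mul (whX 2)
    · exact (whX 3).pow 3
    · exact (whX 4).pow 2
  exact Gd.of_wh h

omit [CharZero k] in
private theorem g1_ge (t : k) : Ge om 7 (g1 t) := by
  have h1 : IsWeightedHomogeneous om (C t * X 2 ^ 11 : MvPolynomial (Fin 5) k) 66 := by
    have := (isWeightedHomogeneous_C om t).mul ((whX (k := k) 2).pow 11)
    simpa [om] using this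
  have h2 : IsWeightedHomogeneous om (X 1 * X 0 * X 2 ^ 10 : MvPolynomial (Fin 5) k) 61 :=
    ((whX 1).mul (whX 0)).mul ((whX 2).pow 10)
  have h3 : IsWeightedHomogeneous om (X 0 ^ 66 : MvPolynomial (Fin 5) k) 66 := (whX 0).pow 66
  have h4 : IsWeightedHomogeneous om (X 0 ^ 12 * X 2 ^ 9 : MvPolynomial (Fin 5) k) 66 :=
    ((whX 0).pow 12).mul ((whX 2).pow 9)
  unfold g1
  exact ((((Gd.of_wh h1).ge.mono (by norm_num)).add ((Gd.of_wh h2).ge.mono (by norm_num))).sub
    ((Gd.of_wh h3).ge.mono (by norm_num))).sub ((Gd.of_wh h4).ge.mono (by norm_num))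

private theorem dl_dec (t : k) (l : Fin 5) (r : ℕ) (P P0 R : MvPolynomial (Fin 5) k)
    (hP : P = P0 + R) (h0 : Gd om r P0) (hR : Ge om (r + 1) R)
    (hne : ph k (pderiv 2 (g0 k) * pderiv l P0 - pderiv l (g0 k) * pderiv 2 P0) ≠ 0) :
    ∃ r', r' + om l = r ∧ Low r' (Dl t l P) := by
  set Q0 := pderiv 2 (g0 k) * pderiv l P0 - pderiv l (g0 k) * pderiv 2 P0 with hQ0
  have o2 : ((om 2 : ℕ) : ℤ) = 6 := rfl
  have c2 := g0_gd (k := k) |>.pderiv 2
  have cl := g0_gd (k := k) |>.pderiv l
  have e2 := (g1_ge t).pderiv 2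
  have el := (g1_ge t).pderiv l
  have hP' : Ge om r P := by rw [hP]; exact h0.ge.add (hR.mono (by omega))
  rw [o2] at c2 e2
  have gQ0 : Gd om (r - om l) Q0 := by
    have a1 := c2.mul (h0.pderiv l)
    have a2 := cl.mul (h0.pderiv 2)
    rw [o2] at a2
    rw [show (6 - 6 + ((r : ℤ) - om l) : ℤ) = r - om l by ring] at a1
    rw [show (6 - (om l : ℤ) + ((r : ℤ) - 6) : ℤ) = r - om l by ring] at a2
    exact a1.sub a2
  have gR : Ge om (r - om l + 1) (Dl t l P - Q0) := by
    have hd : Dl t l P - Q0 = pderiv 2 (g0 k) * pderiv l R + pderiv 2 (g1 t) * pderiv l P -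
        pderiv l (g0 k) * pderiv 2 R - pderiv l (g1 t) * pderiv 2 P := by
      rw [Dl, hQ0, gH_eq, hP]
      simp only [map_add]
      ring
    rw [hd]
    have a1 := c2.ge.mul (hR.pderiv l)
    have a2 := e2.mul (hP'.pderiv l)
    have a3 := cl.ge.mul (hR.pderiv 2)
    have a4 := el.mul (hP'.pderiv 2)
    rw [o2] at a3 a4
    exact (((a1.mono (by linarith)).add (a2.mono (by linarith))).sub (a3.mono (by linarith))).sub
      (a4.mono (by linarith))
  have hQne : Q0 ≠ 0 := fun h => hne (by rw [h, map_zero])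
  obtain ⟨n, hn⟩ := MvPolynomial.ne_zero_iff.1 hQne
  have hw := gQ0 n hn
  refine ⟨r - om l, by omega, Q0, Dl t l P - Q0, by ring, ?_, ?_, hne⟩
  · intro n hn
    rw [gQ0 n hn]
    omega
  · refine gR.mono ?_
    omega

/-- One of the derivatives lowers `r`. -/
theorem step (t : k) (r : ℕ) (hr : 0 < r) (P : MvPolynomial (Fin 5) k) (h : Low r P) :
    ∃ l, (l = 0 ∨ l = 3 ∨ l = 4) ∧ ∃ r', r' + om l = r ∧ Low r' (Dl t l P) := by
  obtain ⟨P0, R, hP, h0, hR, hph⟩ := h
  have hX1 : (X 1 : MvPolynomial (Fin 4) k) ≠ 0 := X_ne_zero _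
  have q2 : ph k (pderiv 2 (g0 k)) = X 1 ^ 12 := by
    have : pderiv 2 (g0 k) = X 1 ^ 12 := by
      simp [g0, Derivation.leibniz, Derivation.leibniz_pow, pderiv_X]
    rw [this, map_pow, ph_X]; rfl
  have q0 : ph k (pderiv 0 (g0 k)) = 0 := by
    have : pderiv 0 (g0 k) = 0 := by
      simp [g0, Derivation.leibniz, Derivation.leibniz_pow, pderiv_X]
    rw [this, map_zero]
  have q3 : ph k (pderiv 3 (g0 k)) = 3 * (X 1 ^ 4 * X 2) ^ 2 := by
    have : pderiv 3 (g0 k) = 3 * X 3 ^ 2 := by
      simp [g0, Derivation.leibniz, Derivation.leibniz_pow, pderiv_X]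
    rw [this, map_mul, map_pow, ph_X, map_ofNat]
    simp [fu]
  have q4 : ph k (pderiv 4 (g0 k)) = 2 * (X 1 ^ 6 * X 3) := by
    have : pderiv 4 (g0 k) = 2 * X 4 := by
      simp [g0, Derivation.leibniz, Derivation.leibniz_pow, pderiv_X]
    rw [this, map_mul, ph_X, map_ofNat]
    simp [fu]
  have r0 : ph k (pderiv 2 (g0 k) * pderiv 0 P0 - pderiv 0 (g0 k) * pderiv 2 P0) =
      X 1 ^ 12 * pderiv 0 (ph k P0) := by
    rw [map_sub, map_mul, map_mul, q2, q0, d0]; ring
  have r3 : ph k (pderiv 2 (g0 k) * pderiv 3 P0 - pderiv 3 (g0 k) * pderiv 2 P0) =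
      X 1 ^ 8 * pderiv 2 (ph k P0) := by
    rw [map_sub, map_mul, map_mul, q2, q3, d2]; ring
  have r4 : ph k (pderiv 2 (g0 k) * pderiv 4 P0 - pderiv 4 (g0 k) * pderiv 2 P0) =
      X 1 ^ 6 * pderiv 3 (ph k P0) := by
    rw [map_sub, map_mul, map_mul, q2, q4, d3]; ring
  by_cases c0 : pderiv 0 (ph k P0) = 0
  · by_cases c3 : pderiv 2 (ph k P0) = 0
    · by_cases c4 : pderiv 3 (ph k P0) = 0
      · exfalso
        have he := (h0.wh rfl).sum_weight_X_mul_pderiv
        rw [Fin.sum_univ_five] at he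
        have he' := congrArg (ph k) he
        have w0 : om 0 = 1 := rfl
        have w1 : om 1 = 0 := rfl
        have w2 : om 2 = 6 := rfl
        have w3 : om 3 = 2 := rfl
        have w4 : om 4 = 3 := rfl
        simp only [w0, w1, w2, w3, w4, map_add, map_nsmul, map_mul, ph_X] at he'
        simp only [nsmul_eq_mul] at he'
        rw [d0] at c0
        rw [d2] at c3
        rw [d3] at c4
        have f2 : fu k 2 = -(X 2 ^ 3 + X 3 ^ 2) := rfl
        have f3 : fu k 3 = X 1 ^ 4 * X 2 := rfl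
        have f4 : fu k 4 = X 1 ^ 6 * X 3 := rfl
        rw [c0, f2, f3, f4] at he'
        push_cast at he'
        have : (r : MvPolynomial (Fin 4) k) * ph k P0 = 0 := by
          rw [← he']
          linear_combination 2 * X 2 * c3 + 3 * X 3 * c4
        have hr' : (r : MvPolynomial (Fin 4) k) ≠ 0 := by exact_mod_cast hr.ne'
        exact hph ((mul_eq_zero.1 this).resolve_left hr')
      · exact ⟨4, by simp, dl_dec t 4 r P P0 R hP h0 hR (by
          rw [r4]; exact mul_ne_zero (pow_ne_zero _ hX1) c4)⟩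
    · exact ⟨3, by simp, dl_dec t 3 r P P0 R hP h0 hR (by
          rw [r3]; exact mul_ne_zero (pow_ne_zero _ hX1) c3)⟩
  · exact ⟨0, by simp, dl_dec t 0 r P P0 R hP h0 hR (by
          rw [r0]; exact mul_ne_zero (pow_ne_zero _ hX1) c0)⟩

end Pool.Agent.KO.P5
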