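import Pool.Agent.KO.Key.Star
import Pool.Agent.KO.Key.P5a

/-! # Project KO, block KEY: the point 1/5(1,2,3) -/

set_option autoImplicit false

namespace Pool.Agent.KO.KPt

open MvPolynomial

variable {k E : Type} [Field k] [CharZero k] [Field E] [Algebra k E] (D : KPt k E)

omit [CharZero k] in
private theorem ev_mon (n : Fin 5 →₀ ℕ) (c : k) :
    D.ev (monomial n c) = algebraMap k E c * ∏ i, D.pt i ^ n i := by
  unfold ev
  rw [aeval_monomial, Finsupp.prod_fintype _ _ (fun i => pow_zero _)]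

private theorem v_mon (n : Fin 5 →₀ ℕ) {c : k} (hc : c ≠ 0) (d : ℕ)
    (hn : Finsupp.weight w5 n = d) :
    D.ev (monomial n c) ≠ 0 ∧
      (D.v (D.ev (monomial n c)) : ℚ) = d * D.μ + ∑ i, (n i : ℚ) * D.w i := by
  have h1 : ∀ i ∈ Finset.univ, D.pt i ^ n i ≠ 0 := fun i _ => pow_ne_zero _ (D.pt_ne i)
  have h2 : algebraMap k E c ≠ 0 := by rwa [Ne, map_eq_zero]
  have h3 : (d : ℚ) = ∑ i, (n i : ℚ) * w5 i := by
    rw [← hn, Finsupp.weight_apply, Finsupp.sum_fintype _ _ (fun i => by simp)]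
    push_cast
    simp
  rw [D.ev_mon]
  refine ⟨mul_ne_zero h2 (Finset.prod_ne_zero_iff.2 h1), ?_⟩
  rw [D.const_mul hc, D.prod _ _ h1, h3, Finset.sum_mul, ← Finset.sum_add_distrib]
  push_cast
  refine Finset.sum_congr rfl fun i _ => ?_
  rw [D.pow (D.pt_ne i), w]
  push_cast
  ring

private theorem weight_om (n : Fin 5 →₀ ℕ) : Finsupp.weight P5.om n =
    n 0 + 6 * n 2 + 2 * n 3 + 3 * n 4 := by
  rw [Finsupp.weight_apply, Finsupp.sum_fintype _ _ (fun i => by simp), Fin.sum_univ_five]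
  simp [P5.om]
  ring

private theorem weight_w5 (n : Fin 5 →₀ ℕ) : Finsupp.weight w5 n =
    n 0 + 5 * n 1 + 6 * n 2 + 22 * n 3 + 33 * n 4 := by
  rw [Finsupp.weight_apply, Finsupp.sum_fintype _ _ (fun i => by simp), Fin.sum_univ_five]
  simp [w5]
  ring

private theorem pos_part (h0 : 0 < D.w 0) (h1 : D.w 1 = 0) (h2 : 0 < D.w 2) (h3 : 0 < D.w 3)
    (h4 : 0 < D.w 4) (d : ℕ) (R : MvPolynomial (Fin 5) k) (hR : IsWeightedHomogeneous w5 R d)
    (hR1 : P5.Ge P5.om 1 R) : D.ev R = 0 ∨ 0 < D.vh d R := by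
  have hs : D.ev R = ∑ n ∈ R.support, D.ev (monomial n (coeff n R)) := by
    conv_lhs => rw [← support_sum_monomial_coeff R]
    exact D.ev_sum _ _
  have hb : ∀ n ∈ R.support, D.ev (monomial n (coeff n R)) = 0 ∨
      ⌊(d : ℚ) * D.μ⌋ + 1 ≤ D.v (D.ev (monomial n (coeff n R))) := by
    intro n hn
    right
    have hc := mem_support_iff.1 hn
    obtain ⟨_, h6⟩ := D.v_mon n hc d (hR hc)
    have h7 := hR1 n hc
    rw [weight_om] at h7
    have h8 : 0 < ∑ i, (n i : ℚ) * D.w i := by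
      rw [Fin.sum_univ_five, h1, mul_zero, add_zero]
      have p0 := mul_nonneg (Nat.cast_nonneg (α := ℚ) (n 0)) h0.le
      have p2 := mul_nonneg (Nat.cast_nonneg (α := ℚ) (n 2)) h2.le
      have p3 := mul_nonneg (Nat.cast_nonneg (α := ℚ) (n 3)) h3.le
      have p4 := mul_nonneg (Nat.cast_nonneg (α := ℚ) (n 4)) h4.le
      have : 0 < n 0 ∨ 0 < n 2 ∨ 0 < n 3 ∨ 0 < n 4 := by omega
      rcases this with h | h | h | h
      · have := mul_pos (Nat.cast_pos (α := ℚ).2 h) h0
        linarith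
      · have := mul_pos (Nat.cast_pos (α := ℚ).2 h) h2
        linarith
      · have := mul_pos (Nat.cast_pos (α := ℚ).2 h) h3
        linarith
      · have := mul_pos (Nat.cast_pos (α := ℚ).2 h) h4
        linarith
    have h9 : (d : ℚ) * D.μ < (D.v (D.ev (monomial n (coeff n R))) : ℤ) := by
      rw [h6]; linarith
    exact Int.add_one_le_iff.2 (Int.floor_lt.2 h9)
  have := D.sum_ge R.support _ _ hb
  rw [← hs] at this
  rcases this with h | h
  · exact Or.inl h
  · right
    have h5 : (⌊(d : ℚ) * D.μ⌋ : ℤ) < D.v (D.ev R) := Int.add_one_le_iff.1 h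
    have h6 := Int.floor_lt.1 h5
    unfold vh
    linarith

private theorem base (h0 : 0 < D.w 0) (h1 : D.w 1 = 0) (h2 : 0 < D.w 2) (h3 : 0 < D.w 3)
    (h4 : 0 < D.w 4) (d : ℕ) (P P0 R : MvPolynomial (Fin 5) k)
    (hP : IsWeightedHomogeneous w5 P d) (hPR : P = P0 + R) (hP0 : P5.Gd P5.om 0 P0)
    (hR : P5.Ge P5.om 1 R) (hne : P0 ≠ 0) : D.ev P ≠ 0 ∧ D.vh d P = 0 := by
  have hP0' : IsWeightedHomogeneous w5 P0 d := by
    intro n hn
    refine hP ?_
    rw [hPR, coeff_add]
    have : coeff n R = 0 := by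
      by_contra h
      have a1 := hR n h
      have a2 := hP0 n hn
      omega
    rwa [this, add_zero]
  have hR' : IsWeightedHomogeneous w5 R d := by
    have : R = P - P0 := by rw [hPR]; ring
    rw [this]
    exact hP.sub hP0'
  obtain ⟨n, hn⟩ := MvPolynomial.ne_zero_iff.1 hne
  have hn1 := hP0 n hn
  have hn2 := hP0' hn
  rw [weight_om] at hn1
  rw [weight_w5] at hn2
  have hmon : P0 = monomial n (coeff n P0) := by
    ext m
    rw [coeff_monomial]
    split_ifs with h
    · rw [h]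
    · by_contra hm
      apply h
      have hm1 := hP0 m hm
      have hm2 := hP0' hm
      rw [weight_om] at hm1
      rw [weight_w5] at hm2
      ext i
      fin_cases i
      · show n 0 = m 0
        omega
      · show n 1 = m 1
        omega
      · show n 2 = m 2
        omega
      · show n 3 = m 3
        omega
      · show n 4 = m 4
        omega
  obtain ⟨e1, e2⟩ := D.v_mon n hn d (hP0' hn)
  rw [← hmon] at e1 e2
  have e3 : D.vh d P0 = 0 := by
    unfold vh
    rw [e2, Fin.sum_univ_five, h1]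
    have a0 : n 0 = 0 := by omega
    have a2 : n 2 = 0 := by omega
    have a3 : n 3 = 0 := by omega
    have a4 : n 4 = 0 := by omega
    rw [a0, a2, a3, a4]
    simp
  rw [hPR]
  exact D.vh_add_eq e1 e3 (D.pos_part h0 h1 h2 h3 h4 d R hR' hR)

theorem γ2 (h0 : 0 < D.w 0) (h1 : D.w 1 = 0) (h2 : 0 < D.w 2) (h3 : 0 < D.w 3)
    (h4 : 0 < D.w 4) : D.γ 2 ≠ 0 ∧ D.vγ 2 = 0 := by
  have hX : ∀ i : Fin 5, IsWeightedHomogeneous P5.om (X i : MvPolynomial (Fin 5) k) (P5.om i) :=
    fun i => isWeightedHomogeneous_X k P5.om i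
  have e : pderiv 2 (gH D.t) = X 1 ^ 12 + (C D.t * (11 * X 2 ^ 10) + X 1 * X 0 * (10 * X 2 ^ 9) -
      X 0 ^ 12 * (9 * X 2 ^ 8)) := by
    unfold gH
    simp [Derivation.leibniz, Derivation.leibniz_pow, pderiv_X]
    ring
  have hw : IsWeightedHomogeneous w5 (pderiv 2 (gH D.t)) 60 :=
    (isWH_gH D.t).pderiv (by simp [w5])
  have hP0 : P5.Gd P5.om 0 (X 1 ^ 12 : MvPolynomial (Fin 5) k) := by
    have : IsWeightedHomogeneous P5.om (X 1 ^ 12 : MvPolynomial (Fin 5) k) 0 := (hX 1).pow 12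
    exact P5.Gd.of_wh this
  have hC : ∀ c : k, IsWeightedHomogeneous P5.om (C c : MvPolynomial (Fin 5) k) 0 :=
    fun c => isWeightedHomogeneous_C P5.om c
  have n1 : (11 : MvPolynomial (Fin 5) k) = C 11 := (map_ofNat C 11).symm
  have n2 : (10 : MvPolynomial (Fin 5) k) = C 10 := (map_ofNat C 10).symm
  have n3 : (9 : MvPolynomial (Fin 5) k) = C 9 := (map_ofNat C 9).symm
  have hR : P5.Ge P5.om 1 (C D.t * (11 * X 2 ^ 10) + X 1 * X 0 * (10 * X 2 ^ 9) -
      X 0 ^ 12 * (9 * X 2 ^ 8)) := by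
    rw [n1, n2, n3]
    have a1 := P5.Gd.of_wh ((hC D.t).mul ((hC 11).mul ((hX 2).pow 10)))
    have a2 := P5.Gd.of_wh (((hX 1).mul (hX 0)).mul ((hC 10).mul ((hX 2).pow 9)))
    have a3 := P5.Gd.of_wh (((hX 0).pow 12).mul ((hC 9).mul ((hX 2).pow 8)))
    exact ((a1.ge.mono (by simp [P5.om])).add (a2.ge.mono (by simp [P5.om]))).sub
      (a3.ge.mono (by simp [P5.om]))
  have := D.base h0 h1 h2 h3 h4 60 _ _ _ hw e hP0 hR (pow_ne_zero _ (X_ne_zero _))
  refine ⟨this.1, ?_⟩
  have h5 := this.2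
  unfold vh at h5
  unfold vγ γ
  have h6 : ((w5 2 : ℕ) : ℚ) = 6 := by simp [w5]
  rw [h6]
  push_cast at h5
  linarith

private theorem main (h0 : 0 < D.w 0) (h1 : D.w 1 = 0) (h2 : 0 < D.w 2) (h3 : 0 < D.w 3)
    (h4 : 0 < D.w 4) (B : ℚ) (b0 : D.A - D.w 3 - D.w 4 ≤ B) (b3 : D.A - D.w 0 - D.w 4 ≤ 2 * B)
    (b4 : D.A - D.w 0 - D.w 3 ≤ 3 * B) (r : ℕ) : ∀ (d : ℕ) (P : MvPolynomial (Fin 5) k),
    IsWeightedHomogeneous w5 P d → P5.Low r P → D.ev P ≠ 0 ∧ D.vh d P ≤ r * B := by
  induction r using Nat.strong_induction_on with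
  | _ r ih =>
  intro d P hP hL
  rcases Nat.eq_zero_or_pos r with hr | hr
  · subst hr
    obtain ⟨P0, R, hPR, hP0, hR, hne⟩ := hL
    have hne' : P0 ≠ 0 := fun h => hne (by rw [h, map_zero])
    have := D.base h0 h1 h2 h3 h4 d P P0 R hP hPR (by simpa using hP0) (by simpa using hR) hne'
    refine ⟨this.1, ?_⟩
    rw [this.2]
    simp
  · obtain ⟨l, hl, r', hr', hL'⟩ := P5.step D.t r hr P hL
    have hle : w5 l ≤ 33 := by
      rcases hl with rfl | rfl | rfl <;> simp [w5]
    have hwd : IsWeightedHomogeneous w5 (P5.Dl D.t l P) (d + 60 - w5 l) := by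
      have g := P5.Gd.of_wh (isWH_gH D.t)
      have p := P5.Gd.of_wh hP
      have a1 := (g.pderiv 2).mul (p.pderiv l)
      have a2 := (g.pderiv l).mul (p.pderiv 2)
      have w2 : ((w5 2 : ℕ) : ℤ) = 6 := rfl
      rw [w2] at a1 a2
      have a3 : P5.Gd w5 (d + 60 - w5 l) (P5.Dl D.t l P) := by
        refine P5.Gd.sub ?_ ?_
        · convert a1 using 1
          push_cast
          ring
        · convert a2 using 1
          push_cast
          ring
      refine a3.wh ?_
      push_cast [Nat.cast_sub (show w5 l ≤ d + 60 by omega)]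
      ring
    have hpos : 0 < P5.om l := by
      rcases hl with rfl | rfl | rfl <;> simp [P5.om]
    obtain ⟨i1, i2⟩ := ih r' (by omega) _ _ hwd hL'
    have e1 : D.γ 2 * D.ev (pderiv l P) - D.γ l * D.ev (pderiv 2 P) = D.ev (P5.Dl D.t l P) := by
      rw [P5.Dl, ev_sub, ev_mul, ev_mul]
      rfl
    have hl2 : (2 : Fin 5) ≠ l := by
      rcases hl with rfl | rfl | rfl <;> decide
    have st := D.star 2 l hl2 hP (by rw [e1]; exact i1)
    rw [e1] at st
    have w2 : ((w5 2 : ℕ) : ℚ) = 6 := by simp [w5]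
    unfold vh at i2
    rw [Nat.cast_sub (show w5 l ≤ d + 60 by omega)] at i2
    push_cast at i2
    rw [w2] at st
    have key : D.vh d P + ∑ i ∈ (Finset.univ.erase 2).erase l, D.w i ≤ D.A + r' * B := by
      refine st.trans ?_
      have : ((d : ℚ) + 66 - 6 - w5 l) * D.μ = (d + 60 - w5 l) * D.μ := by ring
      rw [this]
      linarith
    have hev : D.ev P ≠ 0 := by
      by_cases hd : gH D.t ∣ P
      · exfalso
        apply i1
        obtain ⟨Q, hQ⟩ := hd
        rw [P5.Dl, hQ]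
        simp only [Derivation.leibniz, smul_eq_mul, ev_sub, ev_mul, ev_add, ev_gH]
        ring
      · exact D.ev_ne hP hd
    refine ⟨hev, ?_⟩
    have hrr : (r : ℚ) = r' + P5.om l := by rw [← hr']; push_cast; ring
    rw [hrr]
    rcases hl with rfl | rfl | rfl
    · have s0 : ((Finset.univ : Finset (Fin 5)).erase 2).erase 0 = {1, 3, 4} := by decide
      rw [s0, Finset.sum_insert (by decide), Finset.sum_insert (by decide),
        Finset.sum_singleton, h1] at key
      have : ((P5.om 0 : ℕ) : ℚ) = 1 := by simp [P5.om]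
      rw [this]
      linarith
    · have s0 : ((Finset.univ : Finset (Fin 5)).erase 2).erase 3 = {0, 1, 4} := by decide
      rw [s0, Finset.sum_insert (by decide), Finset.sum_insert (by decide),
        Finset.sum_singleton, h1] at key
      have : ((P5.om 3 : ℕ) : ℚ) = 2 := by simp [P5.om]
      rw [this]
      linarith
    · have s0 : ((Finset.univ : Finset (Fin 5)).erase 2).erase 4 = {0, 1, 3} := by decide
      rw [s0, Finset.sum_insert (by decide), Finset.sum_insert (by decide),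
        Finset.sum_singleton, h1] at key
      have : ((P5.om 4 : ℕ) : ℚ) = 3 := by simp [P5.om]
      rw [this]
      linarith

theorem p5 (h0 : 0 < D.w 0) (h1 : D.w 1 = 0) (h2 : 0 < D.w 2) (h3 : 0 < D.w 3) (h4 : 0 < D.w 4)
    (B : ℚ) (b0 : D.A - D.w 3 - D.w 4 ≤ B) (b3 : D.A - D.w 0 - D.w 4 ≤ 2 * B)
    (b4 : D.A - D.w 0 - D.w 3 ≤ 3 * B) (d : ℕ)
    (P : MvPolynomial (Fin 5) k) (hP : IsWeightedHomogeneous w5 P d) (hd : ¬ gH D.t ∣ P) :
    D.vh d P ≤ d * B := by
  -- the bound `B` is not negative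
  obtain ⟨g1, g2⟩ := D.γ2 h0 h1 h2 h3 h4
  have hB : 0 ≤ B := by
    have h5 := D.log_ineq 2 g1
    unfold e at h5
    rw [g2] at h5
    have s0 : (Finset.univ : Finset (Fin 5)).erase 2 = {0, 1, 3, 4} := by decide
    rw [s0, Finset.sum_insert (by decide), Finset.sum_insert (by decide),
      Finset.sum_insert (by decide), Finset.sum_singleton, h1] at h5
    linarith
  -- normal form
  have hc : gH D.t = X 4 ^ 2 + (gH D.t - X 4 ^ 2) := by ring
  have hc4 : pderiv 4 (gH D.t - X 4 ^ 2) = 0 := by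
    unfold gH
    simp [Derivation.leibniz, Derivation.leibniz_pow, pderiv_X]
  have hcw : IsWeightedHomogeneous w5 (gH D.t - X 4 ^ 2) (2 * w5 4) := by
    have := (isWH_gH D.t).sub ((isWeightedHomogeneous_X k w5 (4 : Fin 5)).pow 2)
    exact this
  obtain ⟨α, a1, a2, a3⟩ := exists_nf w5 4 2 (by norm_num) _ hc4 hcw d P hP
  rw [← hc, Fin.sum_univ_two] at a3
  set P' := α 0 * X 4 ^ ((0 : Fin 2) : ℕ) + α 1 * X 4 ^ ((1 : Fin 2) : ℕ) with hP'
  have hP'2 : P' = α 0 + α 1 * X 4 := by rw [hP']; simp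
  have hw' : IsWeightedHomogeneous w5 P' d := by
    rw [hP'2]
    refine IsWeightedHomogeneous.add ?_ ?_
    · rcases a2 0 with h | ⟨e, he, h⟩
      · rw [h]; exact isWeightedHomogeneous_zero _ _ _
      · have : e = d := by simpa using he
        rwa [this] at h
    · rcases a2 1 with h | ⟨e, he, h⟩
      · rw [h, zero_mul]; exact isWeightedHomogeneous_zero _ _ _
      · have : e + w5 4 = d := by simpa using he
        rw [← this]
        exact h.mul (isWeightedHomogeneous_X k w5 (4 : Fin 5))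
  have hne : P' ≠ 0 := by
    intro h
    rw [h, sub_zero] at a3
    exact hd a3
  have hev : D.ev P = D.ev P' := D.ev_congr a3
  have hvh : D.vh d P = D.vh d P' := by unfold vh; rw [hev]
  have h44 : pderiv 4 (pderiv 4 P') = 0 := by
    have : pderiv 4 P' = α 1 := by
      rw [hP'2, map_add, a1 0, Derivation.leibniz, a1 1, pderiv_X_self]
      simp
    rw [this, a1 1]
  -- the lowest part
  obtain ⟨n, hn, hmin⟩ := P'.support.exists_min_image (fun n => Finsupp.weight P5.om n)
    (support_nonempty.2 hne)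
  set r := Finsupp.weight P5.om n with hr
  set P0 := weightedHomogeneousComponent P5.om r P' with hP0
  have hcoef : ∀ m, coeff m P0 = if Finsupp.weight P5.om m = r then coeff m P' else 0 :=
    fun m => by rw [hP0, coeff_weightedHomogeneousComponent]
  have hP0ne : P0 ≠ 0 := by
    intro h
    have := hcoef n
    rw [h, coeff_zero, if_pos hr.symm] at this
    exact (mem_support_iff.1 hn) this.symm
  have hP044 : pderiv 4 (pderiv 4 P0) = 0 := by
    rw [pderiv_eq_zero_iff] at h44 ⊢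
    intro m hm
    have hm1 := mem_support_iff.1 hm
    rw [coeff_pderiv, hcoef] at hm1
    have hm2 := right_ne_zero_of_mul hm1
    refine h44 m (mem_support_iff.2 ?_)
    rw [coeff_pderiv]
    refine mul_ne_zero (left_ne_zero_of_mul hm1) fun h => hm2 ?_
    rw [h, ite_self]
  have hlow : P5.Low r P' := by
    refine ⟨P0, P' - P0, by ring, ?_, ?_, fun h => hP0ne (P5.inj P0 hP044 h)⟩
    · intro m hm
      rw [hcoef] at hm
      split_ifs at hm with h
      · rw [h]
      · exact absurd rfl hm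
    · intro m hm
      rw [coeff_sub, hcoef] at hm
      split_ifs at hm with h
      · rw [sub_self] at hm
        exact absurd rfl hm
      · rw [sub_zero] at hm
        have := hmin m (mem_support_iff.2 hm)
        omega
  have hrd : r ≤ d := by
    have h5 := hw' (mem_support_iff.1 hn)
    rw [hr, weight_om]
    rw [weight_w5] at h5
    omega
  rw [hvh]
  refine ((D.main h0 h1 h2 h3 h4 B b0 b3 b4 r d P' hw' hlow).2).trans ?_
  exact mul_le_mul_of_nonneg_right (by exact_mod_cast hrd) hB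

end Pool.Agent.KO.KPt
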