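import Pool.Agent.KO.Key.Hom

/-! # Project KO, block KEY: quasi-smoothness along `x = y = 0` -/

set_option autoImplicit false

namespace Pool.Agent.KO.KPt

open MvPolynomial

section

variable {k E : Type} [Field k] [Field E] [Algebra k E] (D : KPt k E)

/-- Zero or of value larger than `c`. -/
private def Ps (c : ℚ) (x : E) : Prop := x = 0 ∨ c < D.v x

private theorem Ps.add {c : ℚ} {x y : E} (hx : Ps D c x) (hy : Ps D c y) : Ps D c (x + y) := by
  have h := D.toLogVal.add_ge (x := x) (y := y) (c := ⌊c⌋ + 1)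
    (hx.imp id fun h => Int.add_one_le_of_lt (Int.floor_lt.2 h))
    (hy.imp id fun h => Int.add_one_le_of_lt (Int.floor_lt.2 h))
  exact h.imp id fun h => Int.floor_lt.1 (Int.lt_of_add_one_le h)

private theorem Ps.neg {c : ℚ} {x : E} (hx : Ps D c x) : Ps D c (-x) := by
  rcases hx with hx | hx
  · left; rw [hx, neg_zero]
  · right; rwa [D.toLogVal.neg]

private theorem Ps.not_of_add {c : ℚ} {x y : E} (hx : x ≠ 0) (hc : (D.v x : ℚ) = c)
    (hy : Ps D c y) : ¬ Ps D c (x + y) := by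
  have h := D.toLogVal.add_of_lt hx (y := y) (hy.imp id fun h => by
    have h2 : (D.v x : ℚ) < D.v y := by rw [hc]; exact h
    exact_mod_cast h2)
  rintro (h1 | h1)
  · exact h.1 h1
  · rw [h.2, hc] at h1
    exact lt_irrefl _ h1

private theorem alg_of {κ : Type} [Field κ] [CharZero κ] {u w t : κ} (hu : u ≠ 0) (hw : w ≠ 0)
    (h1 : w ^ 10 + 12 * u ^ 11 * w = 0)
    (h2 : 11 * t * w ^ 10 + 10 * u * w ^ 9 + u ^ 12 - 9 * w ^ 8 = 0)
    (h3 : t * w ^ 11 + u * w ^ 10 + u ^ 12 * w - 1 - w ^ 9 = 0) : IsAlgebraic ℤ t := by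
  have h4 : w ^ 9 = -12 * u ^ 11 := by
    have : w * (w ^ 9 + 12 * u ^ 11) = 0 := by rw [← h1]; ring
    rcases mul_eq_zero.1 this with h | h
    · exact absurd h hw
    · linear_combination h
  have h5 : 2 * u ^ 12 * w = 24 * u ^ 11 - 11 := by
    linear_combination w * h2 - 11 * h3 - 10 * u * w * h4 + 11 * u * w * h4 - 2 * h4
  have h6 : (24 * u ^ 11 - 11) ^ 9 + 6144 * u ^ 119 = 0 := by
    rw [← h5]
    linear_combination 512 * u ^ 108 * h4
  have hua : IsAlgebraic ℚ u := by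
    refine ⟨(24 * Polynomial.X ^ 11 - 11) ^ 9 + 6144 * Polynomial.X ^ 119, ?_, ?_⟩
    · intro h0
      have h7 := congrArg (Polynomial.eval 0) h0
      norm_num [Polynomial.eval_add, Polynomial.eval_mul, Polynomial.eval_pow] at h7
    · simp only [map_add, map_sub, map_mul, map_pow, Polynomial.aeval_X, map_ofNat]
      exact h6
  have hmem : ∀ x : κ, x ∈ algebraicClosure ℚ κ ↔ IsAlgebraic ℚ x := fun x =>
    mem_algebraicClosure_iff
  have hu' := (hmem u).2 hua
  have h2ne : (2 * u ^ 12 : κ) ≠ 0 := mul_ne_zero two_ne_zero (pow_ne_zero _ hu)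
  have hwe : w = (24 * u ^ 11 - 11) / (2 * u ^ 12) := by
    rw [eq_div_iff h2ne, ← h5]; ring
  have hw' : w ∈ algebraicClosure ℚ κ := by
    rw [hwe]
    exact div_mem (sub_mem (mul_mem (ofNat_mem _ _) (pow_mem hu' _)) (ofNat_mem _ _))
      (mul_mem (ofNat_mem _ _) (pow_mem hu' _))
  have hte : t = (1 + w ^ 9 - u ^ 12 * w - u * w ^ 10) / w ^ 11 := by
    rw [eq_div_iff (pow_ne_zero _ hw)]; linear_combination h3
  have ht' : t ∈ algebraicClosure ℚ κ := by
    rw [hte]
    exact div_mem (sub_mem (sub_mem (add_mem (one_mem _) (pow_mem hw' _))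
      (mul_mem (pow_mem hu' _) hw')) (mul_mem hu' (pow_mem hw' _))) (pow_mem hw' _)
  exact (IsFractionRing.isAlgebraic_iff ℤ ℚ κ).2 ((hmem t).1 ht')

/-- The valuation ring. -/
private def ring : ValuationSubring E where
  carrier := {x | x = 0 ∨ 0 ≤ D.v x}
  mul_mem' := fun {a b} ha hb => by
    simpa using D.toLogVal.mul_ge (c := 0) (c' := 0) ha hb
  one_mem' := Or.inr (by rw [D.toLogVal.one])
  add_mem' := fun {a b} ha hb => D.toLogVal.add_ge ha hb
  zero_mem' := Or.inl rfl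
  neg_mem' := fun {a} ha => D.toLogVal.neg_ge ha
  mem_or_inv_mem' := fun x => by
    by_cases hx : x = 0
    · left; left; exact hx
    rcases le_total 0 (D.v x) with h | h
    · left; right; exact h
    · right; right
      rw [D.toLogVal.inv hx]
      omega

private theorem mem_ring (x : E) : x ∈ D.ring ↔ x = 0 ∨ 0 ≤ D.v x := Iff.rfl

private theorem mem_max (x : D.ring) : x ∈ IsLocalRing.maximalIdeal D.ring ↔ Ps D 0 (x : E) := by
  rw [IsLocalRing.mem_maximalIdeal, mem_nonunits_iff, Ps]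
  constructor
  · intro h
    by_contra hcon
    push Not at hcon
    refine h ?_
    have h0 : D.v (x : E) = 0 := by
      have h1 : D.v (x : E) ≤ 0 := by exact_mod_cast hcon.2
      rcases (D.mem_ring _).1 x.2 with h2 | h2
      · exact absurd h2 hcon.1
      · omega
    have hmem : (x : E)⁻¹ ∈ D.ring := Or.inr (by rw [D.toLogVal.inv hcon.1, h0, neg_zero])
    refine IsUnit.of_mul_eq_one ⟨(x : E)⁻¹, hmem⟩ ?_
    ext
    exact mul_inv_cancel₀ hcon.1
  · rintro h hu
    obtain ⟨y, hy⟩ := hu.exists_right_inv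
    have hy' : (x : E) * (y : E) = 1 := by
      have := congrArg (Subtype.val) hy
      simpa using this
    have hx0 : (x : E) ≠ 0 := left_ne_zero_of_mul (hy'.symm ▸ one_ne_zero)
    have hy0 : (y : E) ≠ 0 := right_ne_zero_of_mul (hy'.symm ▸ one_ne_zero)
    have h1 := D.mul _ _ hx0 hy0
    rw [hy', D.toLogVal.one] at h1
    have h2 : (0 : ℚ) < D.v (x : E) := h.resolve_left hx0
    have h2' : 0 < D.v (x : E) := by exact_mod_cast h2
    have h3 := ((D.mem_ring _).1 y.2).resolve_left hy0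
    omega

private theorem vm {a : E} (ha : a ≠ 0) (hv : D.v a = 0) (h1 : D.pt 1 ≠ 0) (h2 : D.pt 2 ≠ 0)
    (i j : ℕ) : a * D.pt 1 ^ i * D.pt 2 ^ j ≠ 0 ∧
      (D.v (a * D.pt 1 ^ i * D.pt 2 ^ j) : ℚ) = i * D.v (D.pt 1) + j * D.v (D.pt 2) := by
  have h3 : a * D.pt 1 ^ i ≠ 0 := mul_ne_zero ha (pow_ne_zero _ h1)
  refine ⟨mul_ne_zero h3 (pow_ne_zero _ h2), ?_⟩
  rw [D.mul _ _ h3 (pow_ne_zero _ h2), D.mul _ _ ha (pow_ne_zero _ h1), hv, D.toLogVal.pow h1,
    D.toLogVal.pow h2]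
  push_cast
  ring

private theorem res_part [CharZero k] (ht : Transcendental ℤ D.t) (h1 : D.pt 1 ≠ 0)
    (h2 : D.pt 2 ≠ 0) (v1 : D.v (D.pt 1) = 0) (v2 : D.v (D.pt 2) = 0)
    (g1 : Ps D 0 (D.pt 2 ^ 10 + 12 * D.pt 1 ^ 11 * D.pt 2))
    (g2 : Ps D 0 (11 * algebraMap k E D.t * D.pt 2 ^ 10 + 10 * D.pt 1 * D.pt 2 ^ 9 + D.pt 1 ^ 12
      - 9 * D.pt 2 ^ 8))
    (g3 : Ps D 0 (algebraMap k E D.t * D.pt 2 ^ 11 + D.pt 1 * D.pt 2 ^ 10 + D.pt 1 ^ 12 * D.pt 2
      - 1 - D.pt 2 ^ 9)) : False := by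
  let res := IsLocalRing.residue D.ring
  let φ : k →+* IsLocalRing.ResidueField D.ring :=
    res.comp ((algebraMap k E).codRestrict D.ring.toSubring fun c => D.toLogVal.const_ge c)
  have hφ : Function.Injective φ := φ.injective
  have : CharZero (IsLocalRing.ResidueField D.ring) := charZero_of_injective_ringHom hφ
  let u : D.ring := ⟨D.pt 1, Or.inr v1.ge⟩
  let w : D.ring := ⟨D.pt 2, Or.inr v2.ge⟩
  let t : D.ring := ⟨algebraMap k E D.t, D.toLogVal.const_ge D.t⟩
  have hz : ∀ x : D.ring, Ps D 0 (x : E) → res x = 0 := fun x hx =>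
    (IsLocalRing.residue_eq_zero_iff x).2 ((D.mem_max x).2 hx)
  have hn : ∀ x : D.ring, (x : E) ≠ 0 → D.v (x : E) = 0 → res x ≠ 0 := by
    intro x hx hv h
    have h3 := (D.mem_max x).1 ((IsLocalRing.residue_eq_zero_iff x).1 h)
    rcases h3 with h3 | h3
    · exact hx h3
    · rw [hv] at h3
      simp at h3
  have e1 : res (w ^ 10 + 12 * u ^ 11 * w) = 0 := hz _ g1
  have e2 : res (11 * t * w ^ 10 + 10 * u * w ^ 9 + u ^ 12 - 9 * w ^ 8) = 0 := hz _ g2
  have e3 : res (t * w ^ 11 + u * w ^ 10 + u ^ 12 * w - 1 - w ^ 9) = 0 := hz _ g3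
  simp only [map_add, map_sub, map_mul, map_pow, map_one, map_ofNat] at e1 e2 e3
  have ha := alg_of (hn u h1 v1) (hn w h2 v2) e1 e2 e3
  have htt : res t = φ D.t := rfl
  rw [htt] at ha
  obtain ⟨p, hp, hp0⟩ := ha
  refine ht ⟨p, hp, hφ ?_⟩
  rw [map_zero, ← hp0, Polynomial.aeval_def, Polynomial.aeval_def, Polynomial.hom_eval₂]
  congr 1
  exact Subsingleton.elim _ _

end

variable {k E : Type} [Field k] [CharZero k] [Field E] [Algebra k E] (D : KPt k E)

theorem qsm (ht : Transcendental ℤ D.t) (h3 : 0 < D.w 3) (h4 : 0 < D.w 4) :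
    (D.γ 1 ≠ 0 ∧ D.vγ 1 = 0) ∨ (D.γ 2 ≠ 0 ∧ D.vγ 2 = 0) := by
  have hp1 := D.pt_ne 1
  have hp2 := D.pt_ne 2
  have ht0 : algebraMap k E D.t ≠ 0 := by
    rw [Ne, map_eq_zero]
    rintro h
    exact ht (h ▸ isAlgebraic_zero)
  have hvt : D.v (algebraMap k E D.t) = 0 := D.const _ (by
    rintro h
    exact ht (h ▸ isAlgebraic_zero))
  have : CharZero E := charZero_of_injective_ringHom (algebraMap k E).injective
  have hnat : ∀ m : ℕ, m ≠ 0 → (m : E) ≠ 0 ∧ D.v (m : E) = 0 := fun m hm =>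
    ⟨Nat.cast_ne_zero.2 hm, D.toLogVal.natCast hm⟩
  have c9 : D.ev 9 = 9 := map_ofNat (aeval D.pt) 9
  have c10 : D.ev 10 = 10 := map_ofNat (aeval D.pt) 10
  have c11 : D.ev 11 = 11 := map_ofNat (aeval D.pt) 11
  have c12 : D.ev 12 = 12 := map_ofNat (aeval D.pt) 12
  have hg1 : D.γ 1 = D.pt 2 ^ 10 + 12 * D.pt 1 ^ 11 * D.pt 2 := by
    unfold γ gH
    simp only [map_sub, map_add, Derivation.leibniz_pow, Derivation.leibniz, pderiv_X, smul_eq_mul,
      pderiv_C]
    simp [D.pt0, c12]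
    ring
  have hg2 : D.γ 2 = 11 * algebraMap k E D.t * D.pt 2 ^ 10 + 10 * D.pt 1 * D.pt 2 ^ 9
      + D.pt 1 ^ 12 - 9 * D.pt 2 ^ 8 := by
    unfold γ gH
    simp only [map_sub, map_add, Derivation.leibniz_pow, Derivation.leibniz, pderiv_X, smul_eq_mul,
      pderiv_C]
    simp [D.pt0, c9, c10, c11]
    ring
  have hon : algebraMap k E D.t * D.pt 2 ^ 11 + D.pt 1 * D.pt 2 ^ 10 + D.pt 1 ^ 12 * D.pt 2
      - 1 - D.pt 2 ^ 9 = -(D.pt 4 ^ 2) + -(D.pt 3 ^ 3) := by
    have h := D.on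
    unfold gH at h
    simp only [map_sub, map_add, map_mul, map_pow, aeval_X, aeval_C, D.pt0] at h
    linear_combination h
  -- monomials
  have M1 := D.vm (a := 1) one_ne_zero D.toLogVal.one hp1 hp2
  have Mt := D.vm ht0 hvt hp1 hp2
  have M11t := D.vm (a := 11 * algebraMap k E D.t) (mul_ne_zero (by norm_num) ht0) (by
    have h := hnat 11 (by norm_num)
    push_cast at h
    rw [D.mul _ _ h.1 ht0, h.2, hvt, add_zero]) hp1 hp2
  have M12 := D.vm (a := 12) (by norm_num) (by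
    have h := hnat 12 (by norm_num); push_cast at h; exact h.2) hp1 hp2
  have M10 := D.vm (a := 10) (by norm_num) (by
    have h := hnat 10 (by norm_num); push_cast at h; exact h.2) hp1 hp2
  have M9 := D.vm (a := 9) (by norm_num) (by
    have h := hnat 9 (by norm_num); push_cast at h; exact h.2) hp1 hp2
  set U : ℚ := (D.v (D.pt 1) : ℚ) with hU
  set W : ℚ := (D.v (D.pt 2) : ℚ) with hW
  set m : ℚ := D.μ with hm
  have w0 : D.w 0 = -m := D.w_zero
  have w1 : D.w 1 = U - 5 * m := by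
    rw [KPt.w]; norm_num [w5]; rfl
  have w2 : D.w 2 = W - 6 * m := by
    rw [KPt.w]; norm_num [w5]; rfl
  have n0 := D.w_nonneg 0
  have n1 := D.w_nonneg 1
  have n2 := D.w_nonneg 2
  rw [w0] at n0
  rw [w1] at n1
  rw [w2] at n2
  -- values of the monomials
  have ps : ∀ {c : ℚ} {x : E}, c < D.v x → Ps D c x := fun h => Or.inr h
  have a1 : D.pt 2 ^ 10 ≠ 0 ∧ (D.v (D.pt 2 ^ 10) : ℚ) = 10 * W := by
    have h := M1 0 10
    rw [pow_zero, mul_one, one_mul] at h
    push_cast at h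
    exact ⟨h.1, by linarith [h.2]⟩
  have a2 : 12 * D.pt 1 ^ 11 * D.pt 2 ≠ 0 ∧
      (D.v (12 * D.pt 1 ^ 11 * D.pt 2) : ℚ) = 11 * U + W := by
    have h := M12 11 1
    rw [pow_one] at h
    push_cast at h
    rw [one_mul] at h
    exact h
  have b1 : (D.v (11 * algebraMap k E D.t * D.pt 2 ^ 10) : ℚ) = 10 * W := by
    have h := (M11t 0 10).2
    rw [pow_zero, mul_one] at h
    push_cast at h
    linarith
  have b2 : (D.v (10 * D.pt 1 * D.pt 2 ^ 9) : ℚ) = U + 9 * W := by
    have h := (M10 1 9).2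
    rw [pow_one] at h
    push_cast at h
    linarith
  have b3 : D.pt 1 ^ 12 ≠ 0 ∧ (D.v (D.pt 1 ^ 12) : ℚ) = 12 * U := by
    have h := M1 12 0
    rw [pow_zero, mul_one, one_mul] at h
    push_cast at h
    exact ⟨h.1, by linarith [h.2]⟩
  have b4 : (D.v (9 * D.pt 2 ^ 8) : ℚ) = 8 * W := by
    have h := (M9 0 8).2
    rw [pow_zero, mul_one] at h
    push_cast at h
    linarith
  have e1 : algebraMap k E D.t * D.pt 2 ^ 11 ≠ 0 ∧
      (D.v (algebraMap k E D.t * D.pt 2 ^ 11) : ℚ) = 11 * W := by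
    have h := Mt 0 11
    rw [pow_zero, mul_one] at h
    push_cast at h
    exact ⟨h.1, by linarith [h.2]⟩
  have e2 : (D.v (D.pt 1 * D.pt 2 ^ 10) : ℚ) = U + 10 * W := by
    have h := (M1 1 10).2
    rw [pow_one, one_mul] at h
    push_cast at h
    linarith
  have e3 : (D.v (D.pt 1 ^ 12 * D.pt 2) : ℚ) = 12 * U + W := by
    have h := (M1 12 1).2
    rw [pow_one, one_mul] at h
    push_cast at h
    linarith
  have e4 : (D.v (-1 : E) : ℚ) = 0 := by
    rw [D.toLogVal.negOne, Int.cast_zero]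
  have e5 : (D.v (D.pt 2 ^ 9) : ℚ) = 9 * W := by
    have h := (M1 0 9).2
    rw [pow_zero, mul_one, one_mul] at h
    push_cast at h
    linarith
  have q1 : w5 1 = 5 := rfl
  have q2 : w5 2 = 6 := rfl
  have q3 : w5 3 = 22 := rfl
  have q4 : w5 4 = 33 := rfl
  by_contra hcon
  push Not at hcon
  have G1 : Ps D (61 * m) (D.pt 2 ^ 10 + 12 * D.pt 1 ^ 11 * D.pt 2) := by
    rw [← hg1]
    by_cases h0 : D.γ 1 = 0
    · exact Or.inl h0
    right
    have h5 := hcon.1 h0
    have h6 : 61 * m ≤ D.v (D.γ 1) := by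
      refine le_of_forall_lt fun c hc => ?_
      have h7 := Ps.add D (ps (c := c) (by rw [a1.2]; linarith)) (ps (by rw [a2.2]; linarith))
      rw [← hg1] at h7
      exact h7.resolve_left h0
    refine lt_of_le_of_ne h6 fun h8 => h5 ?_
    rw [KPt.vγ, ← h8, q1]
    push_cast
    linarith
  have G2 : Ps D (60 * m) (11 * algebraMap k E D.t * D.pt 2 ^ 10 + 10 * D.pt 1 * D.pt 2 ^ 9
      + D.pt 1 ^ 12 - 9 * D.pt 2 ^ 8) := by
    rw [← hg2]
    by_cases h0 : D.γ 2 = 0
    · exact Or.inl h0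
    right
    have h5 := hcon.2 h0
    have h6 : 60 * m ≤ D.v (D.γ 2) := by
      refine le_of_forall_lt fun c hc => ?_
      have h7 := Ps.add D (Ps.add D (Ps.add D (ps (c := c) (by rw [b1]; linarith))
        (ps (by rw [b2]; linarith))) (ps (by rw [b3.2]; linarith)))
        (Ps.neg D (ps (by rw [b4]; linarith)))
      rw [← sub_eq_add_neg, ← hg2] at h7
      exact h7.resolve_left h0
    refine lt_of_le_of_ne h6 fun h8 => h5 ?_
    rw [KPt.vγ, ← h8, q2]
    push_cast
    linarith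
  have G3 : Ps D (66 * m) (algebraMap k E D.t * D.pt 2 ^ 11 + D.pt 1 * D.pt 2 ^ 10
      + D.pt 1 ^ 12 * D.pt 2 - 1 - D.pt 2 ^ 9) := by
    rw [hon]
    refine Ps.add D (Ps.neg D ?_) (Ps.neg D ?_)
    · right
      rw [D.toLogVal.pow (D.pt_ne 4)]
      have h5 : (0 : ℚ) < D.v (D.pt 4) - 33 * m := by
        have h := h4
        rw [KPt.w, q4] at h
        push_cast at h
        linarith
      push_cast
      linarith
    · right
      rw [D.toLogVal.pow (D.pt_ne 3)]
      have h5 : (0 : ℚ) < D.v (D.pt 3) - 22 * m := by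
        have h := h3
        rw [KPt.w, q3] at h
        push_cast at h
        linarith
      push_cast
      linarith
  rcases (sub_nonneg.1 n2).lt_or_eq with hw | hw
  · rcases (sub_nonneg.1 n1).lt_or_eq with hu | hu
    · -- `m = 0`
      have hm0 : m = 0 := by
        obtain ⟨i, hi⟩ := D.exists_w
        fin_cases i
        · change D.w 0 = 0 at hi
          linarith
        · change D.w 1 = 0 at hi
          linarith
        · change D.w 2 = 0 at hi
          linarith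
        · change D.w 3 = 0 at hi
          linarith
        · change D.w 4 = 0 at hi
          linarith
      rw [hm0] at G3 hw hu
      refine Ps.not_of_add D (x := (-1 : E)) (c := 66 * 0) (by norm_num) (by rw [e4]; ring)
        (y := algebraMap k E D.t * D.pt 2 ^ 11 + D.pt 1 * D.pt 2 ^ 10
          + D.pt 1 ^ 12 * D.pt 2 + -(D.pt 2 ^ 9)) ?_ ?_
      · exact Ps.add D (Ps.add D (Ps.add D (ps (by rw [e1.2]; linarith))
          (ps (by rw [e2]; linarith))) (ps (by rw [e3]; linarith)))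
          (Ps.neg D (ps (by rw [e5]; linarith)))
      · convert G3 using 1
        ring
    · refine Ps.not_of_add D (x := D.pt 1 ^ 12) (c := 60 * m) b3.1 (by rw [b3.2]; linarith)
        (y := 11 * algebraMap k E D.t * D.pt 2 ^ 10 + 10 * D.pt 1 * D.pt 2 ^ 9
          + -(9 * D.pt 2 ^ 8)) ?_ ?_
      · exact Ps.add D (Ps.add D (ps (by rw [b1]; linarith)) (ps (by rw [b2]; linarith)))
          (Ps.neg D (ps (by rw [b4]; linarith)))
      · convert G2 using 1
        ring
  · rcases (neg_nonneg.1 n0).lt_or_eq with hmm | hmm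
    · rcases (sub_nonneg.1 n1).lt_or_eq with hu | hu
      · refine Ps.not_of_add D (x := algebraMap k E D.t * D.pt 2 ^ 11) (c := 66 * m) e1.1
          (by rw [e1.2]; linarith)
          (y := D.pt 1 * D.pt 2 ^ 10 + D.pt 1 ^ 12 * D.pt 2 + -1 + -(D.pt 2 ^ 9)) ?_ ?_
        · exact Ps.add D (Ps.add D (Ps.add D (ps (by rw [e2]; linarith))
            (ps (by rw [e3]; linarith))) (ps (by rw [e4]; linarith)))
            (Ps.neg D (ps (by rw [e5]; linarith)))
        · convert G3 using 1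
          ring
      · refine Ps.not_of_add D (x := 12 * D.pt 1 ^ 11 * D.pt 2) (c := 61 * m) a2.1
          (by rw [a2.2]; linarith) (y := D.pt 2 ^ 10) (ps (by rw [a1.2]; linarith)) ?_
        convert G1 using 1
        ring
    · rcases (sub_nonneg.1 n1).lt_or_eq with hu | hu
      · exact Ps.not_of_add D (x := D.pt 2 ^ 10) (c := 61 * m) a1.1 (by rw [a1.2]; linarith)
          (y := 12 * D.pt 1 ^ 11 * D.pt 2) (ps (by rw [a2.2]; linarith)) G1
      · rw [hmm, mul_zero] at G1 G2 G3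
        refine D.res_part ht hp1 hp2 ?_ ?_ G1 G2 G3
        · have h : (D.v (D.pt 1) : ℚ) = 0 := by linarith
          exact_mod_cast h
        · have h : (D.v (D.pt 2) : ℚ) = 0 := by linarith
          exact_mod_cast h

end Pool.Agent.KO.KPt
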