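import Pool.Agent.KO.Key.NormY
import Pool.Agent.KO.Key.NormX
import Pool.Agent.KO.Key.P11
import Pool.Agent.KO.Key.P5
import Pool.Agent.KO.Key.QSm
import Pool.Agent.KO.Key.Cen1
import Pool.Agent.KO.Key.Cen2
import Pool.Agent.KO.Key.Cen3
import Pool.Agent.KO.M.Homog

/-! # Project KO, block KEY: the main theorem -/

set_option autoImplicit false
set_option linter.unusedSectionVars false

namespace Pool.Agent.KO.KPt

open MvPolynomial

variable {k E : Type} [Field k] [CharZero k] [Field E] [Algebra k E] (D : KPt k E)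

/-- The normalised values of the seven terms of the equation. -/
private noncomputable def cc : Fin 7 → ℚ :=
  ![2 * D.w 4, 3 * D.w 3, 11 * D.w 2, D.w 1 + D.w 0 + 10 * D.w 2, 12 * D.w 1 + D.w 2, 66 * D.w 0,
    12 * D.w 0 + 9 * D.w 2]

private theorem vpt (i : Fin 5) : (D.v (D.pt i) : ℚ) = D.w i + w5 i * D.μ := by
  unfold w
  ring

private theorem two_min (ht : D.t ≠ 0) :
    ∃ i j : Fin 7, i ≠ j ∧ D.cc i = D.cc j ∧ ∀ l, D.cc i ≤ D.cc l := by
  have hp := D.pt_ne
  have hta : algebraMap k E D.t ≠ 0 := by rwa [Ne, map_eq_zero]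
  set T : Fin 7 → E := ![D.pt 4 ^ 2, D.pt 3 ^ 3, algebraMap k E D.t * D.pt 2 ^ 11,
    D.pt 1 * D.pt 0 * D.pt 2 ^ 10, D.pt 1 ^ 12 * D.pt 2, -D.pt 0 ^ 66,
    -(D.pt 0 ^ 12 * D.pt 2 ^ 9)] with hT
  have hT0 : ∀ i ∈ Finset.univ, T i ≠ 0 := by
    intro i _
    fin_cases i
    · exact pow_ne_zero _ (hp 4)
    · exact pow_ne_zero _ (hp 3)
    · exact mul_ne_zero hta (pow_ne_zero _ (hp 2))
    · exact mul_ne_zero (mul_ne_zero (hp 1) (hp 0)) (pow_ne_zero _ (hp 2))
    · exact mul_ne_zero (pow_ne_zero _ (hp 1)) (hp 2)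
    · exact neg_ne_zero.2 (pow_ne_zero _ (hp 0))
    · exact neg_ne_zero.2 (mul_ne_zero (pow_ne_zero _ (hp 0)) (pow_ne_zero _ (hp 2)))
  have hsum : ∑ i, T i = 0 := by
    have h := D.ev_gH
    unfold gH at h
    simp only [ev_add, ev_sub, ev_mul, ev_pow, ev_X, ev_C] at h
    rw [hT]
    simp only [Fin.sum_univ_succ, Fin.sum_univ_zero, Matrix.cons_val_zero, Matrix.cons_val_succ]
    linear_combination h
  have hv : ∀ i, (D.v (T i) : ℚ) = D.cc i + 66 * D.μ := by
    intro i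
    have m2 : ∀ a b : E, a ≠ 0 → b ≠ 0 → (D.v (a * b) : ℚ) = D.v a + D.v b := fun a b ha hb => by
      rw [D.mul a b ha hb]; push_cast; ring
    have p2 : ∀ (a : E) (n : ℕ), a ≠ 0 → (D.v (a ^ n) : ℚ) = n * D.v a := fun a n ha => by
      rw [D.pow ha]; push_cast; ring
    have e0 := D.vpt 0
    have e1 := D.vpt 1
    have e2 := D.vpt 2
    have e3 := D.vpt 3
    have e4 := D.vpt 4
    have w0 : ((w5 0 : ℕ) : ℚ) = 1 := by simp [w5]
    have w1 : ((w5 1 : ℕ) : ℚ) = 5 := by simp [w5]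
    have w2 : ((w5 2 : ℕ) : ℚ) = 6 := by simp [w5]
    have w3 : ((w5 3 : ℕ) : ℚ) = 22 := by simp [w5]
    have w4 : ((w5 4 : ℕ) : ℚ) = 33 := by simp [w5]
    rw [w0] at e0
    rw [w1] at e1
    rw [w2] at e2
    rw [w3] at e3
    rw [w4] at e4
    fin_cases i
    · show (D.v (D.pt 4 ^ 2) : ℚ) = 2 * D.w 4 + 66 * D.μ
      rw [p2 _ _ (hp 4), e4]
      push_cast
      ring
    · show (D.v (D.pt 3 ^ 3) : ℚ) = 3 * D.w 3 + 66 * D.μ
      rw [p2 _ _ (hp 3), e3]
      push_cast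
      ring
    · show (D.v (algebraMap k E D.t * D.pt 2 ^ 11) : ℚ) = 11 * D.w 2 + 66 * D.μ
      rw [D.const_mul ht, p2 _ _ (hp 2), e2]
      push_cast
      ring
    · show (D.v (D.pt 1 * D.pt 0 * D.pt 2 ^ 10) : ℚ) = D.w 1 + D.w 0 + 10 * D.w 2 + 66 * D.μ
      rw [m2 _ _ (mul_ne_zero (hp 1) (hp 0)) (pow_ne_zero _ (hp 2)), m2 _ _ (hp 1) (hp 0),
        p2 _ _ (hp 2), e0, e1, e2]
      push_cast
      ring
    · show (D.v (D.pt 1 ^ 12 * D.pt 2) : ℚ) = 12 * D.w 1 + D.w 2 + 66 * D.μ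
      rw [m2 _ _ (pow_ne_zero _ (hp 1)) (hp 2), p2 _ _ (hp 1), e1, e2]
      push_cast
      ring
    · show (D.v (-D.pt 0 ^ 66) : ℚ) = 66 * D.w 0 + 66 * D.μ
      rw [D.neg, p2 _ _ (hp 0), e0]
      push_cast
      ring
    · show (D.v (-(D.pt 0 ^ 12 * D.pt 2 ^ 9)) : ℚ) = 12 * D.w 0 + 9 * D.w 2 + 66 * D.μ
      rw [D.neg, m2 _ _ (pow_ne_zero _ (hp 0)) (pow_ne_zero _ (hp 2)), p2 _ _ (hp 0),
        p2 _ _ (hp 2), e0, e2]
      push_cast
      ring
  obtain ⟨i, -, j, -, hij, h1, h2⟩ := D.exists_two Finset.univ T Finset.univ_nonempty hT0 hsum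
  refine ⟨i, j, hij, ?_, fun l => ?_⟩
  · have : (D.v (T i) : ℚ) = D.v (T j) := by exact_mod_cast h1
    rw [hv, hv] at this
    linarith
  · have : (D.v (T i) : ℚ) ≤ D.v (T l) := by exact_mod_cast h2 l (Finset.mem_univ l)
    rw [hv, hv] at this
    linarith

private theorem key7 : ∀ i : Fin 7, i = 0 ∨ i = 1 ∨ i = 2 ∨ i = 3 ∨ i = 4 ∨ i = 5 ∨ i = 6 := by
  decide

private theorem key5 : ∀ i : Fin 5, i = 0 ∨ i = 1 ∨ i = 2 ∨ i = 3 ∨ i = 4 := by
  decide

/-- The centre is the point `1/11(1,5,6)`. -/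
private theorem f1 (ht : D.t ≠ 0) (h0 : 0 < D.w 0) (h1 : 0 < D.w 1) (h2 : 0 < D.w 2) :
    D.w 3 = 0 ∧ D.w 4 = 0 := by
  obtain ⟨i, j, hij, h5, h6⟩ := D.two_min ht
  have n3 := D.w_nonneg 3
  have n4 := D.w_nonneg 4
  have c0 : D.cc 0 = 2 * D.w 4 := rfl
  have c1 : D.cc 1 = 3 * D.w 3 := rfl
  have c2 : D.cc 2 = 11 * D.w 2 := rfl
  have c3 : D.cc 3 = D.w 1 + D.w 0 + 10 * D.w 2 := rfl
  have c4 : D.cc 4 = 12 * D.w 1 + D.w 2 := rfl
  have c5 : D.cc 5 = 66 * D.w 0 := rfl
  have c6 : D.cc 6 = 12 * D.w 0 + 9 * D.w 2 := rfl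
  have hle : D.cc i ≤ 0 := by
    obtain ⟨l, hl⟩ := D.exists_w
    have g0 := h6 0
    have g1 := h6 1
    rw [c0] at g0
    rw [c1] at g1
    rcases key5 l with rfl | rfl | rfl | rfl | rfl <;> linarith
  have hk : ∀ i : Fin 7, D.cc i ≤ 0 → i = 0 ∨ i = 1 := by
    intro i hi
    rcases key7 i with rfl | rfl | rfl | rfl | rfl | rfl | rfl
    · exact Or.inl rfl
    · exact Or.inr rfl
    · rw [c2] at hi; linarith
    · rw [c3] at hi; linarith
    · rw [c4] at hi; linarith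
    · rw [c5] at hi; linarith
    · rw [c6] at hi; linarith
  have hlj : D.cc j ≤ 0 := by rw [← h5]; exact hle
  rcases hk i hle with rfl | rfl <;> rcases hk j hlj with rfl | rfl
  · exact absurd rfl hij
  · rw [c0] at hle
    rw [c1] at hlj
    constructor <;> linarith
  · rw [c1] at hle
    rw [c0] at hlj
    constructor <;> linarith
  · exact absurd rfl hij

private theorem f2 (ht : D.t ≠ 0) (h0 : 0 < D.w 0) (h1 : 0 < D.w 1) (h2 : D.w 2 = 0) :
    D.w 3 = 0 ∨ D.w 4 = 0 := by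
  obtain ⟨i, j, hij, h5, h6⟩ := D.two_min ht
  have n3 := D.w_nonneg 3
  have n4 := D.w_nonneg 4
  have c0 : D.cc 0 = 2 * D.w 4 := rfl
  have c1 : D.cc 1 = 3 * D.w 3 := rfl
  have c2 : D.cc 2 = 11 * D.w 2 := rfl
  have c3 : D.cc 3 = D.w 1 + D.w 0 + 10 * D.w 2 := rfl
  have c4 : D.cc 4 = 12 * D.w 1 + D.w 2 := rfl
  have c5 : D.cc 5 = 66 * D.w 0 := rfl
  have c6 : D.cc 6 = 12 * D.w 0 + 9 * D.w 2 := rfl
  have hle : D.cc i ≤ 0 := by
    have g2 := h6 2
    rw [c2] at g2
    linarith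
  have hk : ∀ i : Fin 7, D.cc i ≤ 0 → i = 2 ∨ D.w 3 = 0 ∨ D.w 4 = 0 := by
    intro i hi
    rcases key7 i with rfl | rfl | rfl | rfl | rfl | rfl | rfl
    · rw [c0] at hi; right; right; linarith
    · rw [c1] at hi; right; left; linarith
    · exact Or.inl rfl
    · rw [c3] at hi; linarith
    · rw [c4] at hi; linarith
    · rw [c5] at hi; linarith
    · rw [c6] at hi; linarith
  have hlj : D.cc j ≤ 0 := by rw [← h5]; exact hle
  rcases hk i hle with hi | hi
  · rcases hk j hlj with hj | hj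
    · exact absurd (hi.trans hj.symm) hij
    · exact hj
  · exact hi

private theorem pos_int {x : ℚ} (z : ℤ) (h : x = z) (hx : 0 < x) : 1 ≤ x := by
  rw [h] at hx ⊢
  have : (0 : ℤ) < z := by exact_mod_cast hx
  exact_mod_cast this

private theorem one_le_mul (q : ℕ) (hq : 0 < q) (n : ℤ) (hn : (q : ℚ) * D.μ = n) (i : Fin 5)
    (hi : 0 < D.w i) : 1 ≤ (q : ℚ) * D.w i := by
  refine pos_int (q * D.v (D.pt i) - w5 i * n) ?_ (by positivity)
  unfold w
  push_cast
  rw [← hn]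
  ring

private theorem sum_w (j : Fin 5) : ∑ i ∈ Finset.univ.erase j, D.w i =
    D.w 0 + D.w 1 + D.w 2 + D.w 3 + D.w 4 - D.w j := by
  have h := Finset.add_sum_erase Finset.univ D.w (Finset.mem_univ j)
  rw [Fin.sum_univ_five] at h
  linarith

private theorem e_eq (j : Fin 5) : D.e j =
    D.A + D.vγ j - (D.w 0 + D.w 1 + D.w 2 + D.w 3 + D.w 4 - D.w j) := by
  unfold e
  rw [D.sum_w]

private theorem bez (a b : ℤ) (i j : Fin 5) (h : a * w5 i + b * w5 j = 1) (hi : D.w i = 0)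
    (hj : D.w j = 0) : ∃ m : ℤ, D.μ = m := by
  refine ⟨a * D.v (D.pt i) + b * D.v (D.pt j), ?_⟩
  have e1 := D.vpt i
  have e2 := D.vpt j
  rw [hi] at e1
  rw [hj] at e2
  have h' : (a : ℚ) * w5 i + b * w5 j = 1 := by exact_mod_cast h
  push_cast
  rw [e1, e2]
  linear_combination -D.μ * h'

private theorem ev_dehom (P : MvPolynomial (Fin 5) k) : D.ev P = D.eva (M.dehom P) := by
  have h : (aeval D.pt : MvPolynomial (Fin 5) k →ₐ[k] E) =
      (aeval (fun i : Fin 4 => D.pt i.succ)).comp M.dehom := by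
    refine MvPolynomial.algHom_ext fun i => ?_
    refine Fin.cases ?_ (fun j => ?_) i
    · simp [M.dehom, D.pt0]
    · simp [M.dehom]
  exact congrArg (fun f : MvPolynomial (Fin 5) k →ₐ[k] E => f P) h

private theorem y_not_unit (t : k) :
    ¬ IsUnit (Ideal.Quotient.mk (Ideal.span {gAff t}) (X 3) : Raff t) := by
  intro h
  set f : MvPolynomial (Fin 4) k →+* k := (aeval (![0, 0, 1, 0] : Fin 4 → k)).toRingHom with hf
  have hg : f (gAff t) = 0 := by
    rw [hf]
    unfold gAff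
    simp
  have hle : ∀ a ∈ Ideal.span {gAff t}, f a = 0 := by
    intro a ha
    obtain ⟨b, rfl⟩ := Ideal.mem_span_singleton'.1 ha
    rw [map_mul, hg, mul_zero]
  have h1 := h.map (Ideal.Quotient.lift (Ideal.span {gAff t}) f hle)
  rw [Ideal.Quotient.lift_mk] at h1
  have h2 : f (X 3) = 0 := by
    rw [hf]
    simp
  rw [h2] at h1
  exact not_isUnit_zero h1

/-- The integral class. -/
private theorem key_int (ht : Transcendental ℤ D.t) [IsDomain (Raff D.t)]
    [UniqueFactorizationMonoid (Raff D.t)] (m : ℤ) (hm : D.μ = m) :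
    (∀ (d : ℕ) (P : MvPolynomial (Fin 5) k), IsWeightedHomogeneous w5 P d → ¬ gH D.t ∣ P →
      D.vh d P ≤ d * (D.A - 1)) ∨
    (1 ≤ D.A ∧ ∀ (d : ℕ) (P : MvPolynomial (Fin 5) k), IsWeightedHomogeneous w5 P d →
      0 < D.vh d P → ∃ P', gH D.t ∣ P - X 0 * P') ∨
    (1 ≤ D.A ∧ D.μ = 0 ∧ ∃ π : Raff D.t, ¬ IsUnit π ∧ ∀ p : MvPolynomial (Fin 4) k,
      0 < D.v (D.eva p) → π ∣ Ideal.Quotient.mk _ p) := by
  have ht0 : D.t ≠ 0 := by
    intro h
    apply ht
    rw [h]
    exact isAlgebraic_zero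
  have n0 := D.w_nonneg 0
  have n1 := D.w_nonneg 1
  have n2 := D.w_nonneg 2
  have n3 := D.w_nonneg 3
  have n4 := D.w_nonneg 4
  have one : ∀ i, 0 < D.w i → 1 ≤ D.w i := by
    intro i hi
    have := D.one_le_mul 1 one_pos m (by rw [hm]; push_cast; ring) i hi
    simpa using this
  obtain ⟨g4, v4⟩ := D.vγ_four
  obtain ⟨g3, v3⟩ := D.vγ_three
  have l4 := D.log_ineq 4 g4
  have l3 := D.log_ineq 3 g3
  have E4 := D.e_eq 4
  have E3 := D.e_eq 3
  rw [v4] at E4
  rw [v3] at E3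
  rcases n4.eq_or_lt with h4 | h4
  · have h4 : D.w 4 = 0 := h4.symm
    rcases n0.eq_or_lt with h0 | h0
    · have h0 : D.w 0 = 0 := h0.symm
      rcases D.cen3 h4 h0 with hA | hA
      · left
        exact D.normY (D.A - 1) (by linarith) (by linarith) (by linarith) (by linarith)
      · right; right
        refine ⟨D.one_le_A m hm 4 g4 (by rw [v4, h4]), ?_, hA⟩
        have := D.w_zero
        linarith
    · have h0' := one 0 h0
      rcases D.cen2 m hm h4 h0 with hA | hA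
      · left
        exact D.normY (D.A - 1) (by linarith) (by linarith) (by linarith) (by linarith)
      · right; left
        exact ⟨by linarith, hA⟩
  · have h4' := one 4 h4
    rcases n3.eq_or_lt with h3 | h3
    · have h3 : D.w 3 = 0 := h3.symm
      by_cases hA : 2 ≤ D.A
      · left
        exact D.normX (D.A - 1) (by linarith) (by linarith) (by linarith) (by linarith)
      · have hA1 : D.A ≤ 1 := by
          have hz : D.A = ((D.Lam - m : ℤ) : ℚ) := by
            unfold A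
            rw [hm]
            push_cast
            ring
          rw [hz] at hA ⊢
          have : ¬ (2 : ℤ) ≤ D.Lam - m := fun h => hA (by exact_mod_cast h)
          have : D.Lam - m ≤ 1 := by omega
          exact_mod_cast this
        have h0 : D.w 0 = 0 := by linarith
        have h1 : D.w 1 = 0 := by linarith
        have h2 : D.w 2 = 0 := by linarith
        have hμ : D.μ = 0 := by
          have := D.w_zero
          linarith
        rcases D.cen1 ht0 m hm h0 h1 h2 h3 h4 with h | h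
        · exact absurd h hA
        · right; right
          refine ⟨by linarith, hμ, Ideal.Quotient.mk _ (X 3), y_not_unit D.t, fun p hp => ?_⟩
          obtain ⟨S, hS1, hS2⟩ := M.exists_homog p (weightedTotalDegree wAff p) le_rfl
          obtain ⟨P', hP'⟩ := h _ S hS1 (by
            unfold vh
            rw [hμ, mul_zero, sub_zero, D.ev_dehom, hS2]
            exact_mod_cast hp)
          obtain ⟨R, hR⟩ := hP'
          have h5 := congrArg M.dehom hR
          rw [map_sub, map_mul, map_mul, hS2, M.dehom_gH] at h5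
          have h6 : M.dehom (X 4 : MvPolynomial (Fin 5) k) = X 3 := by
            unfold M.dehom
            rw [aeval_X]
            rfl
          rw [h6] at h5
          refine ⟨Ideal.Quotient.mk _ (M.dehom P'), ?_⟩
          rw [← map_mul, Ideal.Quotient.eq, h5]
          exact Ideal.mul_mem_right _ _ (Ideal.mem_span_singleton_self _)
    · have h3' := one 3 h3
      left
      rcases D.qsm ht h3 h4 with ⟨gj, vj⟩ | ⟨gj, vj⟩
      · have lj := D.log_ineq 1 gj
        have Ej := D.e_eq 1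
        rw [vj] at Ej
        exact D.normY (D.A - 1) (by linarith) (by linarith) (by linarith) (by linarith)
      · have lj := D.log_ineq 2 gj
        have Ej := D.e_eq 2
        rw [vj] at Ej
        exact D.normY (D.A - 1) (by linarith) (by linarith) (by linarith) (by linarith)

/-- KEY: every homogeneous polynomial of degree `d` has value at most `d (A - 1)`, or the centre
is principal and `A ≥ 1`. -/
theorem key (ht : Transcendental ℤ D.t) [IsDomain (Raff D.t)]
    [UniqueFactorizationMonoid (Raff D.t)] :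
    (∀ (d : ℕ) (P : MvPolynomial (Fin 5) k), IsWeightedHomogeneous w5 P d → ¬ gH D.t ∣ P →
      D.vh d P ≤ d * (D.A - 1)) ∨
    (1 ≤ D.A ∧ ∀ (d : ℕ) (P : MvPolynomial (Fin 5) k), IsWeightedHomogeneous w5 P d →
      0 < D.vh d P → ∃ P', gH D.t ∣ P - X 0 * P') ∨
    (1 ≤ D.A ∧ D.μ = 0 ∧ ∃ π : Raff D.t, ¬ IsUnit π ∧ ∀ p : MvPolynomial (Fin 4) k,
      0 < D.v (D.eva p) → π ∣ Ideal.Quotient.mk _ p) := by
  have ht0 : D.t ≠ 0 := by
    intro h
    apply ht
    rw [h]
    exact isAlgebraic_zero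
  have n0 := D.w_nonneg 0
  have n1 := D.w_nonneg 1
  have n2 := D.w_nonneg 2
  have n3 := D.w_nonneg 3
  have n4 := D.w_nonneg 4
  obtain ⟨g4, v4⟩ := D.vγ_four
  obtain ⟨g3, v3⟩ := D.vγ_three
  have l4 := D.log_ineq 4 g4
  have l3 := D.log_ineq 3 g3
  have E4 := D.e_eq 4
  have E3 := D.e_eq 3
  rw [v4] at E4
  rw [v3] at E3
  have e0 := D.vpt 0
  have e1 := D.vpt 1
  have e2 := D.vpt 2
  have e3 := D.vpt 3
  have e4 := D.vpt 4
  have w0 : ((w5 0 : ℕ) : ℚ) = 1 := by simp [w5]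
  have w1 : ((w5 1 : ℕ) : ℚ) = 5 := by simp [w5]
  have w2 : ((w5 2 : ℕ) : ℚ) = 6 := by simp [w5]
  have w3 : ((w5 3 : ℕ) : ℚ) = 22 := by simp [w5]
  have w4 : ((w5 4 : ℕ) : ℚ) = 33 := by simp [w5]
  rw [w0] at e0
  rw [w1] at e1
  rw [w2] at e2
  rw [w3] at e3
  rw [w4] at e4
  rcases n0.eq_or_lt with h0 | h0
  · exact D.key_int ht 0 (by have := D.w_zero; push_cast; linarith)
  rcases n1.eq_or_lt with h1 | h1
  · have h1 : D.w 1 = 0 := h1.symm
    rcases n2.eq_or_lt with h2 | h2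
    · obtain ⟨m, hm⟩ := D.bez (-1) 1 1 2 (by decide) h1 h2.symm
      exact D.key_int ht m hm
    rcases n3.eq_or_lt with h3 | h3
    · obtain ⟨m, hm⟩ := D.bez 9 (-2) 1 3 (by decide) h1 h3.symm
      exact D.key_int ht m hm
    rcases n4.eq_or_lt with h4 | h4
    · obtain ⟨m, hm⟩ := D.bez (-13) 2 1 4 (by decide) h1 h4.symm
      exact D.key_int ht m hm
    -- the point `1/5(1,2,3)`
    left
    obtain ⟨g2, v2⟩ := D.γ2 h0 h1 h2 h3 h4
    have l2 := D.log_ineq 2 g2
    have E2 := D.e_eq 2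
    rw [v2] at E2
    rw [h1, zero_add] at e1
    have a1 : 1 ≤ D.w 3 + D.w 4 := pos_int (D.v (D.pt 3) + D.v (D.pt 4) - 11 * D.v (D.pt 1))
      (by push_cast; linarith) (by linarith)
    have a2 : 1 ≤ 2 * D.w 0 + D.w 4 := pos_int (2 * D.v (D.pt 0) + D.v (D.pt 4) -
      7 * D.v (D.pt 1)) (by push_cast; linarith) (by linarith)
    have a3 : 1 ≤ 3 * D.w 0 + D.w 3 := pos_int (3 * D.v (D.pt 0) + D.v (D.pt 3) -
      5 * D.v (D.pt 1)) (by push_cast; linarith) (by linarith)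
    exact D.p5 h0 h1 h2 h3 h4 (D.A - 1) (by linarith) (by linarith) (by linarith)
  rcases n2.eq_or_lt with h2 | h2
  · have h2 : D.w 2 = 0 := h2.symm
    rcases n3.eq_or_lt with h3 | h3
    · have h3 : D.w 3 = 0 := h3.symm
      rcases n4.eq_or_lt with h4 | h4
      · -- all of `w, x, y` are units: `μ` is an integer
        have h4 : D.w 4 = 0 := h4.symm
        refine D.key_int ht (2 * D.v (D.pt 2) + D.v (D.pt 3) - D.v (D.pt 4)) ?_
        push_cast
        linarith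
      -- the class `1/2`
      left
      have hn : ((2 : ℕ) : ℚ) * D.μ = ((4 * D.v (D.pt 2) - D.v (D.pt 3) : ℤ) : ℚ) := by
        push_cast
        linarith
      have b0 := D.one_le_mul 2 (by norm_num) _ hn 0 h0
      have b1 := D.one_le_mul 2 (by norm_num) _ hn 1 h1
      have b4 := D.one_le_mul 2 (by norm_num) _ hn 4 h4
      push_cast at b0 b1 b4
      exact D.normX (D.A - 1) (by linarith) (by linarith) (by linarith) (by linarith)
    rcases n4.eq_or_lt with h4 | h4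
    · -- the class `1/3`
      have h4 : D.w 4 = 0 := h4.symm
      left
      have hn : ((3 : ℕ) : ℚ) * D.μ = ((D.v (D.pt 4) - 5 * D.v (D.pt 2) : ℤ) : ℚ) := by
        push_cast
        linarith
      have b0 := D.one_le_mul 3 (by norm_num) _ hn 0 h0
      have b3 := D.one_le_mul 3 (by norm_num) _ hn 3 h3
      push_cast at b0 b3 hn
      have a1 : 1 ≤ D.w 0 + D.w 1 := pos_int (D.v (D.pt 0) + D.v (D.pt 1) -
        2 * (D.v (D.pt 4) - 5 * D.v (D.pt 2))) (by push_cast; linarith) (by linarith)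
      have a2 : 1 ≤ D.w 1 + D.w 3 := pos_int (D.v (D.pt 1) + D.v (D.pt 3) -
        9 * (D.v (D.pt 4) - 5 * D.v (D.pt 2))) (by push_cast; linarith) (by linarith)
      exact D.normY (D.A - 1) (by linarith) (by linarith) (by linarith) (by linarith)
    · rcases D.f2 ht0 h0 h1 h2 with h | h
      · linarith
      · linarith
  · -- the point `1/11(1,5,6)`
    obtain ⟨h3, h4⟩ := D.f1 ht0 h0 h1 h2
    left
    have a1 : 1 ≤ D.w 1 + D.w 2 := pos_int (D.v (D.pt 1) + D.v (D.pt 2) -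
      (D.v (D.pt 4) - D.v (D.pt 3))) (by push_cast; linarith) (by linarith)
    have a2 : 1 ≤ D.w 2 + 5 * D.w 0 := pos_int (D.v (D.pt 2) + 5 * D.v (D.pt 0) -
      (D.v (D.pt 4) - D.v (D.pt 3))) (by push_cast; linarith) (by linarith)
    have a3 : 1 ≤ D.w 1 + 6 * D.w 0 := pos_int (D.v (D.pt 1) + 6 * D.v (D.pt 0) -
      (D.v (D.pt 4) - D.v (D.pt 3))) (by push_cast; linarith) (by linarith)
    exact D.p11 h0 h1 h2 h3 h4 (D.A - 1) (by linarith) (by linarith) (by linarith)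

end Pool.Agent.KO.KPt
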