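import Pool.Agent.KO.Key.TopB

/-! # Project KO, block KEY: the bound by the norm to `k[z, u, w, x]` -/

set_option autoImplicit false

namespace Pool.Agent.KO.KPt

open MvPolynomial

variable {k E : Type} [Field k] [CharZero k] [Field E] [Algebra k E] (D : KPt k E)

/-- The part of the equation without `x` and `y`. -/
private noncomputable def nyr (t : k) : MvPolynomial (Fin 5) k :=
  C t * X 2 ^ 11 + X 1 * X 0 * X 2 ^ 10 + X 1 ^ 12 * X 2 - X 0 ^ 66 - X 0 ^ 12 * X 2 ^ 9

/-- The part of the equation without `y`. -/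
private noncomputable def nyc (t : k) : MvPolynomial (Fin 5) k := X 3 ^ 3 + nyr t

/-- The substitution `z = 0`. -/
private noncomputable def nyφ : MvPolynomial (Fin 5) k →ₐ[k] MvPolynomial (Fin 5) k :=
  aeval fun i => if i = 0 then 0 else X i

omit [CharZero k] in
private theorem ny_gH (t : k) : gH t = X 4 ^ 2 + nyc t := by
  unfold gH nyc nyr
  ring

omit [CharZero k] in
private theorem ny_c4 (t : k) : pderiv 4 (nyc t) = 0 := by
  unfold nyc nyr
  simp [Derivation.leibniz, Derivation.leibniz_pow, pderiv_X]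

omit [CharZero k] in
private theorem ny_cw (t : k) : IsWeightedHomogeneous w5 (nyc t) (2 * w5 4) := by
  have h := (isWH_gH t).sub (((isWeightedHomogeneous_X k w5 4).pow 2))
  have h2 : gH t - X 4 ^ 2 = nyc t := by rw [ny_gH]; ring
  rw [h2] at h
  exact h

private theorem ny_deg (q : MvPolynomial (Fin 5) k) (hq : pderiv 3 q = 0) :
    degreeOf 3 (X 3 ^ 3 + q) % 2 = 1 := by
  have h1 : degreeOf 3 q = 0 := by
    rw [degreeOf_eq_sup, ← Nat.le_zero]
    refine Finset.sup_le fun n hn => ?_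
    exact (Nat.le_zero.2 ((pderiv_eq_zero_iff q 3).1 hq n hn))
  have h2 : degreeOf 3 (X 3 ^ 3 : MvPolynomial (Fin 5) k) = 3 := degreeOf_X_self_pow _ _
  rw [degreeOf_add_eq_of_degreeOf_lt (by rw [h1, h2]; norm_num), h2]

private theorem ny_degc (t : k) : degreeOf 3 (nyc t) % 2 = 1 := by
  unfold nyc
  apply ny_deg
  unfold nyr
  simp [Derivation.leibniz, Derivation.leibniz_pow, pderiv_X]

private theorem ny_degφ (t : k) : degreeOf 3 (nyφ (nyc t)) % 2 = 1 := by
  have h : nyφ (nyc t) = X 3 ^ 3 + (C t * X 2 ^ 11 + X 1 ^ 12 * X 2) := by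
    unfold nyφ nyc nyr
    simp
  rw [h]
  apply ny_deg
  simp [Derivation.leibniz, Derivation.leibniz_pow, pderiv_X]

omit [CharZero k] in
private theorem ny_dvd (p : MvPolynomial (Fin 5) k) (h : nyφ p = 0) : X 0 ∣ p := by
  rw [← Ideal.mem_span_singleton, ← Ideal.Quotient.eq_zero_iff_mem]
  have h1 : (Ideal.Quotient.mkₐ k (Ideal.span {(X 0 : MvPolynomial (Fin 5) k)})).comp nyφ =
      Ideal.Quotient.mkₐ k (Ideal.span {(X 0 : MvPolynomial (Fin 5) k)}) := by
    apply MvPolynomial.algHom_ext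
    intro i
    unfold nyφ
    by_cases hi : i = 0
    · subst hi
      simp only [AlgHom.comp_apply, aeval_X, if_true, map_zero]
      symm
      rw [Ideal.Quotient.mkₐ_eq_mk, Ideal.Quotient.eq_zero_iff_mem]
      exact Ideal.mem_span_singleton_self _
    · simp [AlgHom.comp_apply, hi]
  have h2 := congrArg (fun f => f p) h1
  simp only [AlgHom.comp_apply, h, map_zero] at h2
  rw [Ideal.Quotient.mkₐ_eq_mk] at h2
  exact h2.symm

omit [CharZero k] in
private theorem ny_φzero (p : MvPolynomial (Fin 5) k) (h : ∀ n ∈ p.support, n 0 ≠ 0) :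
    nyφ p = 0 := by
  unfold nyφ
  rw [aeval_def, eval₂_eq']
  refine Finset.sum_eq_zero fun n hn => ?_
  rw [Finset.prod_eq_zero (Finset.mem_univ (0 : Fin 5)), mul_zero]
  simp [h n hn]

omit [CharZero k] in
private theorem ny_wh {p : MvPolynomial (Fin 5) k} {d : ℕ}
    (h : IsWeightedHomogeneous w5 (X 0 * p) d) (hp : p ≠ 0) :
    ∃ e, e + 1 = d ∧ IsWeightedHomogeneous w5 p e := by
  have key : ∀ n, p.coeff n ≠ 0 → Finsupp.weight w5 n + 1 = d := by
    intro n hn
    have h1 : coeff (Finsupp.single 0 1 + n) (X 0 * p) ≠ 0 := by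
      rwa [coeff_X_mul]
    have h2 := h h1
    rw [map_add, Finsupp.weight_single] at h2
    have h3 : w5 0 = 1 := rfl
    rw [h3, one_smul] at h2
    omega
  obtain ⟨n, hn⟩ := ne_zero_iff.1 hp
  refine ⟨Finsupp.weight w5 n, key n hn, fun m hm => ?_⟩
  have := key n hn
  have := key m hm
  omega

/-- One step: the bound, or all the monomials contain `z`. -/
private theorem ny_step (B : ℚ) (hz : D.w 0 ≤ B) (h1 : 2 * (D.w 1 + D.e 4) ≤ 5 * B)
    (h2 : 2 * (D.w 2 + D.e 4) ≤ 6 * B) (h3 : 2 * (D.w 3 + D.e 4) ≤ 22 * B) (d : ℕ)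
    (a b : MvPolynomial (Fin 5) k) (ha : pderiv 4 a = 0) (hb : pderiv 4 b = 0)
    (hwa : IsWeightedHomogeneous w5 a d)
    (hwb : b = 0 ∨ ∃ e, e + 33 = d ∧ IsWeightedHomogeneous w5 b e) (hab : a ≠ 0 ∨ b ≠ 0) :
    D.ev (a + b * X 4) ≠ 0 ∧ (D.vh d (a + b * X 4) ≤ d * B ∨ (X 0 ∣ a ∧ X 0 ∣ b)) := by
  have hB : 0 ≤ B := le_trans (D.w_nonneg 0) hz
  set N : MvPolynomial (Fin 5) k := a ^ 2 + b ^ 2 * nyc D.t with hN
  have hN0 : N ≠ 0 := quad_ne a b _ 3 (ny_degc D.t) hab
  have hN4 : pderiv 4 N = 0 := by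
    rw [hN, map_add, (pderiv 4).leibniz_pow, (pderiv 4).leibniz, (pderiv 4).leibniz_pow, ha, hb,
      ny_c4]
    simp
  have hwby : IsWeightedHomogeneous w5 (b * X 4) d := by
    rcases hwb with rfl | ⟨e, he, hwb⟩
    · rw [zero_mul]
      exact isWeightedHomogeneous_zero k w5 d
    · have := hwb.mul (isWeightedHomogeneous_X k w5 4)
      rw [show e + w5 4 = d from he] at this
      exact this
  have hwN : IsWeightedHomogeneous w5 N (d + d) := by
    have h5 : IsWeightedHomogeneous w5 (a ^ 2) (d + d) := by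
      rw [pow_two]
      exact hwa.mul hwa
    have h6 : IsWeightedHomogeneous w5 (b ^ 2 * nyc D.t) (d + d) := by
      rcases hwb with rfl | ⟨e, he, hwb⟩
      · simp only [ne_eq, OfNat.ofNat_ne_zero, not_false_eq_true, zero_pow, zero_mul]
        exact isWeightedHomogeneous_zero k w5 _
      · have := (hwb.mul hwb).mul (ny_cw D.t)
        rw [show e + e + 2 * w5 4 = d + d by
          have : w5 4 = 33 := rfl
          omega] at this
        rw [pow_two]
        exact this
    exact h5.add h6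
  have hevN : D.ev N ≠ 0 := D.ev_ne_free hwN hN0 4 hN4
  have hfac : D.ev N = D.ev ((a + b * X 4) * (a - b * X 4)) := by
    apply D.ev_congr
    refine ⟨b ^ 2, ?_⟩
    rw [hN, ny_gH]
    ring
  have hmul : D.ev (a + b * X 4) * D.ev (a - b * X 4) ≠ 0 := by
    rw [← D.ev_mul, ← hfac]
    exact hevN
  have hev1 : D.ev (a + b * X 4) ≠ 0 := left_ne_zero_of_mul hmul
  have hev2 : D.ev (a - b * X 4) ≠ 0 := right_ne_zero_of_mul hmul
  refine ⟨hev1, ?_⟩
  have hsum := D.vh_mul (d := d) (e := d) hev1 hev2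
  have hnn := D.vh_nonneg (hwa.sub hwby) hev2
  have hvN : D.vh (d + d) N = D.vh (d + d) ((a + b * X 4) * (a - b * X 4)) := by
    unfold vh
    rw [hfac]
  by_cases hall : ∀ n ∈ N.support, n 0 ≠ 0
  · right
    have h0 : nyφ N = 0 := ny_φzero N hall
    rw [hN, map_add, map_mul, map_pow, map_pow] at h0
    by_contra hcon
    have h7 : nyφ a ≠ 0 ∨ nyφ b ≠ 0 := by
      by_contra h8
      push Not at h8
      exact hcon ⟨ny_dvd a h8.1, ny_dvd b h8.2⟩
    exact quad_ne _ _ _ 3 (ny_degφ D.t) h7 h0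
  · left
    push Not at hall
    obtain ⟨n, hn, hn0⟩ := hall
    have hn4 : n 4 = 0 := (pderiv_eq_zero_iff N 4).1 hN4 n hn
    have htop := D.top_bound 4 D.vγ_four.1 hwN hN4 hn
    have hwt : Finsupp.weight w5 n = d + d := hwN (mem_support_iff.1 hn)
    rw [Finsupp.weight_apply, Finsupp.sum_fintype _ _ (by simp)] at hwt
    simp only [Fin.sum_univ_five, smul_eq_mul, hn0, hn4] at hwt
    have e1 : w5 1 = 5 := rfl
    have e2 : w5 2 = 6 := rfl
    have e3 : w5 3 = 22 := rfl
    rw [e1, e2, e3] at hwt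
    have hs : ∑ l ∈ Finset.univ.erase (4 : Fin 5), (n l : ℚ) * (D.w l + D.e 4) =
        n 0 * (D.w 0 + D.e 4) + n 1 * (D.w 1 + D.e 4) + n 2 * (D.w 2 + D.e 4) +
          n 3 * (D.w 3 + D.e 4) := by
      have : (Finset.univ.erase (4 : Fin 5)) = {0, 1, 2, 3} := by decide
      rw [this]
      rw [Finset.sum_insert (by decide), Finset.sum_insert (by decide),
        Finset.sum_insert (by decide), Finset.sum_singleton]
      ring
    rw [hs, hn0] at htop
    have hq : (n 1 : ℚ) * 5 + n 2 * 6 + n 3 * 22 = d + d := by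
      have : n 1 * 5 + n 2 * 6 + n 3 * 22 = d + d := by omega
      exact_mod_cast this
    have q1 : (0 : ℚ) ≤ n 1 := Nat.cast_nonneg _
    have q2 : (0 : ℚ) ≤ n 2 := Nat.cast_nonneg _
    have q3 : (0 : ℚ) ≤ n 3 := Nat.cast_nonneg _
    have m1 := mul_le_mul_of_nonneg_left h1 q1
    have m2 := mul_le_mul_of_nonneg_left h2 q2
    have m3 := mul_le_mul_of_nonneg_left h3 q3
    have hfin : (d + d : ℚ) * B = n 1 * (5 * B) + n 2 * (6 * B) + n 3 * (22 * B) := by
      rw [← hq]
      ring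
    simp only [Nat.cast_zero, zero_mul, zero_add] at htop
    nlinarith

/-- The bound for `a + b y`. -/
private theorem ny_core (B : ℚ) (hz : D.w 0 ≤ B) (h1 : 2 * (D.w 1 + D.e 4) ≤ 5 * B)
    (h2 : 2 * (D.w 2 + D.e 4) ≤ 6 * B) (h3 : 2 * (D.w 3 + D.e 4) ≤ 22 * B) (d : ℕ) :
    ∀ a b : MvPolynomial (Fin 5) k, pderiv 4 a = 0 → pderiv 4 b = 0 →
      IsWeightedHomogeneous w5 a d → (b = 0 ∨ ∃ e, e + 33 = d ∧ IsWeightedHomogeneous w5 b e) →
      (a ≠ 0 ∨ b ≠ 0) → D.vh d (a + b * X 4) ≤ d * B := by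
  induction d with
  | zero =>
    intro a b ha hb hwa hwb hab
    rcases (D.ny_step B hz h1 h2 h3 0 a b ha hb hwa hwb hab).2 with h | ⟨⟨a', rfl⟩, ⟨b', rfl⟩⟩
    · exact h
    · exfalso
      rcases hab with h | h
      · obtain ⟨e, he, _⟩ := ny_wh hwa (right_ne_zero_of_mul h)
        omega
      · rcases hwb with h0 | ⟨e, he, _⟩
        · exact h h0
        · omega
  | succ d ih =>
    intro a b ha hb hwa hwb hab
    rcases (D.ny_step B hz h1 h2 h3 (d + 1) a b ha hb hwa hwb hab) with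
      ⟨hne, h | ⟨⟨a', rfl⟩, ⟨b', rfl⟩⟩⟩
    · exact h
    · have hX : (X 0 : MvPolynomial (Fin 5) k) ≠ 0 := X_ne_zero 0
      have hd4 : ∀ p : MvPolynomial (Fin 5) k, pderiv 4 (X 0 * p) = 0 → pderiv 4 p = 0 := by
        intro p hp
        rw [(pderiv 4).leibniz, pderiv_X_of_ne (by decide), smul_zero, add_zero,
          smul_eq_mul] at hp
        exact (mul_eq_zero.1 hp).resolve_left hX
      have hwa' : IsWeightedHomogeneous w5 a' d := by
        by_cases h0 : a' = 0
        · rw [h0]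
          exact isWeightedHomogeneous_zero k w5 d
        · obtain ⟨e, he, hwe⟩ := ny_wh hwa h0
          rw [show e = d by omega] at hwe
          exact hwe
      have hwb' : b' = 0 ∨ ∃ e, e + 33 = d ∧ IsWeightedHomogeneous w5 b' e := by
        by_cases h0 : b' = 0
        · exact Or.inl h0
        · right
          rcases hwb with h0' | ⟨e, he, hwe⟩
          · exact absurd h0' (mul_ne_zero hX h0)
          · obtain ⟨e', he', hwe'⟩ := ny_wh hwe h0
            exact ⟨e', by omega, hwe'⟩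
      have hab' : a' ≠ 0 ∨ b' ≠ 0 := hab.imp right_ne_zero_of_mul right_ne_zero_of_mul
      have hih := ih a' b' (hd4 a' ha) (hd4 b' hb) hwa' hwb' hab'
      have heq : X 0 * a' + X 0 * b' * X 4 = X 0 * (a' + b' * X 4) := by ring
      rw [heq] at hne ⊢
      have hne' : D.ev (X 0) * D.ev (a' + b' * X 4) ≠ 0 := by
        rw [← D.ev_mul]
        exact hne
      have hm := D.vh_mul (d := 1) (e := d) (left_ne_zero_of_mul hne')
        (right_ne_zero_of_mul hne')
      have hX0 : D.vh 1 (X 0) = D.w 0 := D.vh_X 0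
      rw [hX0, add_comm 1 d] at hm
      rw [hm]
      push_cast
      linarith

theorem normY (B : ℚ) (hz : D.w 0 ≤ B) (h1 : 2 * (D.w 1 + D.e 4) ≤ 5 * B)
    (h2 : 2 * (D.w 2 + D.e 4) ≤ 6 * B) (h3 : 2 * (D.w 3 + D.e 4) ≤ 22 * B) (d : ℕ)
    (P : MvPolynomial (Fin 5) k) (hP : IsWeightedHomogeneous w5 P d) (hd : ¬ gH D.t ∣ P) :
    D.vh d P ≤ d * B := by
  obtain ⟨α, hα, hwα, hdvd⟩ := exists_nf w5 4 2 (by norm_num) (nyc D.t) (ny_c4 D.t) (ny_cw D.t)
    d P hP
  rw [← ny_gH, Fin.sum_univ_two] at hdvd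
  simp only [Fin.val_zero, pow_zero, mul_one, Fin.val_one, pow_one] at hdvd
  have hev : D.vh d P = D.vh d (α 0 + α 1 * X 4) := by
    unfold vh
    rw [D.ev_congr hdvd]
  rw [hev]
  apply D.ny_core B hz h1 h2 h3 d _ _ (hα 0) (hα 1)
  · rcases hwα 0 with h | ⟨e, he, h⟩
    · rw [h]
      exact isWeightedHomogeneous_zero k w5 d
    · simp only [Fin.val_zero, zero_mul, add_zero] at he
      rw [← he]
      exact h
  · rcases hwα 1 with h | ⟨e, he, h⟩
    · exact Or.inl h
    · right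
      refine ⟨e, ?_, h⟩
      have h33 : w5 4 = 33 := rfl
      rw [h33] at he
      simpa using he
  · by_contra hcon
    push Not at hcon
    rw [hcon.1, hcon.2, zero_mul, add_zero, sub_zero] at hdvd
    exact hd hdvd

end Pool.Agent.KO.KPt
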