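import Pool.Agent.KO.Key.Hom

/-! # Project KO, block KEY: the star inequality and the log inequality -/

set_option autoImplicit false

namespace Pool.Agent.KO.KPt

open MvPolynomial

variable {k E : Type} [Field k] [CharZero k] [Field E] [Algebra k E] (D : KPt k E)

private theorem det_two {E : Type} [Field E] (j l : Fin 5) (h : j ≠ l) (g p : Fin 5 → E) :
    (Matrix.of fun a i : Fin 5 => if a = j then g i else if a = l then p i
      else if a = i then 1 else 0).det = g j * p l - g l * p j := by
  have h' : l ≠ j := Ne.symm h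
  let U : Matrix (Fin 5) (Fin 2) E := Matrix.of fun a r =>
    if a = ![j, l] r then 1 else 0
  let V : Matrix (Fin 2) (Fin 5) E := Matrix.of fun r i =>
    ![g i - (if i = j then 1 else 0), p i - (if i = l then 1 else 0)] r
  have h1 : (Matrix.of fun a i : Fin 5 => if a = j then g i else if a = l then p i
      else if a = i then (1 : E) else 0) = 1 + U * V := by
    ext a i
    simp only [Matrix.of_apply, Matrix.add_apply, Matrix.mul_apply, Fin.sum_univ_two, U, V,
      Matrix.cons_val_zero, Matrix.cons_val_one, Matrix.one_apply]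
    by_cases ha : a = j
    · subst ha
      rw [if_pos rfl, if_pos rfl, if_neg h]
      by_cases hi : a = i
      · rw [if_pos hi, if_pos hi.symm]
        ring
      · rw [if_neg hi, if_neg (Ne.symm hi)]
        ring
    · rw [if_neg ha, if_neg ha]
      by_cases ha' : a = l
      · subst ha'
        rw [if_pos rfl, if_pos rfl]
        by_cases hi : a = i
        · rw [if_pos hi, if_pos hi.symm]
          ring
        · rw [if_neg hi, if_neg (Ne.symm hi)]
          ring
      · rw [if_neg ha', if_neg ha', zero_mul, zero_mul, add_zero, add_zero]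
  have h2 : V * U = Matrix.of ![![g j - 1, g l], ![p j, p l - 1]] := by
    ext r c
    simp only [Matrix.mul_apply, U, V, Matrix.of_apply, mul_ite, mul_one, mul_zero,
      Finset.sum_ite_eq', Finset.mem_univ, if_true]
    fin_cases r <;> fin_cases c <;> simp [h, h']
  rw [h1, Matrix.det_one_add_mul_comm, h2, Matrix.det_fin_two]
  simp

private theorem ev_pderiv_X (i a : Fin 5) :
    D.ev (pderiv i (X a : MvPolynomial (Fin 5) k)) = if a = i then 1 else 0 := by
  rw [pderiv_X]
  by_cases h : a = i
  · subst h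
    simp
  · rw [Pi.single_eq_of_ne h, if_neg h, D.ev_zero]

private theorem pderiv_swap (i j : Fin 5) (P : MvPolynomial (Fin 5) k) :
    pderiv i (pderiv j P) = pderiv j (pderiv i P) := by
  have h : ⁅pderiv (R := k) i, pderiv (R := k) j⁆ = 0 := by
    refine derivation_ext fun a => ?_
    rw [Derivation.commutator_apply, pderiv_X, pderiv_X, Derivation.coe_zero, Pi.zero_apply]
    have h1 : ∀ m m' : Fin 5, pderiv (R := k) m
        (Pi.single (M := fun _ => MvPolynomial (Fin 5) k) m' 1 a) = 0 := by
      intro m m'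
      by_cases hm : a = m'
      · subst hm
        rw [Pi.single_eq_same, Derivation.map_one_eq_zero]
      · rw [Pi.single_eq_of_ne hm, map_zero]
    rw [h1, h1, sub_zero]
  have h2 := congrArg (fun d => d P) h
  simp only [Derivation.commutator_apply, Derivation.coe_zero, Pi.zero_apply] at h2
  exact sub_eq_zero.1 h2

private theorem sum_w5 (j : Fin 5) :
    ∑ i ∈ Finset.univ.erase j, (w5 i : ℚ) = 67 - w5 j := by
  have h := Finset.add_sum_erase Finset.univ (fun i : Fin 5 => (w5 i : ℚ)) (Finset.mem_univ j)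
  have h1 : ∑ i : Fin 5, (w5 i : ℚ) = 67 := by
    simp [Fin.sum_univ_succ, w5]
    norm_num
  rw [h1] at h
  linarith

private theorem grad_X (j : Fin 5) : (D.grad j (fun a => X a)).det = D.γ j := by
  obtain ⟨l, hl⟩ : ∃ l : Fin 5, j ≠ l := by
    by_cases h : j = 0
    · exact ⟨1, by rw [h]; decide⟩
    · exact ⟨0, h⟩
  have h1 : D.grad j (fun a => X a) = Matrix.of fun a i : Fin 5 => if a = j then D.γ i
      else if a = l then (if l = i then 1 else 0) else if a = i then 1 else 0 := by
    ext a i
    simp only [grad, Matrix.of_apply, ev_pderiv_X]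
    by_cases ha : a = j
    · simp [ha]
    · rw [if_neg ha, if_neg ha]
      by_cases ha' : a = l
      · rw [if_pos ha', ha']
      · rw [if_neg ha']
  rw [h1, det_two j l hl]
  simp [Ne.symm hl]

theorem log_ineq (j : Fin 5) (hj : D.γ j ≠ 0) : 0 ≤ D.e j := by
  have h1 := D.jac_le j (fun a => X a) w5 (fun a _ => isWeightedHomogeneous_X k w5 a)
    (by rw [grad_X]; exact hj)
  rw [grad_X] at h1
  simp only [ev_X] at h1
  have h2 : (∑ a ∈ Finset.univ.erase j, (D.v (D.pt a) : ℚ)) ≤ D.Lam + D.v (D.γ j) := by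
    exact_mod_cast h1
  have h3 : ∑ i ∈ Finset.univ.erase j, D.w i =
      ∑ a ∈ Finset.univ.erase j, (D.v (D.pt a) : ℚ) - (67 - w5 j) * D.μ := by
    rw [← sum_w5 j, Finset.sum_mul, ← Finset.sum_sub_distrib]
    rfl
  rw [e, h3, A, vγ]
  linarith

theorem star (j l : Fin 5) (hjl : j ≠ l) {d : ℕ} {P : MvPolynomial (Fin 5) k}
    (hP : IsWeightedHomogeneous w5 P d)
    (h : D.γ j * D.ev (pderiv l P) - D.γ l * D.ev (pderiv j P) ≠ 0) :
    D.vh d P + ∑ i ∈ (Finset.univ.erase j).erase l, D.w i ≤
      D.A + (D.v (D.γ j * D.ev (pderiv l P) - D.γ l * D.ev (pderiv j P)) -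
        (d + 66 - w5 j - w5 l) * D.μ) := by
  have hg : (D.grad j (fun a => if a = l then P else X a)).det =
      D.γ j * D.ev (pderiv l P) - D.γ l * D.ev (pderiv j P) := by
    have h1 : D.grad j (fun a => if a = l then P else X a) = Matrix.of fun a i : Fin 5 =>
        if a = j then D.γ i else if a = l then D.ev (pderiv i P)
          else if a = i then 1 else 0 := by
      ext a i
      simp only [grad, Matrix.of_apply]
      by_cases ha : a = j
      · simp [ha]
      · rw [if_neg ha, if_neg ha]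
        by_cases ha' : a = l
        · rw [if_pos ha', if_pos ha']
        · rw [if_neg ha', if_neg ha', ev_pderiv_X]
    rw [h1, det_two j l hjl]
  have h1 := D.jac_le j (fun a => if a = l then P else X a) (fun a => if a = l then d else w5 a)
    (by
      intro a _
      by_cases ha : a = l
      · simpa [ha] using hP
      · simpa [ha] using isWeightedHomogeneous_X k w5 a)
    (by rw [hg]; exact h)
  rw [hg] at h1
  have hl : l ∈ Finset.univ.erase j := Finset.mem_erase.2 ⟨Ne.symm hjl, Finset.mem_univ l⟩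
  rw [← Finset.add_sum_erase _ _ hl, if_pos rfl] at h1
  have h0 : ∑ a ∈ (Finset.univ.erase j).erase l, D.v (D.ev (if a = l then P else X a)) =
      ∑ a ∈ (Finset.univ.erase j).erase l, D.v (D.pt a) := by
    refine Finset.sum_congr rfl fun a ha => ?_
    rw [if_neg (Finset.ne_of_mem_erase ha), ev_X]
  rw [h0] at h1
  have h2 : (D.v (D.ev P) : ℚ) + ∑ a ∈ (Finset.univ.erase j).erase l, (D.v (D.pt a) : ℚ) ≤
      D.Lam + D.v (D.γ j * D.ev (pderiv l P) - D.γ l * D.ev (pderiv j P)) := by
    exact_mod_cast h1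
  have h4 : ∑ i ∈ (Finset.univ.erase j).erase l, (w5 i : ℚ) = 67 - w5 j - w5 l := by
    have h5 := Finset.add_sum_erase _ (fun i : Fin 5 => (w5 i : ℚ)) hl
    rw [sum_w5] at h5
    linarith
  have h3 : ∑ i ∈ (Finset.univ.erase j).erase l, D.w i =
      ∑ a ∈ (Finset.univ.erase j).erase l, (D.v (D.pt a) : ℚ) - (67 - w5 j - w5 l) * D.μ := by
    rw [← h4, Finset.sum_mul, ← Finset.sum_sub_distrib]
    rfl
  rw [h3, A, vh]
  linarith

/-- The star inequality for a polynomial free of `X j`. -/
theorem star_free (j l : Fin 5) (hjl : j ≠ l) (hj : D.γ j ≠ 0) {d e : ℕ}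
    {P : MvPolynomial (Fin 5) k} (hP : IsWeightedHomogeneous w5 P d) (hPj : pderiv j P = 0)
    (hl : pderiv l P ≠ 0) (he : e + w5 l = d) :
    D.vh d P ≤ D.w l + D.e j + D.vh e (pderiv l P) := by
  have hQ : IsWeightedHomogeneous w5 (pderiv l P) e := hP.pderiv he
  have hcomm : pderiv j (pderiv l P) = 0 := by
    rw [pderiv_swap, hPj, map_zero]
  have h1 : D.ev (pderiv l P) ≠ 0 := D.ev_ne_free hQ hl j hcomm
  have h2 : D.γ j * D.ev (pderiv l P) - D.γ l * D.ev (pderiv j P) =
      D.γ j * D.ev (pderiv l P) := by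
    rw [hPj, D.ev_zero, mul_zero, sub_zero]
  have h3 := D.star j l hjl hP (by rw [h2]; exact mul_ne_zero hj h1)
  rw [h2, D.mul _ _ hj h1] at h3
  have hlm : l ∈ Finset.univ.erase j := Finset.mem_erase.2 ⟨Ne.symm hjl, Finset.mem_univ l⟩
  have h4 := Finset.add_sum_erase _ (fun i => D.w i) hlm
  have h5 : (d : ℚ) = e + w5 l := by exact_mod_cast he.symm
  rw [KPt.e, vγ, ← h4]
  simp only [vh] at h3 ⊢
  push_cast at h3
  rw [h5] at h3 ⊢
  linarith

/-- If `μ` is an integer and the point is quasi-smooth along the centre then `A ≥ 1`. -/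
theorem one_le_A (m : ℤ) (hm : D.μ = m) (j : Fin 5) (hj : D.γ j ≠ 0) (hj0 : D.vγ j = 0) :
    1 ≤ D.A := by
  have h1 := D.jac_le1 m hm j (fun a => X a) w5 (fun a _ => isWeightedHomogeneous_X k w5 a)
    (by rw [grad_X]; exact hj)
  rw [grad_X] at h1
  have h2 : (∑ a ∈ Finset.univ.erase j, (w5 a : ℚ) * m) + 1 ≤ D.Lam + D.v (D.γ j) := by
    exact_mod_cast h1
  rw [← Finset.sum_mul, sum_w5] at h2
  rw [vγ, hm] at hj0
  rw [A, hm]
  linarith

end Pool.Agent.KO.KPt
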