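import Pool.Agent.KO.Key.Star

/-! # Project KO, block KEY: two polynomials, and polynomials of least degree -/

set_option autoImplicit false

namespace Pool.Agent.KO.KPt

open MvPolynomial

variable {k E : Type} [Field k] [CharZero k] [Field E] [Algebra k E] (D : KPt k E)

private theorem pderiv_comm' {σ R : Type} [CommRing R] (i j : σ) (P : MvPolynomial σ R) :
    pderiv i (pderiv j P) = pderiv j (pderiv i P) := by
  have h : ⁅(pderiv i : Derivation R (MvPolynomial σ R) (MvPolynomial σ R)),
      (pderiv j : Derivation R (MvPolynomial σ R) (MvPolynomial σ R))⁆ = 0 := by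
    apply derivation_ext
    intro l
    rw [Derivation.commutator_apply, Derivation.zero_apply]
    classical
    rw [pderiv_X, pderiv_X]
    have h1 : ∀ a b : σ, pderiv a ((Pi.single b 1 : σ → MvPolynomial σ R) l) = 0 := by
      intro a b
      by_cases hb : l = b
      · subst hb; simp
      · rw [Pi.single_eq_of_ne hb, map_zero]
    rw [h1, h1, sub_zero]
  have h2 := congrArg (fun δ => δ P) h
  simp only [Derivation.commutator_apply, Derivation.zero_apply] at h2
  exact sub_eq_zero.1 h2

private theorem det_three {F : Type} [Field F] (M : Matrix (Fin 5) (Fin 5) F) (j l l' : Fin 5)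
    (hjl : j ≠ l) (hjl' : j ≠ l') (hll' : l ≠ l')
    (h1 : ∀ a i, a ≠ j → a ≠ l → a ≠ l' → M a i = if a = i then 1 else 0)
    (hlj : M l j = 0) (hl'j : M l' j = 0) (hl'l : M l' l = 0) :
    M.det = M j j * M l l * M l' l' := by
  classical
  rw [Matrix.det_apply', Finset.sum_eq_single (1 : Equiv.Perm (Fin 5))]
  · rw [Equiv.Perm.sign_one]
    simp only [Units.val_one, Int.cast_one, one_mul, Equiv.Perm.coe_one, id_eq]
    rw [← Finset.mul_prod_erase Finset.univ _ (Finset.mem_univ j),
      ← Finset.mul_prod_erase (Finset.univ.erase j) _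
        (Finset.mem_erase.2 ⟨hjl.symm, Finset.mem_univ l⟩),
      ← Finset.mul_prod_erase ((Finset.univ.erase j).erase l) _
        (Finset.mem_erase.2 ⟨hll'.symm, Finset.mem_erase.2 ⟨hjl'.symm, Finset.mem_univ l'⟩⟩),
      Finset.prod_eq_one, mul_one, mul_assoc]
    intro a ha
    simp only [Finset.mem_erase, Finset.mem_univ, and_true] at ha
    rw [h1 a a ha.2.2 ha.2.1 ha.1, if_pos rfl]
  · intro σ _ hσ
    by_contra hne
    have h2 : ∀ i, M (σ i) i ≠ 0 := by
      intro i
      have h3 := right_ne_zero_of_mul hne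
      exact Finset.prod_ne_zero_iff.1 h3 i (Finset.mem_univ i)
    have h3 : ∀ i, σ i ≠ j → σ i ≠ l → σ i ≠ l' → σ i = i := by
      intro i ha hb hc
      by_contra h4
      exact h2 i (by rw [h1 _ _ ha hb hc, if_neg h4])
    have hS : ∀ i, i ≠ j → i ≠ l → i ≠ l' → σ i = i := by
      intro i ha hb hc
      have h4 := h3 (σ.symm i)
      rw [Equiv.apply_symm_apply] at h4
      have h5 := h4 ha hb hc
      rw [Equiv.eq_symm_apply] at h5
      exact h5
    have hinv : ∀ i, (i = j ∨ i = l ∨ i = l') → (σ i = j ∨ σ i = l ∨ σ i = l') := by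
      intro i hi
      by_contra h4
      push Not at h4
      have h5 := h3 i h4.1 h4.2.1 h4.2.2
      rw [h5] at h4
      rcases hi with rfl | rfl | rfl
      · exact h4.1 rfl
      · exact h4.2.1 rfl
      · exact h4.2.2 rfl
    have hj : σ j = j := by
      rcases hinv j (Or.inl rfl) with h | h | h
      · exact h
      · exact absurd (by rw [h]; exact hlj) (h2 j)
      · exact absurd (by rw [h]; exact hl'j) (h2 j)
    have hl : σ l = l := by
      rcases hinv l (Or.inr (Or.inl rfl)) with h | h | h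
      · exact absurd (σ.injective (h.trans hj.symm)) hjl.symm
      · exact h
      · exact absurd (by rw [h]; exact hl'l) (h2 l)
    have hl' : σ l' = l' := by
      rcases hinv l' (Or.inr (Or.inr rfl)) with h | h | h
      · exact absurd (σ.injective (h.trans hj.symm)) hjl'.symm
      · exact absurd (σ.injective (h.trans hl.symm)) hll'.symm
      · exact h
    apply hσ
    ext i
    rw [Equiv.Perm.coe_one, id_eq]
    congr 1
    by_cases ha : i = j
    · rw [ha, hj]
    by_cases hb : i = l
    · rw [hb, hl]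
    by_cases hc : i = l'
    · rw [hc, hl']
    exact hS i ha hb hc
  · intro h
    exact absurd (Finset.mem_univ _) h

private theorem w5_sum (j l l' : Fin 5) (hjl : j ≠ l) (hjl' : j ≠ l') (hll' : l ≠ l') :
    (∑ i ∈ ((Finset.univ.erase j).erase l).erase l', (w5 i : ℚ)) =
      67 - w5 j - w5 l - w5 l' := by
  have h0 : (∑ i : Fin 5, (w5 i : ℚ)) = 67 := by
    simp [Fin.sum_univ_five, w5]
    norm_num
  rw [← Finset.add_sum_erase Finset.univ _ (Finset.mem_univ j),
    ← Finset.add_sum_erase (Finset.univ.erase j) _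
      (Finset.mem_erase.2 ⟨hjl.symm, Finset.mem_univ l⟩),
    ← Finset.add_sum_erase ((Finset.univ.erase j).erase l) _
      (Finset.mem_erase.2 ⟨hll'.symm, Finset.mem_erase.2 ⟨hjl'.symm, Finset.mem_univ l'⟩⟩)] at h0
  linarith

/-- Two polynomials. -/
theorem star2 (j l l' : Fin 5) (hjl : j ≠ l) (hjl' : j ≠ l') (hll' : l ≠ l') (hj : D.γ j ≠ 0)
    {d e d' e' : ℕ} {P Q : MvPolynomial (Fin 5) k} (hP : IsWeightedHomogeneous w5 P d)
    (hQ : IsWeightedHomogeneous w5 Q d') (hPj : pderiv j P = 0) (hQj : pderiv j Q = 0)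
    (hQl : pderiv l Q = 0) (hPl : pderiv l P ≠ 0) (hQl' : pderiv l' Q ≠ 0)
    (he : e + w5 l = d) (he' : e' + w5 l' = d') :
    D.vh d P + D.vh d' Q + ∑ i ∈ ((Finset.univ.erase j).erase l).erase l', D.w i ≤
      D.A + D.vγ j + D.vh e (pderiv l P) + D.vh e' (pderiv l' Q) := by
  classical
  have hPe : D.ev (pderiv l P) ≠ 0 := D.ev_ne_free (hP.pderiv he) hPl j (by
    rw [pderiv_comm', hPj, map_zero])
  have hQe : D.ev (pderiv l' Q) ≠ 0 := D.ev_ne_free (hQ.pderiv he') hQl' j (by
    rw [pderiv_comm', hQj, map_zero])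
  set F : Fin 5 → MvPolynomial (Fin 5) k := fun a => if a = l then P else if a = l' then Q else X a
    with hFdef
  set dd : Fin 5 → ℕ := fun a => if a = l then d else if a = l' then d' else w5 a with hdd
  have hF : ∀ a, a ≠ j → IsWeightedHomogeneous w5 (F a) (dd a) := by
    intro a _
    simp only [hFdef, hdd]
    split_ifs with h1 h2
    · exact hP
    · exact hQ
    · exact isWeightedHomogeneous_X k w5 a
  have hdet : (D.grad j F).det = D.γ j * D.ev (pderiv l P) * D.ev (pderiv l' Q) := by
    rw [det_three (D.grad j F) j l l' hjl hjl' hll']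
    · simp [grad, hFdef, hjl.symm, hjl'.symm, hll'.symm]
    · intro a i ha hb hc
      simp only [grad, hFdef, Matrix.of_apply, if_neg ha, if_neg hb, if_neg hc]
      rw [pderiv_X]
      by_cases hai : a = i
      · subst hai
        rw [Pi.single_eq_same, D.ev_one, if_pos rfl]
      · rw [Pi.single_eq_of_ne hai, D.ev_zero, if_neg hai]
    · simp [grad, hFdef, hjl.symm, hPj]
    · simp [grad, hFdef, hjl'.symm, hll'.symm, hQj]
    · simp [grad, hFdef, hjl'.symm, hll'.symm, hQl]
  have hN : (D.grad j F).det ≠ 0 := by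
    rw [hdet]
    exact mul_ne_zero (mul_ne_zero hj hPe) hQe
  have hle := D.jac_le j F dd hF hN
  rw [hdet, D.mul _ _ (mul_ne_zero hj hPe) hQe, D.mul _ _ hj hPe,
    ← Finset.add_sum_erase (Finset.univ.erase j) _
      (Finset.mem_erase.2 ⟨hjl.symm, Finset.mem_univ l⟩),
    ← Finset.add_sum_erase ((Finset.univ.erase j).erase l) _
      (Finset.mem_erase.2 ⟨hll'.symm, Finset.mem_erase.2 ⟨hjl'.symm, Finset.mem_univ l'⟩⟩)] at hle
  have hFl : F l = P := by simp [hFdef]
  have hFl' : F l' = Q := by simp [hFdef, hll'.symm]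
  have hsum : ∑ i ∈ ((Finset.univ.erase j).erase l).erase l', D.v (D.ev (F i)) =
      ∑ i ∈ ((Finset.univ.erase j).erase l).erase l', D.v (D.pt i) := by
    refine Finset.sum_congr rfl fun i hi => ?_
    simp only [Finset.mem_erase, Finset.mem_univ, and_true] at hi
    simp only [hFdef, if_neg hi.1, if_neg hi.2.1, D.ev_X]
  rw [hFl, hFl', hsum] at hle
  have hle' : (D.v (D.ev P) : ℚ) + (D.v (D.ev Q) +
      ∑ i ∈ ((Finset.univ.erase j).erase l).erase l', (D.v (D.pt i) : ℚ)) ≤
      D.Lam + (D.v (D.γ j) + D.v (D.ev (pderiv l P)) + D.v (D.ev (pderiv l' Q))) := by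
    exact_mod_cast hle
  have hw : ∑ i ∈ ((Finset.univ.erase j).erase l).erase l', D.w i =
      ∑ i ∈ ((Finset.univ.erase j).erase l).erase l', (D.v (D.pt i) : ℚ) -
        (67 - w5 j - w5 l - w5 l') * D.μ := by
    unfold w
    rw [Finset.sum_sub_distrib, ← Finset.sum_mul, w5_sum j l l' hjl hjl' hll']
  rw [hw]
  unfold vh vγ A
  subst he he'
  push_cast
  linarith

private theorem weight_w5 (n : Fin 5 →₀ ℕ) : Finsupp.weight w5 n = ∑ i, n i * w5 i := by
  rw [Finsupp.weight_apply, Finsupp.sum_fintype]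
  · simp
  · simp

/-- Polynomials of least degree, free of a given set of variables, with positive value. -/
theorem exists_min (T : Set (Fin 5)) (hT : T.Nonempty)
    (h : ∃ (d : ℕ) (Q : MvPolynomial (Fin 5) k), Q ≠ 0 ∧ IsWeightedHomogeneous w5 Q d ∧
      (∀ j ∈ T, pderiv j Q = 0) ∧ 0 < D.vh d Q) :
    ∃ (d : ℕ) (Q : MvPolynomial (Fin 5) k), Q ≠ 0 ∧ IsWeightedHomogeneous w5 Q d ∧
      (∀ j ∈ T, pderiv j Q = 0) ∧ 0 < D.vh d Q ∧
      (∀ l, pderiv l Q ≠ 0 → ∃ e, e + w5 l = d ∧ D.vh e (pderiv l Q) = 0) ∧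
      ∃ l, pderiv l Q ≠ 0 ∧ (D.w 0 = 0 → l ≠ 0) := by
  classical
  obtain ⟨Q, hQ0, hQ, hQT, hpos⟩ := Nat.find_spec h
  have hmin := fun (e : ℕ) (he : e < Nat.find h) => Nat.find_min h he
  set d := Nat.find h with hd
  obtain ⟨j, hjT⟩ := hT
  have hsupp : ∀ n ∈ Q.support, ∑ i, n i * w5 i = d := by
    intro n hn
    rw [← weight_w5]
    exact hQ (mem_support_iff.1 hn)
  refine ⟨d, Q, hQ0, hQ, hQT, hpos, ?_, ?_⟩
  · intro l hl
    have hex : ∃ n ∈ Q.support, n l ≠ 0 := by
      by_contra hcon
      push Not at hcon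
      exact hl ((pderiv_eq_zero_iff Q l).2 hcon)
    obtain ⟨n, hn, hnl⟩ := hex
    have hwl : w5 l ≤ d := by
      rw [← hsupp n hn]
      calc w5 l ≤ n l * w5 l := Nat.le_mul_of_pos_left _ (Nat.pos_of_ne_zero hnl)
        _ ≤ ∑ i, n i * w5 i := Finset.single_le_sum (f := fun i => n i * w5 i)
            (fun i _ => Nat.zero_le _) (Finset.mem_univ l)
    have hw0 : 0 < w5 l := by
      fin_cases l <;> simp [w5]
    have he : (d - w5 l) + w5 l = d := Nat.sub_add_cancel hwl
    have hhom := hQ.pderiv he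
    have hfree : ∀ i ∈ T, pderiv i (pderiv l Q) = 0 := by
      intro i hi
      rw [pderiv_comm', hQT i hi, map_zero]
    have hev : D.ev (pderiv l Q) ≠ 0 := D.ev_ne_free hhom hl j (hfree j hjT)
    refine ⟨d - w5 l, he, le_antisymm ?_ (D.vh_nonneg hhom hev)⟩
    by_contra hcon
    push Not at hcon
    exact hmin (d - w5 l) (by omega) ⟨pderiv l Q, hl, hhom, hfree, hcon⟩
  · by_cases hl : ∃ l, l ≠ 0 ∧ pderiv l Q ≠ 0
    · obtain ⟨l, hl0, hl⟩ := hl
      exact ⟨l, hl, fun _ => hl0⟩
    · push Not at hl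
      have hn0 : ∀ n ∈ Q.support, n = Finsupp.single 0 d := by
        intro n hn
        have h1 : ∀ i, i ≠ 0 → n i = 0 := fun i hi => (pderiv_eq_zero_iff Q i).1 (hl i hi) n hn
        have h2 := hsupp n hn
        rw [Finset.sum_eq_single (0 : Fin 5) (fun i _ hi => by rw [h1 i hi, zero_mul])
          (fun h => absurd (Finset.mem_univ _) h)] at h2
        have h3 : w5 0 = 1 := rfl
        rw [h3, mul_one] at h2
        ext i
        by_cases hi : i = 0
        · subst hi
          rw [Finsupp.single_eq_same, h2]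
        · rw [h1 i hi, Finsupp.single_eq_of_ne hi]
      obtain ⟨n, hn⟩ := Finset.nonempty_iff_ne_empty.2 (fun h0 => hQ0 (support_eq_empty.1 h0))
      have hQe : Q = monomial (Finsupp.single 0 d) (Q.coeff (Finsupp.single 0 d)) := by
        ext n'
        rw [coeff_monomial]
        split_ifs with h4
        · rw [h4]
        · by_contra h5
          exact h4 (hn0 n' (mem_support_iff.2 h5)).symm
      have hc : Q.coeff (Finsupp.single 0 d) ≠ 0 := by
        rw [← hn0 n hn]
        exact mem_support_iff.1 hn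
      have hvh : D.vh d Q = d * D.w 0 := by
        have h6 : D.ev Q = algebraMap k E (Q.coeff (Finsupp.single 0 d)) := by
          conv_lhs => rw [hQe]
          rw [ev, aeval_monomial, Finsupp.prod_single_index (by simp), D.pt0, one_pow, mul_one]
        rw [vh, h6, D.const _ hc, D.w_zero]
        push_cast
        ring
      rw [hvh] at hpos
      refine ⟨0, ?_, ?_⟩
      · intro h7
        have h8 := (pderiv_eq_zero_iff Q 0).1 h7 n hn
        rw [hn0 n hn, Finsupp.single_eq_same] at h8
        rw [h8] at hpos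
        simp at hpos
      · intro h7
        rw [h7, mul_zero] at hpos
        exact absurd hpos (lt_irrefl _)

end Pool.Agent.KO.KPt
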