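import Pool.Agent.KO.Key.Star

/-! # Project KO, block KEY: the bound by one monomial -/

set_option autoImplicit false

namespace Pool.Agent.KO.KPt

open MvPolynomial

private theorem topb_coeff {k : Type} [Field k] {m : ℕ} (Q : MvPolynomial (Fin m) k) (l : Fin m)
    (γ : Fin m →₀ ℕ) :
    (pderiv l Q).coeff γ = (γ l + 1 : k) * Q.coeff (γ + Finsupp.single l 1) := by
  induction Q using MvPolynomial.induction_on' with
  | monomial β c =>
    rw [pderiv_monomial, coeff_monomial, coeff_monomial]
    by_cases h : β = γ + Finsupp.single l 1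
    · subst h
      simp
      ring
    · rw [if_neg h, mul_zero]
      split_ifs with h1
      · have h2 : β l = 0 := by
          by_contra h3
          apply h
          rw [← h1]
          ext i
          by_cases hi : i = l
          · subst hi; simp; omega
          · simp [Ne.symm hi]
        rw [h2]; simp
      · rfl
  | add p q hp hq => rw [map_add, coeff_add, coeff_add, hp, hq]; ring

private theorem topb_comm {k : Type} [Field k] {m : ℕ} (Q : MvPolynomial (Fin m) k) (i j : Fin m) :
    pderiv i (pderiv j Q) = pderiv j (pderiv i Q) := by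
  let di : Derivation k (MvPolynomial (Fin m) k) (MvPolynomial (Fin m) k) := pderiv i
  let dj : Derivation k (MvPolynomial (Fin m) k) (MvPolynomial (Fin m) k) := pderiv j
  have h : ⁅di, dj⁆ = 0 := by
    refine MvPolynomial.derivation_ext fun l => ?_
    rw [Derivation.commutator_apply]
    simp only [di, dj, pderiv_X, Pi.single_apply]
    split_ifs <;> simp
  have h1 := congrArg (fun δ : Derivation k (MvPolynomial (Fin m) k) (MvPolynomial (Fin m) k) =>
    δ Q) h
  simp only [Derivation.commutator_apply, Derivation.coe_zero, Pi.zero_apply] at h1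
  exact sub_eq_zero.1 h1

variable {k E : Type} [Field k] [CharZero k] [Field E] [Algebra k E] (D : KPt k E)

private theorem topb_mem {m : ℕ} {Q : MvPolynomial (Fin m) k} {n : Fin m →₀ ℕ}
    (hn : n ∈ Q.support) (l : Fin m) (hl : 0 < n l) :
    n - Finsupp.single l 1 ∈ (pderiv l Q).support ∧
      n - Finsupp.single l 1 + Finsupp.single l 1 = n := by
  have h1 : n - Finsupp.single l 1 + Finsupp.single l 1 = n := by
    ext i
    by_cases hi : i = l
    · subst hi; simp; omega
    · simp [Ne.symm hi]
  refine ⟨?_, h1⟩
  rw [mem_support_iff, topb_coeff, h1]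
  exact mul_ne_zero (Nat.cast_add_one_ne_zero _) (mem_support_iff.1 hn)

theorem top_bound (j : Fin 5) (hj : D.γ j ≠ 0) {d : ℕ} {Q : MvPolynomial (Fin 5) k}
    (hQ : IsWeightedHomogeneous w5 Q d) (hQj : pderiv j Q = 0) {n : Fin 5 →₀ ℕ}
    (hn : n ∈ Q.support) : D.vh d Q ≤ ∑ l ∈ Finset.univ.erase j, n l * (D.w l + D.e j) := by
  obtain ⟨r, hr⟩ : ∃ r, ∑ l, n l = r := ⟨_, rfl⟩
  induction r generalizing Q n d with
  | zero =>
    have h1 : n = 0 := by
      ext l
      exact (Finset.sum_eq_zero_iff.1 hr) l (Finset.mem_univ l)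
    subst h1
    have hd : d = 0 := by
      have := hQ (mem_support_iff.1 hn)
      simpa using this.symm
    subst hd
    have h2 : Q = C (Q.coeff 0) := by
      ext γ'
      rw [coeff_C]
      split_ifs with h
      · rw [h]
      · by_contra h3
        have h4 := hQ h3
        rw [Finsupp.weight_apply, Finsupp.sum_fintype _ _ (fun _ => by simp)] at h4
        apply h
        ext i
        have h5 := (Finset.sum_eq_zero_iff.1 h4) i (Finset.mem_univ i)
        have h6 : w5 i ≠ 0 := by
          fin_cases i <;> decide
        rw [smul_eq_mul] at h5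
        exact ((mul_eq_zero.1 h5).resolve_right h6).symm
    have h3 : Q.coeff 0 ≠ 0 := mem_support_iff.1 hn
    rw [h2, D.vh_C h3]
    simp
  | succ r ih =>
    obtain ⟨l, hl⟩ : ∃ l, 0 < n l := by
      by_contra hcon
      push Not at hcon
      have : ∑ l, n l = 0 := Finset.sum_eq_zero fun l _ => Nat.le_zero.1 (hcon l)
      omega
    have hjl : j ≠ l := by
      rintro rfl
      have h1 := (topb_mem hn j hl).1
      rw [hQj] at h1
      simp at h1
    obtain ⟨hs1, hγ2⟩ := topb_mem hn l hl
    set n₁ : Fin 5 →₀ ℕ := n - Finsupp.single l 1 with hn₁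
    have hne : pderiv l Q ≠ 0 := by
      intro h0
      rw [h0] at hs1
      simp at hs1
    have hwt : Finsupp.weight w5 n₁ + w5 l = d := by
      have h1 := hQ (mem_support_iff.1 hn)
      rw [← hγ2, map_add] at h1
      rw [← h1]
      congr 1
      simp [Finsupp.weight_apply]
    have hQ1 : IsWeightedHomogeneous w5 (pderiv l Q) (Finsupp.weight w5 n₁) := hQ.pderiv hwt
    have hQj1 : pderiv j (pderiv l Q) = 0 := by
      rw [topb_comm, hQj, map_zero]
    have hsum : ∑ i, n i = ∑ i, n₁ i + 1 := by
      conv_lhs => rw [← hγ2]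
      simp only [Finsupp.add_apply, Finset.sum_add_distrib]
      congr 1
      rw [Finset.sum_eq_single l] <;> simp +contextual [eq_comm]
    have h5 := ih hQ1 hQj1 hs1 (by omega)
    have h7 := D.star_free j l hjl hj hQ hQj hne hwt
    have h8 : ∑ i ∈ Finset.univ.erase j, (n i : ℚ) * (D.w i + D.e j) =
        ∑ i ∈ Finset.univ.erase j, (n₁ i : ℚ) * (D.w i + D.e j) + (D.w l + D.e j) := by
      conv_lhs => rw [← hγ2]
      simp only [Finsupp.add_apply, Nat.cast_add, add_mul, Finset.sum_add_distrib]
      congr 1
      rw [Finset.sum_eq_single l]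
      · simp
      · intro i _ hi; simp [Ne.symm hi]
      · intro h; exact absurd (Finset.mem_erase.2 ⟨hjl.symm, Finset.mem_univ l⟩) h
    rw [h8]
    linarith

end Pool.Agent.KO.KPt
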